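import Pool.Agent.Lib.MP_23bd8d_gt.Cp

/-! Continuous functions, and all members of a discrete family, are eventually constant. -/

namespace Pool.Agent.Lib.MP_23bd8d_gt

open Pool.Agent.Shared.Forcing Cardinal Set

universe u v

set_option synthInstance.maxSize 4000

def Const {M : Type u} (E : M → M → Prop) (f α : M) : Prop :=
  ∀ x x' y y', ¬ E x α → ¬ E x' α → Maps E f x y → Maps E f x' y' → y = y'

variable {l : Cardinal.{u}} [hl : Fact l.IsInaccessible]

instance Dec.const' (X Y : HName (BB l) l) :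
    Dec (fun U => Const (El l U) (cls U X) (cls U Y)) := by
  unfold Const; infer_instance

theorem exists_ultra (p : Cond (WW l)) : ∃ U : Ultra (BB l), RO.io p ∈ U :=
  Ultra.exists_mem (RO.io_ne_bot p)

theorem Const.mono {U : Ultra (BB l)} {f : Md l U} {α β : WW l} (h : Const (El l U) f (pt U α))
    (hαβ : α ≤ β) : Const (El l U) f (pt U β) := fun x x' y y' h1 h2 =>
  h x x' y y' (fun h => h1 (sub_ck.mpr hαβ x h)) (fun h => h2 (sub_ck.mpr hαβ x' h))

namespace Dat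

variable {D : Dat l} {S : SName (BB l) l}

theorem fn {U : Ultra (BB l)} {f : Md l U} (h : El l U f (sm U D.C)) :
    IsFn (El l U) f (XX U) (sm U D.R) := ((D.hC U f).1 h).1

theorem nbhd (F A B : HName (BB l) l) (a : WW l) (U : Ultra (BB l))
    (hF : El l U (cls U F) (sm U D.C)) (hA : El l U (cls U A) (sm U D.R))
    (hB : El l U (cls U B) (sm U D.R))
    (h : Btw (El l U) (sm U D.L) (cls U F) (pt U a) (cls U A) (cls U B)) :
    ⨆ z : Finset (WW l) × Finset (WW l), bv (fun U => nb z.1 z.2 a ∈ U ∧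
      ∀ x, El l U x (sm U (nN z.1 z.2)) →
        Btw (El l U) (sm U D.L) (cls U F) x (cls U A) (cls U B)) ∈ U := by
  obtain ⟨V, hV⟩ := md_sep (fun U x => Btw (El l U) (sm U D.L) (cls U F) x (cls U A) (cls U B))
    U (XX U)
  have h1 : El l U V (sm U D.T) := ((D.hC U _).1 hF).2 _ _ V hA hB fun x =>
    (hV x).trans ⟨fun h => h.2, fun h => ⟨((fn hF).mem h.choose_spec.1).1, h⟩⟩
  obtain ⟨N, a1, a2, a3⟩ := ((D.hT U V).1 h1).2 _ ((hV _).2 ⟨pt_mem U a, h⟩)
  obtain ⟨N, rfl⟩ := cls_surj N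
  have H := And.intro a2 fun x hx => ((hV x).1 (a3 x hx)).2
  revert H
  refine wlog_base N U a1 ?_
  intro U s t e H
  rw [e, el_nN] at H
  exact iSup_mem_of_mem (s, t) (bv_mem.mpr H)

theorem evconst (F : HName (BB l) l) (U : Ultra (BB l)) (hF : El l U (cls U F) (sm U D.C)) :
    ∃ α : WW l, Const (El l U) (cls U F) (pt U α) := by
  by_contra hn
  push Not at hn
  have key : ∀ α : WW l, ∃ (p : Cond (WW l)) (a a' : WW l) (n : NN l) (s t : Finset (WW l)),
      α ≤ a ∧ α ≤ a' ∧ ∀ U : Ultra (BB l), RO.io p ∈ U → nb s t a' ∈ U ∧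
        El l U (cls U F) (sm U D.C) ∧
        (∃ y, Maps (El l U) (cls U F) (pt U a) y ∧ Maps (El l U) (sm U D.L) y (sm U (D.q n))) ∧
        ∀ x, El l U x (sm U (nN s t)) → ∃ y, Maps (El l U) (cls U F) x y ∧
          Maps (El l U) (sm U D.L) (sm U (D.q n)) y := by
    intro α
    obtain ⟨x, x', y, y', h1, h2, h3, h4, h5⟩ : ∃ x x' y y', ¬ El l U x (pt U α) ∧
        ¬ El l U x' (pt U α) ∧ Maps (El l U) (cls U F) x y ∧ Maps (El l U) (cls U F) x' y' ∧
        Maps (El l U) (sm U D.L) y y' := by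
      have := hn α
      simp only [Const, not_forall] at this
      obtain ⟨x, x', y, y', h1, h2, h3, h4, h5⟩ := this
      rcases (D.real U).2.2.1 y y' ((fn hF).mem h3).2 ((fn hF).mem h4).2 with h | h | h
      · exact ⟨x, x', y, y', h1, h2, h3, h4, h⟩
      · exact absurd h h5
      · exact ⟨x', x, y', y, h2, h1, h4, h3, h⟩
    obtain ⟨b, hb, h6⟩ := ((D.real U).2.2.2.2.1 y' ((fn hF).mem h4).2).2
    obtain ⟨x, rfl⟩ := cls_surj x
    obtain ⟨x', rfl⟩ := cls_surj x'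
    obtain ⟨y, rfl⟩ := cls_surj y
    obtain ⟨y', rfl⟩ := cls_surj y'
    obtain ⟨b, rfl⟩ := cls_surj b
    have H := And.intro hF (And.intro h1 (And.intro h2 (And.intro h3 (And.intro h4
      (And.intro h5 (And.intro hb h6))))))
    revert H
    refine wlog_X x U ((fn hF).mem h3).1 ?_
    intro U a e H
    rw [e] at H
    have H' := H
    revert H'
    refine wlog_X x' U ((fn H.1).mem H.2.2.2.2.1).1 ?_
    intro U a' e H
    rw [e] at H
    have H' := H
    revert H'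
    refine D.wlog_q y y' U ((fn H.1).mem H.2.2.2.1).2 ((fn H.1).mem H.2.2.2.2.1).2
      H.2.2.2.2.2.1 ?_
    rintro U n n1 n2 ⟨hF, h1, h2, h3, h4, -, hb, h6⟩
    have H := And.intro hF (And.intro h3 n1)
    rw [el_pt, not_lt] at h1 h2
    revert H
    refine wlog_sup _ U (nbhd F _ b a' U hF (D.q_mem U n) hb ⟨_, h4, n2, h6⟩) ?_
    intro U z hz H
    rw [bv_mem] at hz
    obtain ⟨p, hp⟩ := exists_cond (fun U => nb z.1 z.2 a' ∈ U ∧ El l U (cls U F) (sm U D.C) ∧
        (∃ y, Maps (El l U) (cls U F) (pt U a) y ∧ Maps (El l U) (sm U D.L) y (sm U (D.q n))) ∧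
        ∀ x, El l U x (sm U (nN z.1 z.2)) → ∃ y, Maps (El l U) (cls U F) x y ∧
          Maps (El l U) (sm U D.L) (sm U (D.q n)) y) (U := U)
      ⟨hz.1, H.1, ⟨_, H.2⟩, fun x hx => (hz.2 x hx).imp fun _ h => ⟨h.1, h.2.1⟩⟩
    exact ⟨p, a, a', n, z.1, z.2, h1, h2, hp⟩
  choose p a a' n s t h1 h2 h3 using key
  obtain ⟨n₀, hJ⟩ := pigeon WW_unc n
  obtain ⟨ξ, hξ, η, hη, -, r, r1, r2, r3⟩ := amalg WW_Iic (ι := Unit) hJ p (fun α _ => a α)
    (fun α _ => a' α) (fun α _ => s α) (fun α _ => t α) id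
    (fun α _ _ => inN_iff.mpr fun U hU => (h3 α U hU).1) (fun _ _ _ _ _ => rfl)
    fun α _ _ => Or.inr ⟨h1 α, h2 α⟩
  obtain ⟨U, hU⟩ := exists_ultra r
  obtain ⟨-, hF, ⟨y, a1, a2⟩, -⟩ := h3 ξ U (Ultra.mono hU (RO.io_mono r1))
  obtain ⟨y', b1, b2⟩ := (h3 η U (Ultra.mono hU (RO.io_mono r2))).2.2.2 _
    (el_nN.mpr (inN_iff.mp (r3 ()) U hU))
  rw [hξ.2] at a2
  rw [hη.2, ← (fn hF).uniq a1 b1] at b2
  have hy := ((fn hF).mem a1).2
  exact (D.real U).1 y hy (trans hy (D.q_mem U _) hy a2 b2)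

theorem disc_const (hS : ∀ U, Gen (El l U) (sm U D.C) (sm U D.boxes) (sm U S))
    (A : HName (BB l) l) (U : Ultra (BB l)) (hA : Sub (El l U) (cls U A) (sm U D.C))
    (hd : Disc (El l U) (sm U S) (cls U A)) :
    ∃ α : WW l, ∀ f, El l U f (cls U A) → Const (El l U) f (pt U α) := by
  classical
  by_contra hn
  push Not at hn
  let d : Tr l := Classical.arbitrary _
  have key : ∀ α : WW l, ∃ (p : Cond (WW l)) (F : HName (BB l) l) (β : WW l) (L : List (Tr l))
      (g : ℕ → Finset (WW l) × Finset (WW l)), ∀ U : Ultra (BB l), RO.io p ∈ U →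
        (El l U (cls U F) (cls U A) ∧ El l U (cls U F) (sm U D.C) ∧
          Const (El l U) (cls U F) (pt U β) ∧ ¬ Const (El l U) (cls U F) (pt U α) ∧
          ∀ f, El l U f (cls U A) → El l U f (sm U (D.box L)) → f = cls U F) ∧
        ∀ i ∈ List.range L.length, nb (g i).1 (g i).2 (L.getD i d).1 ∈ U ∧
          ∀ x, El l U x (sm U (nN (g i).1 (g i).2)) → D.In U (cls U F) x (L.getD i d).2 := by
    intro α
    obtain ⟨f, h1, h2⟩ := hn α
    obtain ⟨F, rfl⟩ := cls_surj f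
    obtain ⟨β, hβ⟩ := evconst F U (hA _ h1)
    obtain ⟨V, h3, h4⟩ := hd _ h1
    obtain ⟨N, a1, a2, a3⟩ := ((hS U V).1 h3).2 _ ((h4 _ h1).2 rfl)
    obtain ⟨N, rfl⟩ := cls_surj N
    have H := And.intro a2 (And.intro h1 (And.intro (hA _ h1) (And.intro hβ (And.intro h2
      fun f hf hf' => (h4 f hf).1 (a3 f hf')))))
    revert H
    refine D.wlog_box N U a1 ?_
    intro U L e H
    rw [e] at H
    obtain ⟨h0, H⟩ := H
    have h5 := iSup_fin_mem (fun i (z : Finset (WW l) × Finset (WW l)) =>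
      bv (fun U => nb z.1 z.2 (L.getD i d).1 ∈ U ∧ ∀ x, El l U x (sm U (nN z.1 z.2)) →
        D.In U (cls U F) x (L.getD i d).2)) (Finset.range L.length) U fun i hi =>
      nbhd F _ _ _ U H.2.1 (D.q_mem U _) (D.q_mem U _) ((D.el_box.mp h0).2 _ (by
        rw [List.getD_eq_getElem _ _ (Finset.mem_range.mp hi)]
        exact List.getElem_mem _))
    revert H
    refine wlog_sup _ U h5 ?_
    intro U g hg H
    rw [finset_inf_mem] at hg
    obtain ⟨p, hp⟩ := exists_cond (fun U =>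
        (El l U (cls U F) (cls U A) ∧ El l U (cls U F) (sm U D.C) ∧
          Const (El l U) (cls U F) (pt U β) ∧ ¬ Const (El l U) (cls U F) (pt U α) ∧
          ∀ f, El l U f (cls U A) → El l U f (sm U (D.box L)) → f = cls U F) ∧
        ∀ i ∈ List.range L.length, nb (g i).1 (g i).2 (L.getD i d).1 ∈ U ∧
          ∀ x, El l U x (sm U (nN (g i).1 (g i).2)) → D.In U (cls U F) x (L.getD i d).2) (U := U)
      ⟨H, fun i hi => bv_mem.mp (hg i (Finset.mem_range.mpr (List.mem_range.mp hi)))⟩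
    exact ⟨p, F, β, L, g, hp⟩
  choose p F β L g h using key
  obtain ⟨lab, hJ⟩ := pigeon WW_unc fun α => (L α).map Prod.snd
  have hlen : ∀ α, (L α).map Prod.snd = lab → (L α).length = lab.length := fun α e => by
    rw [← e, List.length_map]
  obtain ⟨ξ, hξ, η, hη, hβ, r, r1, r2, r3⟩ := amalg WW_Iic (ι := Fin lab.length) hJ p
    (fun α i => ((L α).getD i d).1) (fun α i => ((L α).getD i d).1) (fun α i => (g α i).1)
    (fun α i => (g α i).2) β
    (fun α hα i => inN_iff.mpr fun U hU =>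
      ((h α U hU).2 i (List.mem_range.mpr (i.2.trans_eq (hlen α hα.2).symm))).1) (fun _ _ _ _ e => e)
    fun α _ _ => Or.inl rfl
  obtain ⟨U, hU⟩ := exists_ultra r
  obtain ⟨⟨-, -, a1, -, a2⟩, -⟩ := h ξ U (Ultra.mono hU (RO.io_mono r1))
  obtain ⟨⟨b1, b2, -, b3, -⟩, b4⟩ := h η U (Ultra.mono hU (RO.io_mono r2))
  refine b3 ?_
  rw [a2 _ b1 (D.el_box.mpr ⟨b2, fun t ht => ?_⟩)]
  · exact a1.mono hβ.le
  · obtain ⟨i, hi, rfl⟩ := List.getElem_of_mem ht
    have hi' : i < lab.length := hlen ξ hξ.2 ▸ hi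
    have hi'' : i < (L η).length := (hlen η hη.2).symm ▸ hi'
    have h1 := (b4 i (List.mem_range.mpr hi'')).2 _
      (el_nN.mpr (inN_iff.mp (r3 ⟨i, hi'⟩) U hU))
    simp only [List.getD_eq_getElem _ _ hi, List.getD_eq_getElem _ _ hi''] at h1
    have h2 : ((L η)[i]).2 = ((L ξ)[i]).2 := by
      have := List.getElem_of_eq (hη.2.trans hξ.2.symm) (i := i) (by simpa using hi'')
      simpa using this
    rwa [h2] at h1

end Dat

end Pool.Agent.Lib.MP_23bd8d_gt
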