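import Pool.Agent.Lib.MP_23bd8d_gt.Small

/-! The covering form of the positive case. -/

set_option autoImplicit false

open Set Filter Topology Cardinal

namespace Pool.Agent.Lib.MP_23bd8d_gt

variable {X : Type} [TopologicalSpace X]

theorem sd_of_discrete {D : Set (CX X)} (hD : DiscreteTopology D) : SD X D := by
  refine ⟨fun _ => 0, (↑), fun i => ?_⟩
  obtain ⟨U, hU, h⟩ := (discrete_iff _).1 hD i.1 i.2
  exact mem_comap.2 ⟨U, hU, fun j hj _ => Subtype.ext (h j.1 j.2 hj)⟩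

/-- Open covers of finite powers with small subcovers. -/
theorem fu_of_cover (H : HX X)
    (hS : ∀ (n : ℕ) (ι : Type) (U : ι → Set (Fin n → X)), (∀ i, IsOpen (U i)) →
      (∀ y, ∃ i, y ∈ U i) → ∃ s : Set ι, SD X s ∧ ∀ y, ∃ i ∈ s, y ∈ U i) :
    FrechetUrysohnSpace (CX X) := by
  refine ⟨fun Z g hg => ?_⟩
  have h1 : ∀ n N : ℕ, ∃ s : Set Z, SD X s ∧
      ∀ y : Fin n → X, ∃ f ∈ s, ∀ j, |f.1.1 (y j) - g.1 (y j)| < 3 / ((N : ℝ) + 1) := fun n N => by
    let U : Z → Set (Fin n → X) := fun f => {y | ∀ j, |f.1.1 (y j) - g.1 (y j)| < 3 / ((N : ℝ) + 1)}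
    refine hS n Z U (fun f => ?_) fun y => ?_
    · simp only [U, ofPred_forall]
      exact isOpen_iInter_of_finite fun j => isOpen_lt
        (((f.1.2.sub g.2).comp (continuous_apply j)).abs) continuous_const
    · obtain ⟨f, h1, h2⟩ := mem_closure_iff_nhds.1 hg _ (eventually_all.2 fun j =>
        ((continuous_ev (y j)).tendsto g).eventually
          (Metric.ball_mem_nhds _ (show (0 : ℝ) < 3 / ((N : ℝ) + 1) by positivity)))
      exact ⟨⟨f, h2⟩, h1⟩
  choose s hs hs' using h1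
  have h2 := (fu_iff _).1 (((sd_of_countable (ι := ℕ × ℕ)).sigma H (τ := fun p => s p.1 p.2)
    fun p => hs p.1 p.2).fu H fun p => p.2.1.1)
  have h3 : g ∈ closure (range fun p : Σ p : ℕ × ℕ, s p.1 p.2 => p.2.1.1) := by
    refine mem_closure_iff_nhds.2 fun V hV => ?_
    obtain ⟨F, N, hF, h⟩ := nhds_fin hV
    obtain ⟨n, y, -, rfl⟩ := hF.fin_param
    obtain ⟨f, h4, h5⟩ := hs' n N y
    exact ⟨f, h f (forall_mem_range.2 h5), ⟨(n, N), f, h4⟩, rfl⟩
  obtain ⟨u, hu, hu'⟩ := h2 _ subset_closure g h3 h3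
  exact ⟨u, fun n => by
    obtain ⟨p, hp⟩ := hu n
    exact hp ▸ p.2.1.2, hu'⟩

/-- The closure of `A` is Frechet-Urysohn unless a regular uncountable cardinal `κ ≤ #A` separates
the sizes of discrete sets of functions from the covering number of a finite power. -/
theorem fu_closure_of_cover (H : HX X) (A : Set (CX X))
    (hS : ∀ κ ≤ #A, κ.IsRegular → ℵ₀ < κ → ∀ (n : ℕ) (C : Set (Set (Fin n → X))),
      (∀ U ∈ C, IsOpen U) → ⋃₀ C = Set.univ → (∀ C' ⊆ C, ⋃₀ C' = Set.univ → κ ≤ #C') →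
      ∃ D : Set (CX X), DiscreteTopology D ∧ κ ≤ #D) :
    FrechetUrysohnSpace (closure A) := by
  by_cases h : ∀ μ ≤ #A, μ.IsRegular → ℵ₀ < μ → SD X μ.out
  · have := (sd_of_regular H h A le_rfl).fu H ((↑) : A → CX X)
    rwa [Subtype.range_coe] at this
  push Not at h
  obtain ⟨μ, h1, h2, h3, h4⟩ := h
  have : FrechetUrysohnSpace (CX X) := fu_of_cover H fun n ι U ho hc => by
    obtain ⟨s, hs, hs'⟩ := (wellFounded_lt (α := Cardinal)).onFun (f := fun s : Set ι => #s)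
      |>.has_min {s | ∀ y, ∃ i ∈ s, y ∈ U i} ⟨univ, fun y => (hc y).imp fun _ h => ⟨trivial, h⟩⟩
    have key : ∀ κ ≤ #A, κ ≤ #s → κ.IsRegular → ℵ₀ < κ → SD X κ.out := fun κ p q r t => by
      obtain ⟨D, hD, hD'⟩ := hS κ p r t n (range U) (forall_mem_range.2 ho)
        (eq_univ_of_forall fun y => (hc y).elim fun i h => ⟨_, ⟨i, rfl⟩, h⟩) fun V hV hV' => by
          choose f hf using fun v : V => mem_range.1 (hV v.2)
          have h5 : ¬ #(range f) < #s := hs' (range f) fun y => by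
            obtain ⟨v, hv, hy⟩ := eq_univ_iff_forall.1 hV' y
            exact ⟨f ⟨v, hv⟩, ⟨_, rfl⟩, by rw [hf]; exact hy⟩
          exact q.trans ((not_lt.1 h5).trans mk_range_le)
      exact (sd_of_discrete hD).of_le (by rwa [mk_out])
    refine ⟨s, sd_of_regular H (fun ν a b c => ?_) s le_rfl, hs⟩
    rcases le_total ν μ with e | e
    · exact key ν (e.trans h1) a b c
    · exact (h4 (key μ h1 (e.trans a) h2 h3)).elim
  infer_instance

end Pool.Agent.Lib.MP_23bd8d_gt
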