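import Pool.Agent.Lib.MP_23bd8d_gt.Space

/-! The function space of the generic space. -/

namespace Pool.Agent.Lib.MP_23bd8d_gt

open Pool.Agent.Shared.Forcing Cardinal Set

universe u v

set_option synthInstance.maxSize 4000

variable {l : Cardinal.{u}} [hl : Fact l.IsInaccessible]

/-- names for the real line, the topology and the set of continuous functions -/
structure Dat (l : Cardinal.{u}) [Fact l.IsInaccessible] extends RealData (BB l) l where
  T : SName (BB l) l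
  C : SName (BB l) l
  hT : ∀ U, Gen (El l U) (XX U) (sm U baseN) (sm U T)
  hC : ∀ U f, El l U f (sm U C) ↔ Cont (El l U) (XX U) (sm U T) (sm U R) (sm U L) f

theorem exists_dat : Nonempty (Dat l) := by
  obtain ⟨ρ⟩ := exists_realData (BB_lt (l := l))
  obtain ⟨T, hT⟩ := exists_gen BB_lt (chk (BB l) (oc l ℵ₁)) baseN
  obtain ⟨C, hC⟩ := exists_switness BB_lt (fun U C => ∀ f, El l U f C ↔
    Cont (El l U) (XX U) (sm U T) (sm U ρ.R) (sm U ρ.L) f)
  refine ⟨⟨ρ, T, C, hT, fun U => hC U ?_⟩⟩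
  obtain ⟨P, hP⟩ := md_prod (tame_of_small BB_lt) U (XX U) (sm U ρ.R)
  obtain ⟨P', hP'⟩ := md_power (tame_of_small BB_lt) U P
  obtain ⟨C, hC⟩ := md_sep
    (fun U f => Cont (El l U) (XX U) (sm U T) (sm U ρ.R) (sm U ρ.L) f) U P'
  refine ⟨C, fun f => (hC f).trans ⟨fun h => h.2, fun h => ⟨(hP' f).2 fun p hp => ?_, h⟩⟩⟩
  obtain ⟨x, y, h1, h2, h3⟩ := h.1.1 p hp
  exact hP p x y h1 h2 h3

/-- a point with a rational interval -/
abbrev Tr (l : Cardinal.{u}) [Fact l.IsInaccessible] : Type u := WW l × NN l × NN l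

theorem Tr_lt : #(Tr l) < l :=
  prod_lt_l WW_lt (prod_lt_l (mk_NN.trans_lt aleph0_lt_l) (mk_NN.trans_lt aleph0_lt_l))

namespace Dat

variable (D : Dat l)

/-- `f x` lies in the rational interval `n` -/
abbrev In (U : Ultra (BB l)) (f x : Md l U) (n : NN l × NN l) : Prop :=
  Btw (El l U) (sm U D.L) f x (sm U (D.q n.1)) (sm U (D.q n.2))

/-- a basic open set of the function space -/
noncomputable def box (L : List (Tr l)) : SName (BB l) l :=
  sepName D.C (fun U f => ∀ t ∈ L, D.In U f (pt U t.1) t.2)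

theorem el_box {U : Ultra (BB l)} {L : List (Tr l)} {f : Md l U} :
    El l U f (sm U (D.box L)) ↔ El l U f (sm U D.C) ∧ ∀ t ∈ L, D.In U f (pt U t.1) t.2 :=
  mem_sepName D.C (fun U f => ∀ t ∈ L, D.In U f (pt U t.1) t.2) U f

/-- the base of the function space -/
noncomputable def boxes : SName (BB l) l := SName.mk _ (list_lt_l Tr_lt) D.box fun _ => ⊤

theorem box_base (U : Ultra (BB l)) (L : List (Tr l)) :
    El l U (sm U (D.box L)) (sm U D.boxes) :=
  mem_mk (list_lt_l Tr_lt) D.box _ L U.top_mem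

@[elab_as_elim]
theorem wlog_box {Φ : Ultra (BB l) → Prop} (Z : HName (BB l) l) (U : Ultra (BB l))
    (h : El l U (cls U Z) (sm U D.boxes)) [Dec Φ]
    (H : ∀ U L, cls U Z = sm U (D.box L) → Φ U) : Φ U :=
  wlog_mk Z (list_lt_l Tr_lt) _ _ U h fun U z _ e => H U z e

variable {D} {S : SName (BB l) l}

theorem isTop_S (hS : ∀ U, Gen (El l U) (sm U D.C) (sm U D.boxes) (sm U S)) (U : Ultra (BB l)) :
    IsTop (El l U) (sm U D.C) (sm U S) := by
  refine (hS U).isTop (fun x hx => ⟨_, D.box_base U [], D.el_box.mpr ⟨hx, by simp⟩,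
    fun z hz => (D.el_box.mp hz).1⟩) fun N N' x hN hN' hx hx' => ?_
  obtain ⟨X, rfl⟩ := cls_surj x
  obtain ⟨N, rfl⟩ := cls_surj N
  obtain ⟨N', rfl⟩ := cls_surj N'
  revert hx hx'
  revert hN'
  refine D.wlog_box N U hN ?_
  intro U L e hN'
  rw [e]
  clear e
  refine D.wlog_box N' U hN' ?_
  intro U L' e
  rw [e]
  clear e
  intro hx hx'
  rw [el_box] at hx hx'
  refine ⟨_, D.box_base U (L ++ L'), D.el_box.mpr ⟨hx.1, List.forall_mem_append.mpr ⟨hx.2, hx'.2⟩⟩,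
    fun z hz => ?_, fun z hz => ?_⟩
  · rw [el_box, List.forall_mem_append] at hz
    exact D.el_box.mpr ⟨hz.1, hz.2.1⟩
  · rw [el_box, List.forall_mem_append] at hz
    exact D.el_box.mpr ⟨hz.1, hz.2.2⟩

theorem box_open (hS : ∀ U, Gen (El l U) (sm U D.C) (sm U D.boxes) (sm U S)) (U : Ultra (BB l))
    (L : List (Tr l)) : El l U (sm U (D.box L)) (sm U S) :=
  (hS U).base (fun _ hz => (D.el_box.mp hz).1) (D.box_base U L)

theorem trans {U : Ultra (BB l)} {x y z : Md l U} (hx : El l U x (sm U D.R))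
    (hy : El l U y (sm U D.R)) (hz : El l U z (sm U D.R)) (h : Maps (El l U) (sm U D.L) x y)
    (h' : Maps (El l U) (sm U D.L) y z) : Maps (El l U) (sm U D.L) x z :=
  (D.real U).2.1 x y z hx hy hz h h'

theorem hasSub_S (hS : ∀ U, Gen (El l U) (sm U D.C) (sm U D.boxes) (sm U S)) (U : Ultra (BB l)) :
    HasSub (El l U) (XX U) (sm U D.R) (sm U D.L) (sm U D.C) (sm U S) := by
  intro x a b V hx ha hb hV
  refine (hS U V).2 ⟨fun f hf => ((hV f).1 hf).1, fun f hf => ?_⟩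
  obtain ⟨h1, y, h2, h3, h4⟩ := (hV f).1 hf
  have hy := (((D.hC U f).1 h1).1.mem h2).2
  suffices h : ∃ N, El l U N (sm U D.boxes) ∧ El l U f N ∧ ∀ g, El l U g N →
      El l U g (sm U D.C) ∧ Btw (El l U) (sm U D.L) g x a b by
    obtain ⟨N, a1, a2, a3⟩ := h
    exact ⟨N, a1, a2, fun g hg => (hV g).2 (a3 g hg)⟩
  clear hV hf
  obtain ⟨x, rfl⟩ := cls_surj x
  obtain ⟨a, rfl⟩ := cls_surj a
  obtain ⟨b, rfl⟩ := cls_surj b
  obtain ⟨f, rfl⟩ := cls_surj f
  obtain ⟨y, rfl⟩ := cls_surj y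
  have H := And.intro ha (And.intro hb (And.intro h1 (And.intro h2 (And.intro h3
    (And.intro h4 hy)))))
  revert H
  refine wlog_X x U hx ?_
  intro U x e
  rw [e]
  intro H
  have H' := H
  revert H'
  refine D.wlog_q a y U H.1 H.2.2.2.2.2.2 H.2.2.2.2.1 ?_
  intro U n n1 n2 H
  have H' := And.intro n1 (And.intro n2 H)
  revert H'
  refine D.wlog_q y b U H.2.2.2.2.2.2 H.2.1 H.2.2.2.2.2.1 ?_
  rintro U m m1 m2 ⟨n1, n2, ha, hb, h1, h2, -⟩
  refine ⟨_, D.box_base U [(x, n, m)], D.el_box.mpr ⟨h1, ?_⟩, fun g hg => ?_⟩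
  · simpa using ⟨_, h2, n2, m1⟩
  · obtain ⟨g1, g2⟩ := D.el_box.mp hg
    obtain ⟨z, z1, z2, z3⟩ := g2 (x, n, m) (by simp)
    have hz := (((D.hC U g).1 g1).1.mem z1).2
    exact ⟨g1, z, z1, trans ha (D.q_mem U n) hz n1 z2, trans hz (D.q_mem U m) hb z3 m2⟩

theorem box_mem_of (U : Ultra (BB l)) (S' : Md l U) (h1 : IsTop (El l U) (sm U D.C) S')
    (h2 : HasSub (El l U) (XX U) (sm U D.R) (sm U D.L) (sm U D.C) S') (L : List (Tr l)) :
    El l U (sm U (D.box L)) S' := by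
  induction L with
  | nil =>
    rw [md_ext U (sm U (D.box [])) (sm U D.C) fun z => by simp [el_box]]
    exact h1.2.1
  | cons t L ih =>
    refine h1.2.2.1 _ _ _ (h2 (pt U t.1) _ _ (sm U (D.box [t])) (pt_mem U _) (D.q_mem U t.2.1)
      (D.q_mem U t.2.2) fun f => ?_) ih fun f => ?_
    · simp [el_box]
    · simp only [el_box, List.forall_mem_cons, List.not_mem_nil, false_imp_iff, implies_true]
      tauto

theorem isCp (hS : ∀ U, Gen (El l U) (sm U D.C) (sm U D.boxes) (sm U S)) (U : Ultra (BB l)) :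
    IsCp (El l U) (XX U) (sm U D.T) (sm U D.R) (sm U D.L) (sm U D.C) (sm U S) := by
  refine ⟨D.hC U, isTop_S hS U, hasSub_S hS U, fun S' h1 h2 V hV => ?_⟩
  have h4 : ∀ N, El l U N (sm U D.boxes) → El l U N S' := by
    intro N hN
    obtain ⟨N, rfl⟩ := cls_surj N
    obtain ⟨S', rfl⟩ := cls_surj S'
    have H := And.intro h1 h2
    revert H
    refine D.wlog_box N U hN ?_
    intro U L e H
    rw [e]
    exact box_mem_of U _ H.1 H.2 L
  obtain ⟨V, rfl⟩ := cls_surj V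
  obtain ⟨F, hF⟩ := md_sep (fun U N => Sub (El l U) N (cls U V)) U S'
  refine h1.2.2.2 F _ (fun N hN => ((hF N).1 hN).1) fun z => ⟨fun hz => ?_, ?_⟩
  · obtain ⟨N, a1, a2, a3⟩ := ((hS U _).1 hV).2 z hz
    exact ⟨N, (hF N).2 ⟨h4 N a1, a3⟩, a2⟩
  · rintro ⟨N, a1, a2⟩
    exact ((hF N).1 a1).2 z a2

end Dat

end Pool.Agent.Lib.MP_23bd8d_gt
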