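import Pool.Agent.Shared.Forcing.Defs

/-! Topological notions read inside a structure `(M, E)`, where `E x y` interprets `x ∈ y`. -/

namespace Pool.Agent.Lib.MP_23bd8d_gt

open Pool.Agent.Shared.Forcing

universe u

variable {M : Type u} (E : M → M → Prop)

/-- `f` is a function from `A` to `B`. -/
def IsFn (f A B : M) : Prop :=
  (∀ p, E p f → ∃ x y, E x A ∧ E y B ∧ IsKPair E p x y) ∧ ∀ x, E x A → ∃! y, Maps E f x y

/-- `T` is a topology on `X`: a family of subsets of `X` containing `X`, closed under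
intersections of two members and under unions of subfamilies. -/
def IsTop (X T : M) : Prop :=
  (∀ V, E V T → Sub E V X) ∧ E X T ∧
  (∀ V V' Z, E V T → E V' T → (∀ z, E z Z ↔ E z V ∧ E z V') → E Z T) ∧
  ∀ S Z, Sub E S T → (∀ z, E z Z ↔ ∃ V, E V S ∧ E z V) → E Z T

/-- `(R, L)` is a real line, `Maps E L x y` being `x < y`: a nonempty strict linear order without
end points, Dedekind complete, with an order dense subset that injects into `w`. -/
def IsReal (w R L : M) : Prop :=
  (∀ x, E x R → ¬ Maps E L x x) ∧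
  (∀ x y z, E x R → E y R → E z R → Maps E L x y → Maps E L y z → Maps E L x z) ∧
  (∀ x y, E x R → E y R → Maps E L x y ∨ x = y ∨ Maps E L y x) ∧
  (∃ x, E x R) ∧
  (∀ x, E x R → (∃ y, E y R ∧ Maps E L y x) ∧ ∃ y, E y R ∧ Maps E L x y) ∧
  (∃ Q, Sub E Q R ∧ Inj E Q w ∧ ∀ x y, E x R → E y R → Maps E L x y →
    ∃ q, E q Q ∧ Maps E L x q ∧ Maps E L q y) ∧
  ∀ A, Sub E A R → (∃ x, E x A) → (∃ b, E b R ∧ ∀ x, E x A → ¬ Maps E L b x) →
    ∃ s, E s R ∧ (∀ x, E x A → ¬ Maps E L s x) ∧
      ∀ b, E b R → (∀ x, E x A → ¬ Maps E L b x) → ¬ Maps E L b s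

/-- `a < f x < b`. -/
def Btw (L f x a b : M) : Prop := ∃ y, Maps E f x y ∧ Maps E L a y ∧ Maps E L y b

/-- `f` is a continuous function from `(X, T)` to the real line `(R, L)`: preimages of open
intervals are open. -/
def Cont (X T R L f : M) : Prop :=
  IsFn E f X R ∧ ∀ a b V, E a R → E b R → (∀ x, E x V ↔ Btw E L f x a b) → E V T

/-- `(X, T)` is a Tychonoff space: `T₁`, and a point is separated from a closed set not
containing it by a continuous real function. -/
def Tych (X T R L : M) : Prop :=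
  (∀ x y, E x X → E y X → x ≠ y → ∃ V, E V T ∧ E x V ∧ ¬ E y V) ∧
  ∀ V x, E V T → E x V → ∃ f a b, Cont E X T R L f ∧ a ≠ b ∧ Maps E f x a ∧
    ∀ y, E y X → ¬ E y V → Maps E f y b

/-- `S` contains all sets `{f ∈ C : a < f x < b}`. -/
def HasSub (X R L C S : M) : Prop :=
  ∀ x a b V, E x X → E a R → E b R → (∀ f, E f V ↔ E f C ∧ Btw E L f x a b) → E V S

/-- `(C, S)` is `C_p(X)`: `C` is the set of continuous real functions on `(X, T)` and `S` is the
least topology on `C` containing all sets `{f ∈ C : a < f x < b}`. -/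
def IsCp (X T R L C S : M) : Prop :=
  (∀ f, E f C ↔ Cont E X T R L f) ∧ IsTop E C S ∧ HasSub E X R L C S ∧
  ∀ S', IsTop E C S' → HasSub E X R L C S' → Sub E S S'

/-- `f` lies in the closure of `A` for the topology `S`. -/
def InCl (S f A : M) : Prop := ∀ V, E V S → E f V → ∃ g, E g A ∧ E g V

/-- `D` is discrete in the topology induced by `S`. -/
def Disc (S D : M) : Prop := ∀ f, E f D → ∃ V, E V S ∧ ∀ g, E g D → (E g V ↔ g = f)

/-- `Y` is Frechet-Urysohn in the topology induced by `S`, sequences being indexed by `w`. -/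
def FU (w S Y : M) : Prop :=
  ∀ A f, Sub E A Y → E f Y → InCl E S f A → ∃ s, IsFn E s w A ∧
    ∀ V, E V S → E f V → ∃ n, E n w ∧ ∀ m g, E n m → Maps E s m g → E g V

end Pool.Agent.Lib.MP_23bd8d_gt
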