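import Mathlib

/-! Ground model combinatorics: the delta system lemma and amalgamation of finite conditions. -/

namespace Pool.Agent.Lib.MP_23bd8d_gt

open Set

universe u v w

theorem pigeon {ι : Type u} {T : Type v} [Countable T] {J : Set ι} (hJ : ¬ J.Countable)
    (g : ι → T) : ∃ t, ¬ {i | i ∈ J ∧ g i = t}.Countable := by
  by_contra hn
  push Not at hn
  refine hJ ((countable_iUnion hn).mono fun i hi => ?_)
  exact mem_iUnion.mpr ⟨g i, hi, rfl⟩

theorem delta_aux {ι : Type u} {α : Type v} (n : ℕ) : ∀ (J : Set ι), ¬ J.Countable →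
    ∀ S : ι → Finset α, (∀ i ∈ J, (S i).card ≤ n) → ∃ J' ⊆ J, ¬ J'.Countable ∧ ∃ ρ : Finset α,
      ∀ i ∈ J', ∀ j ∈ J', i ≠ j → ∀ x ∈ S i, x ∈ S j → x ∈ ρ := by
  classical
  induction n with
  | zero =>
    intro J hJ S hS
    refine ⟨J, le_rfl, hJ, ∅, fun i hi j _ _ x hx _ => ?_⟩
    rw [Finset.card_eq_zero.mp (Nat.le_zero.mp (hS i hi))] at hx
    exact hx
  | succ n ih =>
    intro J hJ S hS
    by_cases h : ∃ x, ¬ {i | i ∈ J ∧ x ∈ S i}.Countable
    · obtain ⟨x, hx⟩ := h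
      obtain ⟨J', h1, h2, ρ, h3⟩ := ih _ hx (fun i => (S i).erase x) fun i hi => by
        rw [Finset.card_erase_of_mem hi.2]
        have := hS i hi.1
        omega
      refine ⟨J', fun i hi => (h1 hi).1, h2, insert x ρ, fun i hi j hj hij z hz hz' => ?_⟩
      by_cases e : z = x
      · exact e ▸ Finset.mem_insert_self _ _
      · exact Finset.mem_insert_of_mem (h3 i hi j hj hij z (Finset.mem_erase.mpr ⟨e, hz⟩)
          (Finset.mem_erase.mpr ⟨e, hz'⟩))
    · push Not at h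
      obtain ⟨T, hT⟩ : ∃ T, Maximal (· ∈ {T : Set ι | T ⊆ J ∧
          ∀ i ∈ T, ∀ j ∈ T, i ≠ j → ∀ x ∈ S i, x ∉ S j}) T := by
        apply zorn_subset
        intro C hC hch
        refine ⟨⋃₀ C, ⟨?_, ?_⟩, fun s hs => subset_sUnion_of_mem hs⟩
        · exact sUnion_subset fun t ht => (hC ht).1
        · rintro a ⟨t, ht, ha⟩ b ⟨t', ht', hb⟩ hab
          rcases hch.total ht ht' with h | h
          · exact (hC ht').2 a (h ha) b hb hab
          · exact (hC ht).2 a ha b (h hb) hab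
      refine ⟨T, hT.prop.1, fun hc => hJ ?_, ∅, fun i hi j hj hij x hx hx' =>
        absurd hx' (hT.prop.2 i hi j hj hij x hx)⟩
      have h1 : (⋃ j ∈ T, ⋃ x ∈ (S j : Set α), {i | i ∈ J ∧ x ∈ S i}).Countable :=
        hc.biUnion fun j _ => (S j).countable_toSet.biUnion fun x _ => h x
      refine (hc.union h1).mono fun i hi => ?_
      by_contra hn
      rw [mem_union, not_or] at hn
      have h2 : ∀ j ∈ T, ∀ x ∈ S j, x ∉ S i := fun j hj x hx hx' =>
        hn.2 (mem_biUnion hj (mem_biUnion (Finset.mem_coe.mpr hx) ⟨hi, hx'⟩))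
      refine hn.1 (hT.le_of_ge (y := insert i T) ⟨insert_subset hi hT.prop.1, ?_⟩
        (subset_insert _ _) (mem_insert _ _))
      rintro a (rfl | ha) b (rfl | hb) hab x hx hx'
      · exact hab rfl
      · exact h2 b hb x hx' hx
      · exact h2 a ha x hx hx'
      · exact hT.prop.2 a ha b hb hab x hx hx'

theorem delta {ι : Type u} {α : Type v} {J : Set ι} (hJ : ¬ J.Countable) (S : ι → Finset α) :
    ∃ J' ⊆ J, ¬ J'.Countable ∧ ∃ ρ : Finset α,
      ∀ i ∈ J', ∀ j ∈ J', i ≠ j → ∀ x ∈ S i, x ∈ S j → x ∈ ρ := by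
  obtain ⟨n, hn⟩ := pigeon hJ fun i => (S i).card
  obtain ⟨J', h1, h2⟩ := delta_aux n _ hn S fun i hi => hi.2.le
  exact ⟨J', fun i hi => (h1 hi).1, h2⟩

/-- finite partial functions -/
structure Cond (W : Type u) : Type u where
  f : W × W → Option Bool
  fin : {z | f z ≠ none}.Finite

variable {W : Type u}

instance : Preorder (Cond W) where
  le p q := ∀ z v, q.f z = some v → p.f z = some v
  le_refl _ _ _ h := h
  le_trans _ _ _ h1 h2 z v h := h1 z v (h2 z v h)

theorem Cond.le_def {p q : Cond W} : p ≤ q ↔ ∀ z v, q.f z = some v → p.f z = some v := Iff.rfl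

def Cond.top : Cond W := ⟨fun _ => none, by simp⟩

theorem Cond.exists_supp (p : Cond W) :
    ∃ S : Finset W, ∀ a b v, p.f (a, b) = some v → a ∈ S ∧ b ∈ S := by
  classical
  refine ⟨p.fin.toFinset.image Prod.fst ∪ p.fin.toFinset.image Prod.snd, fun a b v h => ?_⟩
  have : (a, b) ∈ p.fin.toFinset := by simp [h]
  exact ⟨Finset.mem_union_left _ (Finset.mem_image_of_mem _ this),
    Finset.mem_union_right _ (Finset.mem_image_of_mem _ this)⟩

def Cond.or (p q : Cond W) : Cond W :=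
  ⟨fun z => (p.f z).or (q.f z), (p.fin.union q.fin).subset fun z hz => by
    by_contra hn
    simp only [mem_union, mem_ofPred_eq, not_or, not_not] at hn
    exact hz (by simp [hn.1, hn.2])⟩

theorem Cond.or_le_left (p q : Cond W) : p.or q ≤ p := fun z v h => by simp [Cond.or, h]

theorem Cond.or_of_none {p q : Cond W} {z : W × W} (h : p.f z = none) : (p.or q).f z = q.f z := by
  simp [Cond.or, h]

theorem Cond.exists_set (p : Cond W) (z : W × W) (v : Bool) (h : p.f z ≠ some (!v)) :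
    ∃ q ≤ p, q.f z = some v := by
  classical
  refine ⟨p.or ⟨fun z' => if z' = z then some v else none, (finite_singleton z).subset ?_⟩,
    Cond.or_le_left _ _, ?_⟩
  · intro z' hz'
    by_contra hn
    exact hz' (if_neg hn)
  · cases e : p.f z with
    | none => rw [Cond.or_of_none e]; simp
    | some v' =>
      have : v' = v := by
        cases v <;> cases v' <;> simp_all
      exact this ▸ Cond.or_le_left _ _ z _ e

variable [LinearOrder W]

def Cond.In (p : Cond W) (a b : W) : Prop := a = b ∨ (a < b ∧ p.f (a, b) = some true)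

def Cond.Out (p : Cond W) (a b : W) : Prop := b < a ∨ (a < b ∧ p.f (a, b) = some false)

def Cond.InN (p : Cond W) (a : W) (s t : Finset W) : Prop :=
  (∀ b ∈ s, p.In a b) ∧ ∀ b ∈ t, p.Out a b

theorem Cond.In.le {p : Cond W} {a b : W} (h : p.In a b) : a ≤ b :=
  h.elim Eq.le fun h => h.1.le

theorem Cond.In.not_out {p : Cond W} {a b : W} (h : p.In a b) : ¬ p.Out a b := by
  rintro (h' | h')
  · exact h'.not_ge h.le
  · rcases h with h | h
    · exact h'.1.ne h
    · have := h.2.symm.trans h'.2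
      simp at this

theorem Cond.InN.mono {p q : Cond W} {a : W} {s t : Finset W} (h : p.InN a s t) (hq : q ≤ p) :
    q.InN a s t :=
  ⟨fun b hb => (h.1 b hb).imp id fun h => ⟨h.1, hq _ _ h.2⟩,
    fun b hb => (h.2 b hb).imp id fun h => ⟨h.1, hq _ _ h.2⟩⟩

theorem amalg (hW : ∀ a : W, (Iic a).Countable) {ι : Type w} [Finite ι] {J : Set W}
    (hJ : ¬ J.Countable) (p : W → Cond W) (x y : W → ι → W) (s t : W → ι → Finset W) (β : W → W)
    (h1 : ∀ α ∈ J, ∀ i, (p α).InN (y α i) (s α i) (t α i))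
    (h2 : ∀ α ∈ J, ∀ i j, x α i = x α j → y α i = y α j)
    (h3 : ∀ α ∈ J, ∀ i, x α i = y α i ∨ (α ≤ x α i ∧ α ≤ y α i)) :
    ∃ ξ ∈ J, ∃ η ∈ J, β ξ < η ∧ ∃ r, r ≤ p ξ ∧ r ≤ p η ∧
      ∀ i, r.InN (x ξ i) (s η i) (t η i) := by
  classical
  have := Fintype.ofFinite ι
  choose sp hsp using fun α => (p α).exists_supp
  let S : W → Finset W := fun α => sp α ∪ Finset.univ.biUnion fun i => insert (x α i) (t α i)
  have hS1 : ∀ α a b v, (p α).f (a, b) = some v → a ∈ S α ∧ b ∈ S α := fun α a b v h =>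
    ⟨Finset.mem_union_left _ (hsp α a b v h).1, Finset.mem_union_left _ (hsp α a b v h).2⟩
  have hS2 : ∀ α i, x α i ∈ S α := fun α i => Finset.mem_union_right _
    (Finset.mem_biUnion.mpr ⟨i, Finset.mem_univ _, Finset.mem_insert_self _ _⟩)
  have hS3 : ∀ α i, ∀ b ∈ t α i, b ∈ S α := fun α i b hb => Finset.mem_union_right _
    (Finset.mem_biUnion.mpr ⟨i, Finset.mem_univ _, Finset.mem_insert_of_mem hb⟩)
  obtain ⟨J₁, hJ₁, hJ₁', ρ, hρ⟩ := delta hJ S
  let g : W → (ρ × ρ → Option Bool) × (ι → Option ρ) × (ι → ι → Bool) := fun α =>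
    (fun z : ρ × ρ => (p α).f (z.1, z.2), fun i => if h : x α i ∈ ρ then some ⟨_, h⟩ else none,
      fun i j => decide (x α i = x α j))
  obtain ⟨lab, hJ₂⟩ := pigeon hJ₁' g
  have far : ∀ γ : W, ∃ η, (η ∈ J₁ ∧ g η = lab) ∧ γ < η ∧ ∀ z ∈ S η, z ∉ ρ → γ < z := by
    intro γ
    by_contra hn
    push Not at hn
    refine hJ₂ (((hW γ).union ((hW γ).biUnion (t := fun z _ => {η | η ∈ J₁ ∧ z ∈ S η ∧ z ∉ ρ})
      fun z _ => Set.Subsingleton.countable fun a ha b hb => ?_)).mono fun η hη => ?_)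
    · by_contra hab
      exact ha.2.2 (hρ a ha.1 b hb.1 hab z ha.2.1 hb.2.1)
    · by_cases e : η ≤ γ
      · exact Or.inl e
      · obtain ⟨z, a1, a2, a3⟩ := hn η hη (not_le.mp e)
        exact Or.inr (mem_biUnion (show z ∈ Iic γ from a3) ⟨hη.1, a1, a2⟩)
  have : Nonempty W := by
    by_contra hn
    rw [not_nonempty_iff] at hn
    exact hJ (to_countable _)
  obtain ⟨γ₀, hγ₀⟩ := ρ.exists_le
  obtain ⟨ξ, ⟨hξ, lξ⟩, -, hξ'⟩ := far γ₀
  obtain ⟨γ₁, hγ₁⟩ := (insert γ₀ (insert ξ (insert (β ξ) (S ξ)))).exists_le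
  have g0 : γ₀ ≤ γ₁ := hγ₁ _ (by simp)
  have g1 : ξ ≤ γ₁ := hγ₁ _ (by simp)
  have g2 : β ξ ≤ γ₁ := hγ₁ _ (by simp)
  have g3 : ∀ z ∈ S ξ, z ≤ γ₁ := fun z hz => hγ₁ _ (by simp [hz])
  obtain ⟨η, ⟨hη, lη⟩, hη1, hη'⟩ := far γ₁
  have hne : ξ ≠ η := (g1.trans_lt hη1).ne
  have hl := lξ.trans lη.symm
  simp only [g, Prod.mk.injEq] at hl
  obtain ⟨l1, l2, l3⟩ := hl
  let e : Cond W := ⟨fun z => if ∃ i, z.1 = x ξ i ∧ z.2 ∈ s η i then some true else
    if ∃ i, z.1 = x ξ i ∧ z.2 ∈ t η i then some false else none, by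
      refine (finite_iUnion fun i => (finite_singleton (x ξ i)).prod
        (s η i ∪ t η i).finite_toSet).subset fun z hz => ?_
      by_contra hn
      simp only [mem_iUnion, mem_prod, mem_singleton_iff, Finset.coe_union, mem_union,
        Finset.mem_coe, not_exists, not_and, not_or] at hn
      refine hz ?_
      show ite _ _ _ = _
      rw [if_neg fun ⟨i, a1, a2⟩ => (hn i a1).1 a2, if_neg fun ⟨i, a1, a2⟩ => (hn i a1).2 a2]⟩
  have hr : (p ξ).or ((p η).or e) ≤ p η := by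
    rintro ⟨a, b⟩ v h
    cases e' : (p ξ).f (a, b) with
    | none => rw [Cond.or_of_none e']; exact Cond.or_le_left _ _ _ _ h
    | some v' =>
      have ha := hρ ξ hξ η hη hne a (hS1 _ _ _ _ e').1 (hS1 _ _ _ _ h).1
      have hb := hρ ξ hξ η hη hne b (hS1 _ _ _ _ e').2 (hS1 _ _ _ _ h).2
      have := congrFun l1 (⟨a, ha⟩, ⟨b, hb⟩)
      simp only at this
      rw [← this] at h
      exact Cond.or_le_left _ _ _ _ h
  refine ⟨ξ, hJ₁ hξ, η, hJ₁ hη, g2.trans_lt hη1, _, Cond.or_le_left _ _, hr, fun i => ?_⟩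
  have l2i := congrFun l2 i
  by_cases hx : x ξ i ∈ ρ
  · by_cases hx' : x η i ∈ ρ
    · simp only [hx, hx', dif_pos, Option.some.injEq, Subtype.mk.injEq] at l2i
      rcases h3 η (hJ₁ hη) i with h | h
      · rw [l2i, h]
        exact (h1 η (hJ₁ hη) i).mono hr
      · exact absurd (((hγ₀ _ hx').trans g0).trans_lt hη1) h.1.not_gt
    · simp [hx, hx'] at l2i
  · have hx' : x η i ∉ ρ := fun hx' => by simp [hx, hx'] at l2i
    have hy : γ₁ < y η i := by
      rcases h3 η (hJ₁ hη) i with h | h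
      · exact h ▸ hη' _ (hS2 η i) hx'
      · exact hη1.trans_le h.2
    have key : ∀ b, γ₁ < b → x ξ i < b ∧ ((p ξ).or ((p η).or e)).f (x ξ i, b) = e.f (x ξ i, b) := by
      intro b hb
      refine ⟨(g3 _ (hS2 ξ i)).trans_lt hb, ?_⟩
      rw [Cond.or_of_none, Cond.or_of_none]
      · cases e' : (p η).f (x ξ i, b) with
        | none => rfl
        | some v => exact absurd (hρ ξ hξ η hη hne _ (hS2 ξ i) (hS1 _ _ _ _ e').1) hx
      · cases e' : (p ξ).f (x ξ i, b) with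
        | none => rfl
        | some v => exact absurd (g3 _ (hS1 _ _ _ _ e').2) hb.not_ge
    refine ⟨fun b hb => ?_, fun b hb => ?_⟩
    · obtain ⟨k1, k2⟩ := key b (hy.trans_le ((h1 η (hJ₁ hη) i).1 b hb).le)
      exact Or.inr ⟨k1, k2.trans (if_pos ⟨i, rfl, hb⟩)⟩
    · by_cases hb' : b ∈ ρ
      · exact Or.inl ((hγ₀ b hb').trans_lt (hξ' _ (hS2 ξ i) hx))
      · obtain ⟨k1, k2⟩ := key b (hη' b (hS3 η i b hb) hb')
        refine Or.inr ⟨k1, k2.trans ((if_neg ?_).trans (if_pos ⟨i, rfl, hb⟩))⟩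
        rintro ⟨j, a1, a2⟩
        have l3ij := congrFun (congrFun l3 i) j
        simp only [decide_eq_decide] at l3ij
        have := h2 η (hJ₁ hη) i j (l3ij.mp a1)
        exact ((h1 η (hJ₁ hη) j).1 b a2).not_out (this ▸ (h1 η (hJ₁ hη) i).2 b hb)

end Pool.Agent.Lib.MP_23bd8d_gt
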