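import Pool.Agent.Lib.MP_23bd8d_gt.Const

/-! Closures of discrete sets are Frechet-Urysohn, the whole function space is not. -/

namespace Pool.Agent.Lib.MP_23bd8d_gt

open Pool.Agent.Shared.Forcing Cardinal Set

universe u v

set_option synthInstance.maxSize 4000

variable {l : Cardinal.{u}} [hl : Fact l.IsInaccessible]

theorem tail_mem {s : Finset (WW l)} {α : WW l} (hs : ∀ b ∈ s, b < α) (U : Ultra (BB l))
    (x : Md l U) (hx : El l U x (XX U)) (hx' : ¬ El l U x (pt U α)) :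
    El l U x (sm U (nN ∅ s)) := by
  obtain ⟨x, rfl⟩ := cls_surj x
  revert hx'
  refine wlog_X x U hx ?_
  intro U a e h
  rw [e, el_pt, not_lt] at h
  rw [e, el_nN, nb_mem]
  exact ⟨by simp, fun b hb h' => ((hs b hb).trans_le h).not_ge (le_of_ub h')⟩

theorem exists_gt_finset (s : Finset (WW l)) : ∃ α, ∀ b ∈ s, b < α := by
  obtain ⟨γ, hγ⟩ := s.exists_le
  obtain ⟨α, hα⟩ : ∃ α, γ < α := by
    by_contra hn
    push Not at hn
    exact WW_unc ((WW_Iic γ).mono fun a _ => hn a)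
  exact ⟨α, fun b hb => (hγ b hb).trans_lt hα⟩

theorem exists_idx : ∃ idx : NN l → ℕ, ∀ k, ∃ n : NN l, ∀ m : NN l, n < m → k ≤ idx m := by
  refine ⟨fun m => toNat (cd m.1), fun k => ?_⟩
  have hk : (k : Cardinal.{u}) < l := (natCast_lt_aleph0 (n := k)).trans aleph0_lt_l
  refine ⟨⟨oc l k, (oc_lt_oc hk aleph0_lt_l).mpr natCast_lt_aleph0⟩, fun m hm => ?_⟩
  have h1 : (k : Cardinal.{u}) ≤ cd m.1 := (oc_le hk).mp (le_of_lt hm)
  have h2 := toNat_le_toNat h1 ((lt_oc aleph0_lt_l).mp m.2)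
  simpa using h2

namespace Dat

variable {D : Dat l} {S : SName (BB l) l}

theorem not_fu (hS : ∀ U, Gen (El l U) (sm U D.C) (sm U D.boxes) (sm U S)) (U : Ultra (BB l)) :
    ¬ FU (El l U) (ck U (oc l ℵ₀)) (sm U S) (sm U D.C) := by
  classical
  intro hFU
  obtain ⟨r0, h0⟩ := (D.real U).2.2.2.1
  obtain ⟨r1, h1, h01⟩ := ((D.real U).2.2.2.2.1 r0 h0).2
  obtain ⟨r2, h2, h12⟩ := ((D.real U).2.2.2.2.1 r1 h1).2
  obtain ⟨o, o1, o2, -⟩ := exists_step D.hT U ∅ ∅ _ (sm U D.L) r1 r1 h1 h1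
  rw [← D.hC] at o1
  replace o2 : ∀ x, El l U x (XX U) → Maps (El l U) o x r1 := fun x hx => by
    by_cases h : El l U x (sm U (nN ∅ ∅))
    · exact o2 x h
    · refine absurd ?_ h
      obtain ⟨x, rfl⟩ := cls_surj x
      refine wlog_X x U hx ?_
      intro U a e
      rw [e, el_nN, nb_mem]
      simp
  obtain ⟨r0, rfl⟩ := cls_surj r0
  obtain ⟨r1, rfl⟩ := cls_surj r1
  obtain ⟨r2, rfl⟩ := cls_surj r2
  obtain ⟨o, rfl⟩ := cls_surj o
  obtain ⟨A, hA⟩ := md_sep (fun U f => ∃ α, El l U α (XX U) ∧ ∀ x, El l U x (XX U) →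
    ¬ El l U x α → Maps (El l U) f x (cls U r0)) U (sm U D.C)
  obtain ⟨σ, s1, s2⟩ := hFU A _ (fun f hf => ((hA f).1 hf).1) o1 (by
    intro V hV hoV
    obtain ⟨N, a1, a2, a3⟩ := ((hS U V).1 hV).2 _ hoV
    suffices h : ∃ g, (El l U g (sm U D.C) ∧ ∃ α, El l U α (XX U) ∧ ∀ x, El l U x (XX U) →
        ¬ El l U x α → Maps (El l U) g x (cls U r0)) ∧ El l U g N by
      obtain ⟨g, g1, g2⟩ := h
      exact ⟨g, (hA g).2 g1, a3 g g2⟩
    obtain ⟨N, rfl⟩ := cls_surj N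
    have H := And.intro a2 (And.intro h0 (And.intro h1 o2))
    revert H
    refine D.wlog_box N U a1 ?_
    rintro U L e ⟨a2, h0, h1, o2⟩
    rw [e] at a2 ⊢
    obtain ⟨α, hα⟩ := exists_gt_finset (L.map Prod.fst).toFinset
    obtain ⟨g, g1, g2, g3⟩ := exists_step D.hT U ∅ (L.map Prod.fst).toFinset _ (sm U D.L) _ _ h0 h1
    rw [← D.hC] at g1
    refine ⟨g, ⟨g1, _, pt_mem U α, fun x hx hx' => g2 x (tail_mem hα U x hx hx')⟩,
      D.el_box.mpr ⟨g1, fun t ht => ?_⟩⟩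
    obtain ⟨b1, b2⟩ := D.el_box.mp a2
    obtain ⟨y, y1, y2⟩ := b2 t ht
    rw [(fn b1).uniq y1 (o2 _ (pt_mem U _))] at y2
    refine ⟨_, g3 _ (pt_mem U _) fun h => ?_, y2⟩
    exact (nb_mem.mp (el_nN.mp h)).2 t.1 (List.mem_toFinset.mpr (List.mem_map_of_mem ht))
      (ub_self U _))
  obtain ⟨σ, rfl⟩ := cls_surj σ
  obtain ⟨A, rfl⟩ := cls_surj A
  have key : ∀ γ : WW l, ∃ (p : Cond (WW l)) (n : NN l) (α : WW l), ∀ U : Ultra (BB l),
      RO.io p ∈ U → El l U (cls U r0) (sm U D.R) ∧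
        IsFn (El l U) (cls U σ) (ck U (oc l ℵ₀)) (cls U A) ∧ ∃ g,
        Maps (El l U) (cls U σ) (ck U n.1) g ∧ El l U g (sm U D.C) ∧
        Btw (El l U) (sm U D.L) g (pt U γ) (cls U r0) (cls U r2) ∧
        ∀ x, El l U x (XX U) → ¬ El l U x (pt U α) → Maps (El l U) g x (cls U r0) := by
    intro γ
    obtain ⟨V, hV⟩ := md_sep (fun U f => Btw (El l U) (sm U D.L) f (pt U γ) (cls U r0) (cls U r2))
      U (sm U D.C)
    obtain ⟨n, n1, n2⟩ := s2 V (hasSub_S hS U _ _ _ V (pt_mem U γ) h0 h2 hV)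
      ((hV _).2 ⟨o1, _, o2 _ (pt_mem U γ), h01, h12⟩)
    obtain ⟨m, m1, m2⟩ := (isOmega_ck U).1.2 n n1
    obtain ⟨g, g1, g2⟩ := s1.total m1
    obtain ⟨g3, α, g4, g5⟩ := (hA g).1 g1
    have g6 := ((hV g).1 (n2 m g ((m2 n).2 (Or.inr rfl)) g2)).2
    obtain ⟨m, rfl⟩ := cls_surj m
    obtain ⟨g, rfl⟩ := cls_surj g
    obtain ⟨α, rfl⟩ := cls_surj α
    have H := And.intro g4 (And.intro h0 (And.intro s1 (And.intro g2 (And.intro g3
      (And.intro g6 g5)))))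
    revert H
    refine wlog_ck m _ U m1 ?_
    intro U n hn e H
    rw [e] at H
    obtain ⟨g4, H⟩ := H
    revert H
    refine wlog_X α U g4 ?_
    intro U a e H
    rw [e] at H
    obtain ⟨p, hp⟩ := exists_cond (fun U => El l U (cls U r0) (sm U D.R) ∧
        IsFn (El l U) (cls U σ) (ck U (oc l ℵ₀)) (cls U A) ∧ ∃ g,
        Maps (El l U) (cls U σ) (ck U n) g ∧ El l U g (sm U D.C) ∧
        Btw (El l U) (sm U D.L) g (pt U γ) (cls U r0) (cls U r2) ∧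
        ∀ x, El l U x (XX U) → ¬ El l U x (pt U a) → Maps (El l U) g x (cls U r0)) (U := U)
      ⟨H.1, H.2.1, _, H.2.2⟩
    exact ⟨p, ⟨n, hn⟩, a, hp⟩
  choose p n α h using key
  obtain ⟨n₀, hJ⟩ := pigeon WW_unc n
  obtain ⟨ξ, hξ, η, hη, hβ, r, r1, r2, -⟩ := amalg WW_Iic (ι := Empty) hJ p
    (fun _ => Empty.elim) (fun _ => Empty.elim) (fun _ => Empty.elim) (fun _ => Empty.elim) α
    (fun _ _ i => i.elim) (fun _ _ i => i.elim) fun _ _ i => i.elim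
  obtain ⟨U, hU⟩ := exists_ultra r
  obtain ⟨a1, a2, g, a3, a4, -, a5⟩ := h ξ U (Ultra.mono hU (RO.io_mono r1))
  obtain ⟨-, -, g', b3, -, ⟨y, b4, b5, -⟩, -⟩ := h η U (Ultra.mono hU (RO.io_mono r2))
  rw [hξ.2] at a3
  rw [hη.2] at b3
  rw [← a2.uniq a3 b3] at b4
  rw [(fn a4).uniq b4 (a5 _ (pt_mem U η) (by rw [el_pt]; exact hβ.not_gt))] at b5
  exact (D.real U).1 _ a1 b5

theorem const_of_inCl (hS : ∀ U, Gen (El l U) (sm U D.C) (sm U D.boxes) (sm U S))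
    {U : Ultra (BB l)} {A f α : Md l U} (hA : Sub (El l U) A (sm U D.C))
    (h : ∀ g, El l U g A → Const (El l U) g α) (hf : El l U f (sm U D.C))
    (hcl : InCl (El l U) (sm U S) f A) : Const (El l U) f α := by
  have key : ∀ x x' y y', ¬ El l U x α → ¬ El l U x' α → Maps (El l U) f x y →
      Maps (El l U) f x' y' → ¬ Maps (El l U) (sm U D.L) y y' := by
    intro x x' y y' h1 h2 h3 h4 h5
    obtain ⟨hx, hy⟩ := (fn hf).mem h3
    obtain ⟨hx', hy'⟩ := (fn hf).mem h4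
    obtain ⟨Q, hQ, -, hQ'⟩ := (D.real U).2.2.2.2.2.1
    obtain ⟨r, r1, r2, r3⟩ := hQ' y y' hy hy' h5
    replace r1 := hQ r r1
    obtain ⟨a, a1, a2⟩ := ((D.real U).2.2.2.2.1 y hy).1
    obtain ⟨b, b1, b2⟩ := ((D.real U).2.2.2.2.1 y' hy').2
    obtain ⟨x, rfl⟩ := cls_surj x
    obtain ⟨x', rfl⟩ := cls_surj x'
    obtain ⟨r, rfl⟩ := cls_surj r
    obtain ⟨a, rfl⟩ := cls_surj a
    obtain ⟨b, rfl⟩ := cls_surj b
    obtain ⟨V, hV⟩ := md_sep (fun U g => Btw (El l U) (sm U D.L) g (cls U x) (cls U a) (cls U r))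
      U (sm U D.C)
    obtain ⟨V', hV'⟩ := md_sep
      (fun U g => Btw (El l U) (sm U D.L) g (cls U x') (cls U r) (cls U b)) U (sm U D.C)
    obtain ⟨V', rfl⟩ := cls_surj V'
    obtain ⟨Z, hZ⟩ := md_sep (fun U g => El l U g (cls U V')) U V
    obtain ⟨g, g1, g2⟩ := hcl Z ((isTop_S hS U).2.2.1 V _ Z (hasSub_S hS U _ _ _ V hx a1 r1 hV)
      (hasSub_S hS U _ _ _ _ hx' r1 b1 hV') hZ)
      ((hZ f).2 ⟨(hV f).2 ⟨hf, y, h3, a2, r2⟩, (hV' f).2 ⟨hf, y', h4, r3, b2⟩⟩)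
    obtain ⟨-, z, z1, -, z2⟩ := (hV g).1 ((hZ g).1 g2).1
    obtain ⟨-, z', z3, z4, -⟩ := (hV' g).1 ((hZ g).1 g2).2
    rw [← h g g1 _ _ _ _ h1 h2 z1 z3] at z4
    have hz := ((fn (hA g g1)).mem z1).2
    exact (D.real U).1 z hz (trans hz r1 hz z2 z4)
  intro x x' y y' h1 h2 h3 h4
  rcases (D.real U).2.2.1 y y' ((fn hf).mem h3).2 ((fn hf).mem h4).2 with h | h | h
  · exact absurd h (key _ _ _ _ h1 h2 h3 h4)
  · exact h
  · exact absurd h (key _ _ _ _ h2 h1 h4 h3)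

theorem in_min {U : Ultra (BB l)} {f : Md l U} {α : WW l} (hf : El l U f (sm U D.C))
    (h : Const (El l U) f (pt U α)) (a : WW l) (n : NN l × NN l) :
    D.In U f (pt U a) n ↔ D.In U f (pt U (min a α)) n := by
  rcases le_total a α with e | e
  · rw [min_eq_left e]
  · rw [min_eq_right e]
    have h1 : ¬ El l U (pt U a) (pt U α) := by rw [el_pt]; exact e.not_gt
    have h2 : ¬ El l U (pt U α) (pt U α) := not_el_self U _
    obtain ⟨y, -, hy⟩ := (fn hf).total (pt_mem U a)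
    obtain ⟨y', -, hy'⟩ := (fn hf).total (pt_mem U α)
    constructor
    · rintro ⟨z, z1, z2⟩
      exact ⟨y', hy', h _ _ _ _ h1 h2 z1 hy' ▸ z2⟩
    · rintro ⟨z, z1, z2⟩
      exact ⟨y, hy, h _ _ _ _ h2 h1 z1 hy ▸ z2⟩

theorem fu_of_const (hS : ∀ U, Gen (El l U) (sm U D.C) (sm U D.boxes) (sm U S)) (α : WW l)
    (U : Ultra (BB l)) (Y : Md l U) (hY : Sub (El l U) Y (sm U D.C))
    (hc : ∀ f, El l U f Y → Const (El l U) f (pt U α)) :
    FU (El l U) (ck U (oc l ℵ₀)) (sm U S) Y := by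
  classical
  intro A f hA hf hcl
  obtain ⟨A, rfl⟩ := cls_surj A
  obtain ⟨F, rfl⟩ := cls_surj f
  obtain ⟨e, he⟩ : ∃ e : ℕ → Tr l, ∀ t : Tr l, t.1 ≤ α → ∃ j, e j = t := by
    have : (Iic α ×ˢ (Set.univ : Set (NN l × NN l))).Countable :=
      (WW_Iic α).prod countable_univ
    obtain ⟨e, he⟩ := this.exists_eq_range ⟨(α, Classical.arbitrary _), le_refl α, mem_univ _⟩
    exact ⟨e, fun t ht => (he ▸ (⟨ht, mem_univ _⟩ : t ∈ Iic α ×ˢ Set.univ) : t ∈ range e)⟩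
  obtain ⟨idx, hidx⟩ := exists_idx (l := l)
  have hg := fun k : ℕ => exists_switness BB_lt (fun U g => El l U g (cls U A) ∧
    ∀ t ∈ (List.range k).map e, D.In U (cls U F) (pt U t.1) t.2 → D.In U g (pt U t.1) t.2)
  choose g hg using hg
  let H : Ultra (BB l) → Prop := fun U => Sub (El l U) (cls U A) (sm U D.C) ∧
    (∀ g, El l U g (cls U A) → Const (El l U) g (pt U α)) ∧ El l U (cls U F) (sm U D.C) ∧
    Const (El l U) (cls U F) (pt U α) ∧ InCl (El l U) (sm U S) (cls U F) (cls U A)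
  have : Dec H := by unfold H; infer_instance
  have hH : H U := ⟨fun z hz => hY z (hA z hz), fun z hz => hc z (hA z hz), hY _ hf, hc _ hf, hcl⟩
  replace hg := fun k U (h : H U) => hg k U (by
    obtain ⟨z, z1, z2⟩ := h.2.2.2.2 _ (box_open hS U (((List.range k).map e).filter
      fun t => D.In U (cls U F) (pt U t.1) t.2)) (D.el_box.mpr ⟨h.2.2.1, fun t ht => by
        simpa using (List.mem_filter.mp ht).2⟩)
    exact ⟨z, z1, fun t ht h' => (D.el_box.mp z2).2 t (List.mem_filter.mpr ⟨ht, by simpa⟩)⟩)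
  have hN : #(NN l) < l := mk_NN.trans_lt aleph0_lt_l
  refine ⟨sm U (relName hN (fun n => chk (BB l) n.1) (fun n => g (idx n)) fun _ => ⊤),
    ⟨fun p hp => ?_, fun x hx => ?_⟩, fun V hV hfV => ?_⟩
  · obtain ⟨p, rfl⟩ := cls_surj p
    revert hH
    refine wlog_mk p hN _ _ U hp ?_
    intro U n _ e hH
    rw [e]
    exact ⟨_, _, el_ck_of_lt n.2, (hg _ U hH).1, isKPair_kpName U _ _⟩
  · obtain ⟨x, rfl⟩ := cls_surj x
    refine wlog_ck x _ U hx ?_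
    intro U n hn e
    rw [e]
    refine ⟨_, maps_relName hN (fun n => chk (BB l) n.1) (fun n => g (idx n)) _ ⟨n, hn⟩ U.top_mem,
      fun y hy => ?_⟩
    obtain ⟨y, rfl⟩ := cls_surj y
    refine wlog_rel _ y hN _ _ _ U hy ?_
    intro U m _ e1 e2
    rw [e2, Subtype.ext (ck_inj e1 : (⟨n, hn⟩ : NN l).1 = m.1)]
  · obtain ⟨N, a1, a2, a3⟩ := ((hS U V).1 hV).2 _ hfV
    obtain ⟨N, rfl⟩ := cls_surj N
    obtain ⟨V, rfl⟩ := cls_surj V
    have H' := And.intro hH (And.intro a2 a3)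
    revert H'
    refine D.wlog_box N U a1 ?_
    intro U L e1 H'
    rw [e1] at H'
    obtain ⟨k, hk⟩ : ∃ k, ∀ t ∈ L, ∀ k', k ≤ k' → (min t.1 α, t.2) ∈ (List.range k').map e := by
      clear e1 H'
      induction L with
      | nil => exact ⟨0, by simp⟩
      | cons t L ih =>
        obtain ⟨k, hk⟩ := ih
        obtain ⟨j, hj⟩ := he (min t.1 α, t.2) (min_le_right _ _)
        refine ⟨max k (j + 1), List.forall_mem_cons.mpr ⟨fun k' h => ?_,
          fun t ht k' h => hk t ht k' ((le_max_left _ _).trans h)⟩⟩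
        exact List.mem_map.mpr ⟨j, List.mem_range.mpr ((le_max_right _ _).trans h), hj⟩
    obtain ⟨n, hn⟩ := hidx k
    refine ⟨_, el_ck_of_lt n.2, fun m z hm hz => ?_⟩
    obtain ⟨m, rfl⟩ := cls_surj m
    obtain ⟨z, rfl⟩ := cls_surj z
    have H'' := And.intro hm H'
    revert H''
    refine wlog_rel m z hN _ _ _ U hz ?_
    rintro U j - e1 e2 ⟨hm, hH, a2, a3⟩
    rw [e1] at hm
    rw [e2]
    obtain ⟨g1, g2⟩ := hg (idx j) U hH
    refine a3 _ (D.el_box.mpr ⟨hH.1 _ g1, fun t ht => ?_⟩)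
    exact (in_min (hH.1 _ g1) (hH.2.1 _ g1) _ _).2 (g2 _ (hk t ht _ (hn j (el_ck.mp hm)))
      ((in_min hH.2.2.1 hH.2.2.2.1 _ _).1 ((D.el_box.mp a2).2 t ht)))

end Dat

theorem model_of_inacc (l : Cardinal.{u}) [Fact l.IsInaccessible] :
    ∃ (M : Type (u + 1)) (E : M → M → Prop), ModelZFC E ∧ ∃ w R L X T C S : M,
      IsOmega E w ∧ IsReal E w R L ∧ IsTop E X T ∧ Tych E X T R L ∧ IsCp E X T R L C S ∧
      (∀ D Y, Sub E D C → Disc E S D → (∀ f, E f Y ↔ E f C ∧ InCl E S f D) → FU E w S Y) ∧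
      ¬ FU E w S C := by
  obtain ⟨D⟩ := exists_dat (l := l)
  obtain ⟨S, hS⟩ := exists_gen BB_lt D.C D.boxes
  obtain ⟨U, -⟩ := exists_ultra (l := l) Cond.top
  refine ⟨Md l U, El l U, md_modelZFC (tame_of_small BB_lt) U, _, _, _, _, _, _, _, isOmega_ck U,
    D.real U, isTop_T D.hT U, tych D.hT D.toRealData U, Dat.isCp hS U, fun A Y h1 h2 h3 => ?_,
    Dat.not_fu hS U⟩
  obtain ⟨A, rfl⟩ := cls_surj A
  obtain ⟨α, hα⟩ := Dat.disc_const hS A U h1 h2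
  exact Dat.fu_of_const hS α U Y (fun f hf => ((h3 f).1 hf).1) fun f hf =>
    Dat.const_of_inCl hS h1 hα ((h3 f).1 hf).1 ((h3 f).1 hf).2

end Pool.Agent.Lib.MP_23bd8d_gt
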