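import Pool.Agent.Lib.MP_23bd8d_gt.Strong

/-! Countable unions of images of finite powers of a space with Frechet-Urysohn function space. -/

set_option autoImplicit false

open Set Filter Topology Cardinal TopologicalSpace

namespace Pool.Agent.Lib.MP_23bd8d_gt

theorem tube_fin {K : Type} [TopologicalSpace K] {n : ℕ} {F : Set K} (hF : F.Finite)
    {O : Set (Fin n → K)} (hO : ∀ w, (∀ i, w i ∈ F) → O ∈ 𝓝 w) :
    ∃ V ∈ 𝓝ˢ F, ∀ v : Fin n → K, (∀ i, v i ∈ V) → v ∈ O := by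
  have h1 : ∀ w : Fin n → F, ∃ t : Fin n → Set K, (∀ i, t i ∈ 𝓝 (w i : K)) ∧ univ.pi t ⊆ O := by
    intro w
    have h := hO (fun i => w i) fun i => (w i).2
    rw [nhds_pi] at h
    obtain ⟨I, -, t, ht, h⟩ := mem_pi.1 h
    exact ⟨t, ht, fun v hv => h fun i _ => hv i trivial⟩
  choose t ht h using h1
  have := hF.to_subtype
  let U : F → Set K := fun x => ⋂ w : Fin n → F, ⋂ i, ⋂ (_ : w i = x), t w i
  have hU : ∀ x : F, U x ∈ 𝓝 (x : K) := fun x =>
    iInter_mem.2 fun w => iInter_mem.2 fun i => iInter_mem.2 fun e => e ▸ ht w i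
  refine ⟨⋃ x, U x, mem_nhdsSet_iff_forall.2 fun x hx =>
    mem_of_superset (hU ⟨x, hx⟩) (subset_iUnion _ _), fun v hv => ?_⟩
  choose w hw using fun i => mem_iUnion.1 (hv i)
  exact h w fun i _ => mem_iInter.1 (mem_iInter.1 (mem_iInter.1 (hw i) w) i) rfl

theorem exists_sep_fin {K : Type} [TopologicalSpace K] [T35Space K] {F V : Set K} (hF : F.Finite)
    (hV : V ∈ 𝓝ˢ F) : ∃ u : K → ℝ, Continuous u ∧ (∀ x ∈ F, u x = 0) ∧ ∀ x ∉ V, u x = 1 := by
  classical
  have h1 : ∀ x : F, ∃ u : K → ℝ, Continuous u ∧ u x = 0 ∧ ∀ y ∉ V, u y = 1 := fun x => by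
    obtain ⟨f, a, b, c⟩ := CompletelyRegularSpace.completely_regular (x : K) (interior V)ᶜ
      isOpen_interior.isClosed_compl (fun e => e (mem_interior_iff_mem_nhds.2
        (mem_nhdsSet_iff_forall.1 hV x x.2)))
    refine ⟨fun y => f y, continuous_subtype_val.comp a, by simp [b], fun y hy => ?_⟩
    have := c (show y ∈ (interior V)ᶜ from fun e => hy (interior_subset e))
    simp [this]
  choose u a b c using h1
  have := hF.fintype
  refine ⟨fun y => ∏ x : F, u x y, continuous_finsetProd _ fun x _ => a x, fun x hx =>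
    Finset.prod_eq_zero (Finset.mem_univ ⟨x, hx⟩) (b ⟨x, hx⟩), fun y hy =>
    Finset.prod_eq_one fun x _ => c x y hy⟩

theorem fu_of_pows {K Z : Type} [TopologicalSpace K] [TopologicalSpace Z] [T35Space K] [Nonempty K]
    (h : FrechetUrysohnSpace (CX K)) (r : ℕ → ℕ) (φ : ∀ k, (Fin (r k) → K) → Z)
    (hφ : ∀ k, Continuous (φ k)) (hc : ∀ z, ∃ k w, φ k w = z) : FrechetUrysohnSpace (CX Z) := by
  refine ⟨fun A g hg => ?_⟩
  let P : ℕ → Set K → CX Z → Prop := fun m V f => f ∈ A ∧ ∀ k ≤ m, ∀ w : Fin (r k) → K,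
    (∀ i, w i ∈ V) → |f.1 (φ k w) - g.1 (φ k w)| < 1 / ((m : ℝ) + 1)
  have h1 : ∀ (m : ℕ) (F : Set K), F.Finite → ∃ V ∈ 𝓝ˢ F, ∃ f, P m V f := fun m F hF => by
    have := hF.to_subtype
    have h0 : (0 : ℝ) < 1 / ((m : ℝ) + 1) := by positivity
    obtain ⟨f, a, b⟩ := mem_closure_iff_nhds.1 hg _ (eventually_all.2 fun k : Fin (m + 1) =>
      eventually_all.2 fun w : Fin (r k) → F =>
        ((continuous_ev (φ k fun i => w i)).tendsto g).eventually (Metric.ball_mem_nhds _ h0))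
    have h2 : ∀ k : Fin (m + 1), ∃ V ∈ 𝓝ˢ F, ∀ v : Fin (r k) → K, (∀ i, v i ∈ V) →
        v ∈ {w | |f.1 (φ k w) - g.1 (φ k w)| < 1 / ((m : ℝ) + 1)} := fun k =>
      tube_fin hF fun w hw => (isOpen_lt ((f.2.sub g.2).comp (hφ k)).abs continuous_const).mem_nhds
        (a k fun i => ⟨w i, hw i⟩)
    choose V c d using h2
    exact ⟨⋂ k, V k, iInter_mem.2 c, f, b, fun k hk w hw =>
      d ⟨k, Nat.lt_succ_of_le hk⟩ w fun i => mem_iInter.1 (hw i) _⟩
  let B : Set (CX K) := {u | ∃ m V f, P m V f ∧ (∀ x, 1 / ((m : ℝ) + 1) ≤ u.1 x) ∧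
    ∀ x ∉ V, 1 ≤ u.1 x}
  have h3 : (⟨fun _ => 0, continuous_const⟩ : CX K) ∈ closure B := by
    refine mem_closure_iff_nhds.2 fun U hU => ?_
    obtain ⟨F, N, hF, hN⟩ := nhds_fin hU
    obtain ⟨V, hV, f, hf⟩ := h1 N F hF
    obtain ⟨u, a, b, c⟩ := exists_sep_fin hF hV
    have h0 : (0 : ℝ) < 1 / ((N : ℝ) + 1) := by positivity
    refine ⟨⟨fun x => max (u x) (1 / ((N : ℝ) + 1)), a.max continuous_const⟩, hN _ fun x hx => ?_,
      N, V, f, hf, fun x => le_max_right _ _, fun x hx => (c x hx).ge.trans (le_max_left _ _)⟩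
    show |max (u x) (1 / ((N : ℝ) + 1)) - 0| < _
    rw [b x hx, max_eq_right h0.le, sub_zero, abs_of_pos h0]
    exact div_lt_div_of_pos_right (by norm_num) (by positivity)
  obtain ⟨u, hu, hu'⟩ := h.closure_subset_seqClosure _ h3
  choose m V f a b c using hu
  refine ⟨f, fun j => (a j).1, tendsto_iff.2 fun z => ?_⟩
  obtain ⟨k, w, rfl⟩ := hc z
  have h4 : ∀ x, Tendsto (fun j => (u j).1 x) atTop (𝓝 0) := tendsto_iff.1 hu'
  obtain ⟨x₀⟩ := ‹Nonempty K›
  refine Metric.tendsto_nhds.2 fun ε hε => ?_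
  filter_upwards [(h4 x₀).eventually (gt_mem_nhds hε),
    (h4 x₀).eventually (gt_mem_nhds (show (0 : ℝ) < 1 / ((k : ℝ) + 1) by positivity)),
    eventually_all.2 fun i => (h4 (w i)).eventually (gt_mem_nhds one_pos)] with j p q s
  have h5 : k ≤ m j := by
    have := (one_div_lt_one_div (by positivity) (by positivity)).1 ((b j x₀).trans_lt q)
    exact_mod_cast (lt_of_add_lt_add_right this).le
  exact ((a j).2 k h5 w fun i => not_not.1 fun e => (s i).not_ge (c j _ e)).trans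
    ((b j x₀).trans_lt p)

end Pool.Agent.Lib.MP_23bd8d_gt
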