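import Pool.Agent.Lib.MP_23bd8d_gt.Cover

/-! The two retired statements follow from the covering form. -/

open Set Filter Topology Cardinal Pool.Agent.Lib.MP_23bd8d_gt

namespace Pool.Agent.Lib.MP_23bd8d_gt.Impl

variable {X : Type} [TopologicalSpace X]

-- sigma-discrete families of regular uncountable size contain a discrete set of that size
theorem disc_of_sd {ι : Type} (h : SD X ι) {κ : Cardinal} (hr : κ.IsRegular) (h0 : ℵ₀ < κ)
    (hι : κ ≤ #ι) : ∃ D : Set (CX X), DiscreteTopology D ∧ κ ≤ #D := by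
  obtain ⟨c, d, h⟩ := h
  obtain ⟨m, hm⟩ := infinite_pigeonhole_card c κ hι h0.le (by rw [hr.cof_ord, mk_nat]; exact h0)
  refine ⟨d '' (c ⁻¹' {m}), (discrete_iff _).2 ?_, hm.trans (mk_image_eq_of_injOn _ _ ?_).ge⟩
  · rintro _ ⟨i, hi, rfl⟩
    obtain ⟨U, hU, hU'⟩ := mem_comap.1 (h i)
    refine ⟨U, hU, ?_⟩
    rintro _ ⟨j, hj, rfl⟩ a
    rw [hU' a (hj.trans hi.symm)]
  · intro i hi j hj e
    obtain ⟨U, hU, hU'⟩ := mem_comap.1 (h j)
    exact hU' (show d i ∈ U from e ▸ mem_of_mem_nhds hU) (hi.trans hj.symm)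

-- the old Spread statement from the new one
theorem old_spread [T35Space X] (H : HX X)
    (hS : ∀ κ : Cardinal, κ.IsRegular → ℵ₀ < κ → ∀ (n : ℕ) (x : κ.ord.ToType → Fin n → X),
      (∀ a, x a ∉ closure (x '' Ioi a)) →
      ∃ (m : ℕ) (D : Set (Fin m → X)), DiscreteTopology D ∧ κ ≤ #D) :
    FrechetUrysohnSpace (CX X) := by
  have h := fu_closure_of_cover H Set.univ fun κ _ hr h0 n C ho hc hmin => by
    have e := mk_ord_toType κ
    obtain ⟨x, hx⟩ := exists_right_sep (U := ((↑) : C → Set (Fin n → X))) (fun i => ho i i.2)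
      (fun y => by
        obtain ⟨v, hv, hy⟩ := eq_univ_iff_forall.1 hc y
        exact ⟨⟨v, hv⟩, hy⟩) κ.ord.ToType (fun t ht => by
        by_contra k
        push Not at k
        refine (ht.trans_eq e).not_ge ((hmin ((↑) '' t) ?_ ?_).trans mk_image_le)
        · rintro _ ⟨i, -, rfl⟩
          exact i.2
        · exact eq_univ_of_forall fun y => (k y).elim fun i h => ⟨i, ⟨i, h.1, rfl⟩, h.2⟩)
      fun a => (mk_Iio_ord_lt a).trans_eq e.symm
    obtain ⟨m, D, hD, hD'⟩ := hS κ hr h0 n x hx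
    exact disc_of_sd (sd_of_pow H D hD) hr h0 hD'
  rw [closure_univ] at h
  exact (Homeomorph.Set.univ (CX X)).symm.isInducing.frechetUrysohnSpace

-- the old SigmaDiscrete statement from the new one
theorem old_sigma (H : HX X) (A : ℕ → Set (CX X)) (hA : ∀ n, DiscreteTopology (A n)) :
    FrechetUrysohnSpace (closure (⋃ n, A n)) :=
  fu_closure_of_cover H _ fun κ hκ hr h0 _ _ _ _ _ => by
    by_contra k
    push Not at k
    exact hκ.not_gt ((card_iUnion_lt_iff_forall_of_isRegular hr (by rw [mk_nat]; exact h0)).2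
      fun n => k _ (hA n))

end Pool.Agent.Lib.MP_23bd8d_gt.Impl
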