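import Pool.Agent.Shared.Forcing.Check
import Pool.Agent.Lib.MP_23bd8d_gt.Defs

/-! Forcing utilities for small complete Boolean algebras. -/

namespace Pool.Agent.Lib.MP_23bd8d_gt

open Pool.Agent.Shared.Forcing Cardinal Set

universe u v w

set_option synthInstance.maxSize 4000

variable {B : Type u} [CompleteBooleanAlgebra B] {l : Cardinal.{u}} [hl : Fact l.IsInaccessible]

omit hl in
theorem tame_of_small (hB : #B < l) : Tame B l := by
  intro a ha
  refine ⟨Order.succ (max a #B), univ, (le_max_left _ _).trans_lt (Order.lt_succ _),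
    by simpa using hB, fun ι _ D h1 _ b hb => ⟨b, le_rfl, hb, univ, le_rfl, ?_, fun i => ?_⟩⟩
  · rw [mk_univ]
    exact (le_max_right _ _).trans_lt (Order.lt_succ _)
  · refine le_of_dense fun c hc hc0 e => ?_
    obtain ⟨d, hd, hd0, hD⟩ := h1 i c hc0
    have hdb : d ⊓ b = d := inf_eq_left.mpr (hd.trans hc)
    refine hd0 (le_bot_iff.mp (le_trans (le_inf hd ?_) e.le))
    exact le_iSup_of_le (⟨d, mem_univ _, hdb.symm ▸ hD⟩ : {s // s ∈ Set.univ ∧ s ⊓ b ∈ D i}) le_rfl

theorem exists_small (hB : #B < l) (X : HName B l) :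
    ∃ x : SName B l, ∀ U, cls U X = sm U x := by
  let T := {b : B // ∃ x, b ≤ HName.eq X (HName.emb x)}
  let y : T → SName B l := fun b => b.2.choose
  have hy : ∀ (b : T) U, b.1 ∈ U → cls U X = sm U (y b) := fun b U hb =>
    cls_eq.mpr (Ultra.mono hb b.2.choose_spec)
  have hJ : #(Σ b : T, (y b).idx) < l :=
    sigma_lt_l ((mk_subtype_le _).trans_lt hB) fun b => (y b).card_idx
  refine ⟨SName.mk _ hJ (fun j => (y j.1).fn j.2) (fun j => j.1.1 ⊓ (y j.1).val j.2),
    fun U => md_ext U _ _ fun z => ?_⟩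
  obtain ⟨Z, rfl⟩ := cls_surj z
  constructor
  · refine wlog_small X U ?_
    intro U x e hz
    let b : T := ⟨HName.eq X (HName.emb x), x, le_rfl⟩
    have hb : b.1 ∈ U := cls_eq.mp e
    rw [hy b U hb] at hz
    clear e
    revert hb
    refine wlog_mem Z _ U hz ?_
    intro U i hi e hb
    rw [e]
    exact mem_mk hJ (fun j => (y j.1).fn j.2) _ ⟨b, i⟩ (Ultra.inf_mem.mpr ⟨hb, hi⟩)
  · intro hz
    refine wlog_mk Z hJ _ _ U hz ?_
    intro U j hj e
    rw [Ultra.inf_mem] at hj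
    rw [e, hy j.1 U hj.1]
    exact mem_intro _ _ hj.2

/-- maximum principle with a small name -/
theorem exists_switness (hB : #B < l) (Ψ : ∀ U : Ultra B, Md l U → Prop)
    [∀ X, Dec (fun U => Ψ U (cls U X))] : ∃ x : SName B l, ∀ U, (∃ z, Ψ U z) → Ψ U (sm U x) := by
  obtain ⟨X, hX⟩ := exists_witness Ψ
  obtain ⟨x, hx⟩ := exists_small hB X
  exact ⟨x, fun U h => hx U ▸ hX U h⟩

theorem md_kpair (U : Ultra B) (a b : Md l U) : ∃ p, IsKPair (El l U) p a b := by
  obtain ⟨s, hs⟩ := md_pair U a a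
  obtain ⟨t, ht⟩ := md_pair U a b
  obtain ⟨p, hp⟩ := md_pair U s t
  refine ⟨p, fun z => (hp z).trans (or_congr ⟨?_, fun h => ?_⟩ ⟨?_, fun h => ?_⟩)⟩
  · rintro rfl; exact hs
  · exact md_ext U _ _ fun w => (h w).trans (hs w).symm
  · rintro rfl; exact ht
  · exact md_ext U _ _ fun w => (h w).trans (ht w).symm

theorem md_prod (hT : Tame B l) (U : Ultra B) (A C : Md l U) :
    ∃ P, ∀ p a b, El l U a A → El l U b C → IsKPair (El l U) p a b → El l U p P := by
  obtain ⟨t, ht⟩ := md_pair U A C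
  obtain ⟨u, hu⟩ := md_union U t
  obtain ⟨w, hw⟩ := md_power hT U u
  obtain ⟨P, hP⟩ := md_power hT U w
  refine ⟨P, fun p a b ha hb hp => (hP p).2 fun z hz => (hw z).2 fun x hx => (hu x).2 ?_⟩
  rcases (hp z).1 hz with h1 | h1
  · obtain rfl : x = a := ((h1 x).1 hx).elim id id
    exact ⟨A, (ht A).2 (Or.inl rfl), ha⟩
  · rcases (h1 x).1 hx with rfl | rfl
    · exact ⟨A, (ht A).2 (Or.inl rfl), ha⟩
    · exact ⟨C, (ht C).2 (Or.inr rfl), hb⟩

theorem md_rel (hT : Tame B l) (Ψ : ∀ U : Ultra B, Md l U → Md l U → Prop)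
    [∀ X Y, Dec (fun U => Ψ U (cls U X) (cls U Y))] (U : Ultra B) (A C : Md l U) :
    ∃ f, (∀ p, El l U p f → ∃ x y, El l U x A ∧ El l U y C ∧ IsKPair (El l U) p x y) ∧
      ∀ x y, Maps (El l U) f x y ↔ El l U x A ∧ El l U y C ∧ Ψ U x y := by
  obtain ⟨P, hP⟩ := md_prod hT U A C
  obtain ⟨A, rfl⟩ := cls_surj A
  obtain ⟨C, rfl⟩ := cls_surj C
  obtain ⟨f, hf⟩ := md_sep (fun U p => ∃ x y, El l U x (cls U A) ∧ El l U y (cls U C) ∧
    IsKPair (El l U) p x y ∧ Ψ U x y) U P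
  refine ⟨f, fun p hp => ?_, fun x y => ⟨?_, fun ⟨h1, h2, h3⟩ => ?_⟩⟩
  · obtain ⟨-, x, y, h1, h2, h3, -⟩ := (hf p).1 hp
    exact ⟨x, y, h1, h2, h3⟩
  · rintro ⟨p, hp, hp'⟩
    obtain ⟨-, x', y', h1, h2, h3, h4⟩ := (hf p).1 hp
    obtain ⟨rfl, rfl⟩ := IsKPair.uniq (md_pair U) hp' h3
    exact ⟨h1, h2, h4⟩
  · obtain ⟨p, hp⟩ := md_kpair U x y
    exact ⟨p, (hf p).2 ⟨hP p x y h1 h2 hp, x, y, h1, h2, hp, h3⟩, hp⟩

theorem IsFn.mem {U : Ultra B} {f A C x y : Md l U} (hf : IsFn (El l U) f A C)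
    (h : Maps (El l U) f x y) : El l U x A ∧ El l U y C := by
  obtain ⟨p, hp, hp'⟩ := h
  obtain ⟨x', y', h1, h2, h3⟩ := hf.1 p hp
  obtain ⟨rfl, rfl⟩ := IsKPair.uniq (md_pair U) hp' h3
  exact ⟨h1, h2⟩

theorem IsFn.uniq {U : Ultra B} {f A C x y y' : Md l U} (hf : IsFn (El l U) f A C)
    (h : Maps (El l U) f x y) (h' : Maps (El l U) f x y') : y = y' :=
  (hf.2 x (hf.mem h).1).unique h h'

theorem IsFn.total {U : Ultra B} {f A C x : Md l U} (hf : IsFn (El l U) f A C)
    (h : El l U x A) : ∃ y, El l U y C ∧ Maps (El l U) f x y :=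
  let ⟨y, hy, _⟩ := hf.2 x h; ⟨y, (hf.mem hy).2, hy⟩

instance Dec.listAll {α : Type v} (L : List α) (Ψ : α → Ultra B → Prop) [∀ a, Dec (Ψ a)] :
    Dec (fun U => ∀ a ∈ L, Ψ a U) := by
  induction L with
  | nil => exact ⟨⊤, fun U => by simp [U.top_mem]⟩
  | cons a L ih =>
    simp only [List.forall_mem_cons]
    infer_instance

omit hl in
theorem finset_inf_mem {α : Type v} {U : Ultra B} (s : Finset α) (c : α → B) :
    s.inf c ∈ U ↔ ∀ a ∈ s, c a ∈ U := by
  classical
  induction s using Finset.induction_on with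
  | empty => simpa using U.top_mem
  | insert a s _ ih => rw [Finset.inf_insert, Ultra.inf_mem, ih, Finset.forall_mem_insert]

omit hl in
theorem iSup_fin_mem {ι : Type v} {κ : Type w} [Nonempty κ] (c : ι → κ → B) (s : Finset ι) (U : Ultra B)
    (h : ∀ i ∈ s, ⨆ k, c i k ∈ U) : ⨆ g : ι → κ, s.inf (fun i => c i (g i)) ∈ U := by
  classical
  induction s using Finset.induction_on with
  | empty => exact iSup_mem_of_mem (Classical.arbitrary _) (by simpa using U.top_mem)
  | insert a s ha ih =>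
    refine Ultra.mono (Ultra.inf_mem.mpr ⟨h a (Finset.mem_insert_self _ _),
      ih fun i hi => h i (Finset.mem_insert_of_mem hi)⟩) ?_
    rw [iSup_inf_iSup]
    refine iSup_le fun ⟨k, g⟩ => le_iSup_of_le (Function.update g a k) ?_
    rw [Finset.inf_insert, Function.update_self]
    refine inf_le_inf_left _ (Finset.inf_congr rfl fun i hi => ?_).le
    rw [Function.update_of_ne (ne_of_mem_of_not_mem hi ha)]

instance Dec.isFn (X Y Z : HName B l) :
    Dec (fun U => IsFn (El l U) (cls U X) (cls U Y) (cls U Z)) := by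
  unfold IsFn; infer_instance

instance Dec.isTop (X Y : HName B l) : Dec (fun U => IsTop (El l U) (cls U X) (cls U Y)) := by
  unfold IsTop; infer_instance

instance Dec.isReal (X Y Z : HName B l) :
    Dec (fun U => IsReal (El l U) (cls U X) (cls U Y) (cls U Z)) := by
  unfold IsReal; infer_instance

instance Dec.btw (L f x a b : HName B l) :
    Dec (fun U => Btw (El l U) (cls U L) (cls U f) (cls U x) (cls U a) (cls U b)) := by
  unfold Btw; infer_instance

instance Dec.cont (X T R L f : HName B l) :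
    Dec (fun U => Cont (El l U) (cls U X) (cls U T) (cls U R) (cls U L) (cls U f)) := by
  unfold Cont; infer_instance

instance Dec.hasSub (X R L C S : HName B l) :
    Dec (fun U => HasSub (El l U) (cls U X) (cls U R) (cls U L) (cls U C) (cls U S)) := by
  unfold HasSub; infer_instance

instance Dec.inCl (X Y Z : HName B l) :
    Dec (fun U => InCl (El l U) (cls U X) (cls U Y) (cls U Z)) := by
  unfold InCl; infer_instance

instance Dec.disc (X Y : HName B l) : Dec (fun U => Disc (El l U) (cls U X) (cls U Y)) := by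
  unfold Disc; infer_instance

omit hl in
theorem exists_cond {P : Type u} [Preorder P] (Φ : Ultra (RO P) → Prop) [Dec Φ]
    {U : Ultra (RO P)} (h : Φ U) : ∃ p : P, ∀ U', RO.io p ∈ U' → Φ U' := by
  obtain ⟨p, hp⟩ := RO.ne_bot_iff.mp (Ultra.ne_bot (bv_mem.mpr h))
  exact ⟨p, fun U' hU => bv_mem.mp (Ultra.mono hU (RO.io_le.mpr hp))⟩

omit hl in
theorem mem_of_forces {P : Type u} [Preorder P] {b : RO P} {p : P}
    (h : ∀ U : Ultra (RO P), RO.io p ∈ U → b ∈ U) : p ∈ b :=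
  RO.io_le.mp (Ultra.le_of_forall h)

end Pool.Agent.Lib.MP_23bd8d_gt
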