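import Pool.Agent.Lib.MP_23bd8d_gt.Gam

/-! Punctured Boolean groups with small discrete subsets. -/

set_option autoImplicit false

open Set Filter Topology Cardinal TopologicalSpace

namespace Pool.Agent.Lib.MP_23bd8d_gt

/-- All discrete subsets have size below `κ`. -/
def SP (κ : Cardinal) (Y : Type) [TopologicalSpace Y] : Prop :=
  ∀ D : Set Y, DiscreteTopology D → #D < κ

section Spread
variable {κ : Cardinal.{0}}

theorem SP.fam {Y ι : Type} [TopologicalSpace Y] (h : SP κ Y) (y : ι → Y) (V : ι → Set Y)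
    (hV : ∀ i, V i ∈ 𝓝 (y i)) (hs : ∀ i j, y j ∈ V i → j = i) : #ι < κ := by
  have hi : y.Injective := fun i j e => (hs i j (e ▸ mem_of_mem_nhds (hV i))).symm
  rw [← mk_range_eq y hi]
  refine h _ ((discrete_iff _).2 ?_)
  rintro _ ⟨i, rfl⟩
  refine ⟨V i, hV i, ?_⟩
  rintro _ ⟨j, rfl⟩ k
  rw [hs i j k]

theorem SP.of_inducing {Y Z : Type} [TopologicalSpace Y] [TopologicalSpace Z] (h : SP κ Y)
    {φ : Z → Y} (hφ : IsInducing φ) : SP κ Z := fun D hD => by
  choose U hU hU' using fun d : D => (discrete_iff _).1 hD d d.2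
  choose W hW hW' using fun d : D => mem_comap.1 (hφ.nhds_eq_comap d.1 ▸ hU d)
  exact h.fam (fun d : D => φ d) W hW fun i j k => Subtype.ext (hU' i j j.2 (hW' i k))

theorem SP.of_cover (hr : κ.IsRegular) (h0 : ℵ₀ < κ) {Y ι : Type} [TopologicalSpace Y] [Countable ι]
    {Z : ι → Type} [∀ i, TopologicalSpace (Z i)] (h : ∀ i, SP κ (Z i)) (φ : ∀ i, Z i → Y)
    (hφ : ∀ i, Continuous (φ i)) (hc : ∀ y, ∃ i z, φ i z = y) : SP κ Y := fun D hD => by
  choose! U hU hU' using (discrete_iff _).1 hD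
  refine (mk_le_mk_of_subset (t := ⋃ i, {d ∈ D | ∃ z, φ i z = d}) fun d hd => ?_).trans_lt
    ((card_iUnion_lt_iff_forall_of_isRegular hr (mk_le_aleph0.trans_lt h0)).2 fun i => ?_)
  · obtain ⟨i, z, e⟩ := hc d
    exact mem_iUnion.2 ⟨i, hd, z, e⟩
  · choose z hz using fun d : {d ∈ D | ∃ z, φ i z = d} => d.2.2
    refine (h i).fam z (fun d => φ i ⁻¹' U d) (fun d => (hφ i).continuousAt.preimage_mem_nhds ?_)
      fun d e k => Subtype.ext (hU' d d.2.1 e e.2.1 ?_)
    · rw [hz]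
      exact hU d d.2.1
    · rw [← hz e]
      exact k

theorem SP.pi {Y : Type} [TopologicalSpace Y] (h : ∀ n, SP κ (Fin n → Y)) (ι : Type) [Finite ι] :
    SP κ (ι → Y) := by
  obtain ⟨n, ⟨e⟩⟩ := Finite.exists_equiv_fin ι
  exact (h n).of_inducing (Homeomorph.piCongrLeft (Y := fun _ => Y) e).isInducing

/-- Discrete sets of functions are small. -/
theorem SP.cx (hr : κ.IsRegular) (h0 : ℵ₀ < κ) {X : Type} [TopologicalSpace X]
    (h : ∀ n, SP κ (Fin n → X)) : SP κ (CX X) := fun D hD => by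
  let P : ∀ p : Σ m, ℕ × (Fin m → ℚ), CX X → (Fin p.1 → X) → Prop := fun p d y =>
    (∀ f ∈ D, (∀ j, |f.1 (y j) - d.1 (y j)| < 3 / ((p.2.1 : ℝ) + 1)) → f = d) ∧
      ∀ j, |d.1 (y j) - p.2.2 j| < 1 / ((p.2.1 : ℝ) + 1)
  refine (mk_le_mk_of_subset (t := ⋃ p, {d ∈ D | ∃ y, P p d y}) fun d hd => ?_).trans_lt
    ((card_iUnion_lt_iff_forall_of_isRegular hr (mk_le_aleph0.trans_lt h0)).2 fun p => ?_)
  · obtain ⟨U, hU, hU'⟩ := (discrete_iff _).1 hD d hd
    obtain ⟨F, N, hF, h1⟩ := nhds_fin hU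
    obtain ⟨m, y, -, rfl⟩ := hF.fin_param
    choose q hq using fun j => exists_rat_near (d.1 (y j))
      (show (0 : ℝ) < 1 / ((N : ℝ) + 1) by positivity)
    exact mem_iUnion.2 ⟨⟨m, N, q⟩, hd, y, fun f hf k => hU' f hf (h1 f (forall_mem_range.2 k)), hq⟩
  · choose y hy using fun d : {d ∈ D | ∃ y, P p d y} => d.2.2
    refine (h p.1).fam y (fun d => {z | ∀ j, |d.1.1 (z j) - p.2.2 j| < 1 / ((p.2.1 : ℝ) + 1)})
      (fun d => eventually_all.2 fun j =>
        (isOpen_lt (f := fun z : Fin p.1 → X => |d.1.1 (z j) - p.2.2 j|)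
        (((d.1.2.comp (continuous_apply j)).sub continuous_const).abs)
        continuous_const).eventually_mem ((hy d).2 j)) fun d e k =>
      Subtype.ext ((hy e).1 d d.2.1 fun j => ?_).symm
    have a := abs_lt.1 (show |d.1.1 (y e j) - p.2.2 j| < 1 / ((p.2.1 : ℝ) + 1) from k j)
    have b := abs_lt.1 ((hy e).2 j)
    have c : (0 : ℝ) < 1 / ((p.2.1 : ℝ) + 1) := by positivity
    rw [abs_lt, show 3 / ((p.2.1 : ℝ) + 1) = 3 * (1 / ((p.2.1 : ℝ) + 1)) by ring]
    constructor <;> linarith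

theorem exists_bound_ord (hr : κ.IsRegular) (s : Set κ.ord.ToType) (hs : #s < κ) :
    ∃ b, ∀ a ∈ s, a < b := by
  by_contra k
  push Not at k
  have h2 : ∀ a : κ.ord.ToType, #(Iic a) < κ := fun a => by
    rw [← Iio_insert]
    exact mk_insert_le.trans_lt (add_lt_of_lt hr.aleph0_le (mk_Iio_ord_lt a)
      (one_lt_aleph0.trans_le hr.aleph0_le))
  have h3 := (card_biUnion_lt_iff_forall_of_isRegular (t := fun a _ => Iic a) hr hs).2
    fun a _ => h2 a
  rw [show (⋃ a ∈ s, Iic a) = Set.univ from eq_univ_of_forall fun b =>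
    (k b).elim fun a h => mem_biUnion h.1 h.2, mk_univ, mk_ord_toType] at h3
  exact lt_irrefl _ h3

end Spread

section Group
variable {κ : Cardinal.{0}} {α : Type} {G : AddSubgroup (α → ZMod 2)}

/-- The group without its neutral element. -/
abbrev PG (G : AddSubgroup (α → ZMod 2)) : Type := ({0}ᶜ : Set G)

/-- A basic open set. -/
def box (p : PG G × Finset α) : Set (PG G) := {h | ∀ a ∈ p.2, h.1.1 a = p.1.1.1 a}

theorem box_mem (g : PG G) (F : Finset α) : box (g, F) ∈ 𝓝 g :=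
  (eventually_all_finset F).2 fun a _ =>
    (((continuous_apply a).comp (continuous_subtype_val.comp
      continuous_subtype_val)).tendsto g).eventually
      ((isOpen_discrete {g.1.1 a}).eventually_mem rfl)

theorem exists_box {g : PG G} {V : Set (PG G)} (hV : V ∈ 𝓝 g) : ∃ F : Finset α, box (g, F) ⊆ V := by
  have hi : IsInducing fun h : PG G => h.1.1 := IsInducing.subtypeVal.comp IsInducing.subtypeVal
  obtain ⟨W, hW, h⟩ := mem_comap.1 (hi.nhds_eq_comap g ▸ hV)
  rw [nhds_pi] at hW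
  obtain ⟨F, t, ht, h'⟩ := mem_pi'.1 hW
  exact ⟨F, fun f hf => h (h' fun a ha => by
    change f.1.1 a ∈ t a
    rw [hf a ha]
    exact mem_of_mem_nhds (ht a))⟩

theorem exists_cells (hs : SP κ (PG G)) {O : Set (PG G)} (hO : IsOpen O) :
    ∃ M : Set (PG G × Finset α), #M < κ ∧ (∀ p ∈ M, box p ⊆ O) ∧
      ∀ g ∈ O, ∀ S : Finset α, ∃ p ∈ M, ∃ w ∈ box p, w ∈ box (g, S) := by
  classical
  obtain ⟨M, hM⟩ := zorn_subset {M : Set (PG G × Finset α) | (∀ p ∈ M, box p ⊆ O) ∧
      M.Pairwise fun p r => ∀ w ∈ box p, w ∉ box r} fun c hc hc' =>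
    ⟨⋃₀ c, ⟨fun p ⟨s, h1, h2⟩ => (hc h1).1 p h2, (pairwise_sUnion hc'.directedOn).2
      fun s h => (hc h).2⟩, fun s h => subset_sUnion_of_mem h⟩
  have self : ∀ p : PG G × Finset α, p.1 ∈ box p := fun p a _ => rfl
  refine ⟨M, hs.fam (fun p : M => p.1.1) (fun p => box p.1) (fun p => box_mem _ _) fun i j k => ?_,
    hM.prop.1, fun g hg S => ?_⟩
  · by_contra e
    exact hM.prop.2 j.2 i.2 (fun e' => e (Subtype.ext e')) _ (self _) k
  · by_contra k
    push Not at k
    obtain ⟨F, hF⟩ := exists_box (hO.mem_nhds hg)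
    have h1 : box (g, F ∪ S) ⊆ box (g, S) := fun w hw a ha => hw a (Finset.mem_union_right _ ha)
    have h2 : box (g, F ∪ S) ⊆ O := fun w hw => hF fun a ha => hw a (Finset.mem_union_left _ ha)
    have h3 : insert (g, F ∪ S) M ⊆ M := hM.2 ⟨forall_mem_insert.2 ⟨h2, hM.prop.1⟩,
      hM.prop.2.insert fun p hp _ => ⟨fun w a b => k p hp w b (h1 a), fun w a b => k p hp w a (h1 b)⟩⟩
      (subset_insert _ _)
    exact k _ (h3 (mem_insert _ _)) g (self _) (self (g, S))

variable [LinearOrder α]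

/-- Continuous functions depend on a bounded set of coordinates. -/
theorem exists_factor' (hr : κ.IsRegular) (h0 : ℵ₀ < κ)
    (hb : ∀ s : Set α, #s < κ → ∃ b, ∀ a ∈ s, a < b) (hs : SP κ (PG G)) (f : CX (PG G)) :
    ∃ b, ∀ g g' : PG G, (∀ a < b, g.1.1 a = g'.1.1 a) → f.1 g = f.1 g' := by
  classical
  have hf : Continuous f.1 := f.2
  choose M h1 h2 h3 using fun q : ℚ =>
    exists_cells hs (O := {g | f.1 g < q}) (isOpen_lt hf continuous_const)
  obtain ⟨b, hb⟩ := hb (⋃ q, ⋃ p ∈ M q, (p.2 : Set α))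
    ((card_iUnion_lt_iff_forall_of_isRegular hr (mk_le_aleph0.trans_lt h0)).2 fun q =>
      (card_biUnion_lt_iff_forall_of_isRegular (t := fun p _ => (p.2 : Set α)) hr (h1 q)).2
        fun p _ => mk_le_aleph0.trans_lt h0)
  suffices ∀ g g' : PG G, (∀ a < b, g.1.1 a = g'.1.1 a) → f.1 g' ≤ f.1 g from
    ⟨b, fun g g' e => le_antisymm (this _ _ fun a ha => (e a ha).symm) (this _ _ e)⟩
  intro g g' e
  by_contra k
  obtain ⟨q, q1, q2⟩ := exists_rat_btwn (not_le.1 k)
  obtain ⟨S, hS⟩ := exists_box (hf.continuousAt.eventually (lt_mem_nhds q2))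
  obtain ⟨a₀, ha₀⟩ := Function.ne_iff.1
    (show g'.1.1 ≠ 0 from fun e => g'.2 (Subtype.ext e))
  obtain ⟨p, hp, w, w1, w2⟩ := h3 q g q1 (insert a₀ S)
  have z : ∀ u v : ZMod 2, u + (u + v) = v := by decide
  have h4 : ∀ a ∈ insert a₀ S, (w.1 + (g.1 + g'.1)).1 a = g'.1.1 a := fun a ha => by
    change w.1.1 a + (g.1.1 a + g'.1.1 a) = _
    rw [w2 a ha, z]
  let w' : PG G := ⟨w.1 + (g.1 + g'.1), fun e => ha₀ ((h4 a₀ (by simp)).symm.trans
    (congrFun (congrArg Subtype.val (mem_singleton_iff.1 e)) a₀))⟩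
  refine lt_asymm (show (q : ℝ) < f.1 w' from hS fun a ha => h4 a (by simp [ha]))
    (h2 q p hp (show w' ∈ box p from fun a ha => ?_))
  change w.1.1 a + (g.1.1 a + g'.1.1 a) = _
  rw [e a (hb a (mem_iUnion.2 ⟨q, mem_biUnion hp ha⟩)), CharTwo.add_self_eq_zero, add_zero]
  exact w1 a ha

theorem hx_PG (hr : κ.IsRegular) (h0 : ℵ₀ < κ)
    (hb : ∀ s : Set α, #s < κ → ∃ b, ∀ a ∈ s, a < b) (hs : ∀ n, SP κ (Fin n → G))
    (hy : ∀ b, ∃ y : PG G, ∀ a < b, y.1.1 a = 0) (hG : FrechetUrysohnSpace (CX G)) :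
    HX (PG G) := fun D hD => by
  classical
  have hs' : ∀ n, SP κ (Fin n → PG G) := fun n =>
    (hs n).of_inducing (IsInducing.piMap fun _ => IsInducing.subtypeVal)
  choose β hβ using exists_factor' hr h0 hb
    ((hs' 1).of_inducing (Homeomorph.funUnique (Fin 1) (PG G)).symm.isInducing)
  obtain ⟨b, hb⟩ := hb (β '' D) (mk_image_le.trans_lt (SP.cx hr h0 hs' D hD))
  obtain ⟨y, hy⟩ := hy b
  have h2 : ∀ f ∈ closure D, ∀ g g' : PG G, (∀ a < b, g.1.1 a = g'.1.1 a) → f.1 g = f.1 g' :=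
    fun f hf g g' e => closure_minimal (t := {f : CX (PG G) | f.1 g = f.1 g'})
      (fun d hd => hβ d _ _ fun a ha => e a (ha.trans (hb _ ⟨d, hd, rfl⟩)))
      (isClosed_eq (continuous_ev _) (continuous_ev _)) hf
  let t : G → PG G := fun g => if h : g = 0 then y else ⟨g, h⟩
  have ht : ∀ g : G, ∀ a < b, (t g).1.1 a = g.1 a := fun g a ha => by
    by_cases h : g = 0
    · simp only [t, dif_pos h]
      rw [hy a ha, h]
      rfl
    · simp only [t, dif_neg h]
  have h3 : ∀ f ∈ closure D, Continuous fun g => f.1 (t g) := fun f hf => by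
    have h4 : ∀ c : G, (∀ a < b, c.1 a = 0) →
        ContinuousOn (fun g => f.1 (t g)) {g | g + c ≠ 0} := fun c hc => by
      rw [continuousOn_iff_continuous_domRestrict]
      have : Continuous fun g : {g : G | g + c ≠ 0} => f.1 (⟨g.1 + c, g.2⟩ : PG G) :=
        f.2.comp ((continuous_subtype_val.add continuous_const).subtype_mk _)
      refine this.congr fun g => h2 f hf _ _ fun a ha => ?_
      rw [ht _ a ha]
      change g.1.1 a + c.1 a = _
      rw [hc a ha, add_zero]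
    have h5 : ∀ c : G, IsOpen {g : G | g + c ≠ 0} := fun c =>
      isOpen_ne_fun (continuous_id.add continuous_const) continuous_const
    refine continuous_iff_continuousAt.2 fun g => ?_
    by_cases h : g = 0
    · exact (h4 y.1 hy).continuousAt ((h5 _).mem_nhds (by
        change g + y.1 ≠ 0
        rw [h, zero_add]
        exact y.2))
    · exact (h4 0 fun _ _ => rfl).continuousAt ((h5 _).mem_nhds (by
        change g + 0 ≠ 0
        rwa [add_zero]))
  let Φ : closure D → CX G := fun f => ⟨fun g => f.1.1 (t g), h3 f.1 f.2⟩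
  let ρ : CX G → CX (PG G) := fun f => ⟨fun g => f.1 g.1, f.2.comp continuous_subtype_val⟩
  have h6 : Continuous Φ := (continuous_pi fun g =>
    (continuous_ev (t g)).comp continuous_subtype_val).subtype_mk _
  have h7 : Continuous ρ := (continuous_pi fun g : PG G => continuous_ev g.1).subtype_mk _
  have h8 : ρ ∘ Φ = (↑) := funext fun f => Subtype.ext (funext fun g =>
    h2 f.1 f.2 _ _ fun a ha => ht _ a ha)
  exact (IsInducing.of_comp h6 h7 (h8 ▸ IsInducing.subtypeVal)).frechetUrysohnSpace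

theorem not_fu_PG (h0 : ℵ₀ < κ) (hb : ∀ s : Set α, #s < κ → ∃ b, ∀ a ∈ s, a < b)
    (hy : ∀ b, ∃ y : PG G, ∀ a < b, y.1.1 a = 0) : ¬ FrechetUrysohnSpace (CX (PG G)) := by
  classical
  intro k
  let u : Finset α → CX (PG G) := fun F => ⟨fun g => if ∀ a : F, g.1.1 a = 0 then 1 else 0,
    (continuous_of_discreteTopology (f := fun z : F → ZMod 2 =>
      if ∀ a, z a = 0 then (1 : ℝ) else 0)).comp
      (continuous_pi fun a => (continuous_apply a.1).comp
        (continuous_subtype_val.comp continuous_subtype_val))⟩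
  have h2 : (⟨fun _ => 0, continuous_const⟩ : CX (PG G)) ∈ closure (range u) := by
    refine mem_closure_iff_nhds.2 fun V hV => ?_
    obtain ⟨S, N, hS, hN⟩ := nhds_fin hV
    choose r hr using fun g : PG G => Function.ne_iff.1
      (show g.1.1 ≠ 0 from fun e => g.2 (Subtype.ext e))
    refine ⟨u (hS.toFinset.image r), hN _ fun g hg => ?_, _, rfl⟩
    simp only [u]
    rw [if_neg fun e => hr g (e ⟨r g, Finset.mem_image_of_mem r (hS.mem_toFinset.2 hg)⟩), sub_zero,
      abs_zero]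
    positivity
  obtain ⟨v, hv, hv'⟩ := k.closure_subset_seqClosure _ h2
  choose F hF using hv
  obtain ⟨b, hb⟩ := hb _ ((countable_iUnion fun n => (F n).countable_toSet).le_aleph0.trans_lt h0)
  obtain ⟨y, hy⟩ := hy b
  have h3 := tendsto_iff.1 hv' y
  simp only [← hF, u] at h3
  rw [tendsto_congr fun n => if_pos fun a : F n => hy a (hb a (mem_iUnion.2 ⟨n, a.2⟩))] at h3
  exact one_ne_zero (tendsto_const_nhds_iff.1 h3)

end Group

/-- A gap gives a punctured counterexample. -/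
theorem punct_of_gap {K : Type} [TopologicalSpace K] [T35Space K] {κ : Cardinal.{0}}
    (hK : FrechetUrysohnSpace (CX K)) (hr : κ.IsRegular) (h0 : ℵ₀ < κ)
    (hs : ∀ n, SP κ (Fin n → K)) {C : Set (Set K)} (hC : ∀ U ∈ C, IsOpen U)
    (hC' : ∀ C' ⊆ C, ⋃₀ C' = ⋃₀ C → κ ≤ #C') :
    ∃ (Z : Type) (_ : TopologicalSpace Z) (p : Z), T35Space Z ∧ FrechetUrysohnSpace (CX Z) ∧
      HX ({p}ᶜ : Set Z) ∧ ¬ FrechetUrysohnSpace (CX ({p}ᶜ : Set Z)) := by
  classical
  let α := κ.ord.ToType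
  have e : #α = κ := mk_ord_toType _
  obtain ⟨y, hy⟩ := exists_right_sep (Y := ⋃₀ C) (U := fun i : C => ((↑) : ⋃₀ C → K) ⁻¹' i.1)
    (fun i => (hC i i.2).preimage continuous_subtype_val)
    (fun z => let ⟨U, a, b⟩ := z.2; ⟨⟨U, a⟩, b⟩) α
    (fun s h => by
      by_contra k
      push Not at k
      refine (hC' ((↑) '' s) (Subtype.coe_image_subset _ _) (Subset.antisymm
        (sUnion_subset_sUnion (Subtype.coe_image_subset _ _)) fun z hz => ?_)).not_gt
        (mk_image_le.trans_lt (h.trans_eq e))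
      obtain ⟨i, a, b⟩ := k ⟨z, hz⟩
      exact ⟨i, ⟨i, a, rfl⟩, b⟩)
    fun a => (mk_Iio_ord_lt a).trans_eq e.symm
  have hy' : ∀ a, (y a).1 ∉ closure ((↑) '' (y '' Ioi a)) := fun a k => hy a <| by
    rw [IsInducing.subtypeVal.closure_eq_preimage_closure_image]
    exact k
  choose f hf f0 f1 using fun a => CompletelyRegularSpace.completely_regular (y a).1 _
    isClosed_closure (hy' a)
  have H : HX K := fun D _ => IsInducing.subtypeVal.frechetUrysohnSpace
  choose c hc hc' using fun a => exists_gap H ⟨fun z => (f a z : ℝ),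
    continuous_subtype_val.comp (hf a)⟩ (show (1 / 3 : ℝ) < 2 / 3 by norm_num)
  let x : K → α → ZMod 2 := fun z a => if (f a z : ℝ) < c a then 1 else 0
  have h4 : Continuous x := continuous_pi fun b => by
    have : Continuous fun z => (f b z : ℝ) := continuous_subtype_val.comp (hf b)
    refine ((IsLocallyConstant.iff_eventually_eq _).2 fun a => ?_).continuous
    rcases (hc' b a).lt_or_gt with h | h
    · filter_upwards [this.continuousAt.eventually (gt_mem_nhds h)] with z hz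
      simp only [x, if_pos (show (f b a : ℝ) < c b from h), if_pos hz]
    · filter_upwards [this.continuousAt.eventually (lt_mem_nhds h)] with z hz
      simp only [x, if_neg (show ¬ (f b a : ℝ) < c b from h.not_gt), if_neg hz.not_gt]
  let G : AddSubgroup (α → ZMod 2) :=
    { carrier := {g | ∃ (k : ℕ) (v : Fin k → K), ∑ i, x (v i) = g}
      zero_mem' := ⟨0, Fin.elim0, by simp⟩
      add_mem' := by
        rintro _ _ ⟨k, v, rfl⟩ ⟨l, w, rfl⟩
        exact ⟨k + l, Fin.append v w, by simp [Fin.sum_univ_add]⟩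
      neg_mem' := fun {g} h => by
        rwa [show -g = g from funext fun a => CharTwo.neg_eq (g a)] }
  have h5 : ∀ b, ∃ g : PG G, ∀ a < b, g.1.1 a = 0 := fun b => by
    refine ⟨⟨⟨x (y b), 1, fun _ => y b, by simp⟩, fun k => ?_⟩, fun a ha => if_neg ?_⟩
    · have := congrFun (congrArg Subtype.val (mem_singleton_iff.1 k)) b
      refine one_ne_zero ((if_pos ?_).symm.trans this)
      rw [f0 b]
      exact lt_of_lt_of_le (by norm_num) (hc b).1
    · rw [f1 a (subset_closure ⟨_, ⟨b, ha, rfl⟩, rfl⟩)]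
      exact not_lt.2 ((hc a).2.trans (by norm_num))
  have : Nonempty α := mk_ne_zero_iff.1 (e ▸ hr.pos.ne')
  have : Nonempty K := ⟨(y (Classical.arbitrary α)).1⟩
  have h6 : FrechetUrysohnSpace (CX G) := fu_of_pows hK id
    (fun k w => (⟨∑ i, x (w i), k, w, rfl⟩ : G))
    (fun k => (continuous_finsetSum _ fun i _ => h4.comp (continuous_apply i)).subtype_mk _)
    fun ⟨_, k, w, e⟩ => ⟨k, w, Subtype.ext e⟩
  have h7 : ∀ n, SP κ (Fin n → G) := fun n => by
    refine SP.of_cover hr h0 (ι := Fin n → ℕ) (Z := fun k => (Σ j, Fin (k j)) → K)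
      (fun k => SP.pi hs _) (fun k w j => ⟨∑ i, x (w ⟨j, i⟩), _, _, rfl⟩)
      (fun k => continuous_pi fun j => Continuous.subtype_mk (continuous_finsetSum _ fun i _ =>
        h4.comp (continuous_apply _)) _) fun g => ?_
    choose k v hv using fun j => (g j).2
    exact ⟨k, fun p => v p.1 p.2, funext fun j => Subtype.ext (hv j)⟩
  exact ⟨G, inferInstance, 0, inferInstance, h6, hx_PG hr h0 (exists_bound_ord hr) h7 h5 h6,
    not_fu_PG h0 (exists_bound_ord hr) h5⟩

/-- A counterexample with a one-point extension gives a gap. -/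
theorem gap_of_emb {X K : Type} [TopologicalSpace X] [T35Space X] [TopologicalSpace K] [T35Space K]
    {e : X → K} (he : IsInducing e) (p : K) (hp : ∀ z, z ∉ range e → z = p)
    (hK : FrechetUrysohnSpace (CX K)) (H : HX X) (hF : ¬ FrechetUrysohnSpace (CX X)) :
    ∃ (Z : Type) (_ : TopologicalSpace Z) (κ : Cardinal), T35Space Z ∧
      FrechetUrysohnSpace (CX Z) ∧ κ.IsRegular ∧ ℵ₀ < κ ∧ (∀ n, SP κ (Fin n → Z)) ∧
      ∃ C : Set (Set Z), (∀ U ∈ C, IsOpen U) ∧ ∀ C' ⊆ C, ⋃₀ C' = ⋃₀ C → κ ≤ #C' := by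
  classical
  have k := mt (fu_of_no_S H) hF
  push Not at k
  obtain ⟨κ, hr, h0, n, x, hx, hs⟩ := k
  have : Nonempty K := ⟨p⟩
  have hi : IsInducing fun (w : Fin n → X) j => e (w j) := IsInducing.piMap fun _ => he
  let x' : κ.ord.ToType → Fin n → K := fun a j => e (x a j)
  have hx' : ∀ a, x' a ∉ closure (x' '' Ioi a) := fun a k => hx a <| by
    rw [hi.closure_eq_preimage_closure_image, image_image]
    exact k
  refine ⟨Fin n → K, inferInstance, κ, inferInstance, fu_of_pows hK (fun _ => n) (fun _ w => w)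
    (fun _ => continuous_id) fun z => ⟨0, z, rfl⟩, hr, h0, fun m => ?_,
    range fun a => (closure (x' '' Ioi a))ᶜ, forall_mem_range.2 fun a =>
      isClosed_closure.isOpen_compl, fun C' h1 h2 => ?_⟩
  · refine SP.of_cover hr h0 (ι := Set (Fin m × Fin n)) (Z := fun S => S → X)
      (fun S => SP.pi hs _) (fun S w j i => if h : (j, i) ∈ S then e (w ⟨_, h⟩) else p)
      (fun S => continuous_pi fun j => continuous_pi fun i => ?_) fun z => ?_
    · by_cases h : (j, i) ∈ S
      · simp only [dif_pos h]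
        exact he.continuous.comp (continuous_apply _)
      · simp only [dif_neg h]
        exact continuous_const
    · choose w hw using fun q : {q : Fin m × Fin n | z q.1 q.2 ∈ range e} => q.2
      refine ⟨_, w, funext fun j => funext fun i => ?_⟩
      split_ifs with h
      · exact hw _
      · exact (hp _ h).symm
  · by_contra k
    choose a ha using fun U : C' => h1 U.2
    obtain ⟨b, hb⟩ := exists_bound_ord hr (range a) (mk_range_le.trans_lt (not_le.1 k))
    obtain ⟨U, h3, h4⟩ : x' b ∈ ⋃₀ C' := h2 ▸ ⟨_, ⟨b, rfl⟩, hx' b⟩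
    rw [← show _ = U from ha ⟨U, h3⟩] at h4
    exact h4 (subset_closure ⟨b, hb _ ⟨_, rfl⟩, rfl⟩)

/-- A counterexample that is an open subspace gives a gap. -/
theorem gap_of_open {K : Type} [TopologicalSpace K] [T35Space K] {U : Set K} (hU : IsOpen U)
    (hK : FrechetUrysohnSpace (CX K)) (H : HX U) (hF : ¬ FrechetUrysohnSpace (CX U)) :
    ∃ (Z : Type) (_ : TopologicalSpace Z) (κ : Cardinal), T35Space Z ∧
      FrechetUrysohnSpace (CX Z) ∧ κ.IsRegular ∧ ℵ₀ < κ ∧ (∀ n, SP κ (Fin n → Z)) ∧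
      ∃ C : Set (Set Z), (∀ U ∈ C, IsOpen U) ∧ ∀ C' ⊆ C, ⋃₀ C' = ⋃₀ C → κ ≤ #C' := by
  obtain ⟨p, hp⟩ : ∃ p, p ∉ U := by
    by_contra k
    push Not at k
    let Φ : CX U → CX K := fun f => ⟨fun z => f.1 ⟨z, k z⟩, f.2.comp (continuous_id.subtype_mk _)⟩
    let ρ : CX K → CX U := fun f => ⟨fun g => f.1 g.1, f.2.comp continuous_subtype_val⟩
    have h6 : Continuous Φ := (continuous_pi fun z => continuous_ev (⟨z, k z⟩ : U)).subtype_mk _
    have h7 : Continuous ρ := (continuous_pi fun g : U => continuous_ev g.1).subtype_mk _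
    exact hF (IsInducing.of_comp h6 h7 IsInducing.id).frechetUrysohnSpace
  have : Nonempty K := ⟨p⟩
  let e : K → {f : K → ℝ // Continuous f ∧ ∀ z ∉ U, f z = 0} → ℝ := fun z f => f.1 z
  have he : Continuous e := continuous_pi fun f => f.2.1
  let j : U → range e := fun u => ⟨e u, u, rfl⟩
  have hj : Continuous j := (he.comp continuous_subtype_val).subtype_mk _
  refine gap_of_emb (e := j) (isInducing_iff_nhds.2 fun u =>
    le_antisymm hj.continuousAt.le_comap fun V hV => ?_) ⟨e p, p, rfl⟩ ?_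
    (fu_of_pows hK (fun _ => 1) (fun _ w => (⟨e (w 0), _, rfl⟩ : range e))
      (fun _ => (he.comp (continuous_apply 0)).subtype_mk _)
      fun ⟨_, z, hz⟩ => ⟨0, fun _ => z, Subtype.ext hz⟩) H hF
  · obtain ⟨W, hW, h⟩ := (mem_nhds_induced _ _ _).1 hV
    obtain ⟨f, a, b, c⟩ := exists_sep_fin (finite_singleton u.1)
      (show W ∩ U ∈ 𝓝ˢ {u.1} by
        rw [nhdsSet_singleton]
        exact inter_mem hW (hU.mem_nhds u.2))
    let g : {f : K → ℝ // Continuous f ∧ ∀ z ∉ U, f z = 0} := ⟨fun z => 1 - f z,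
      continuous_const.sub a, fun z hz => show 1 - f z = 0 by rw [c z fun k => hz k.2, sub_self]⟩
    refine mem_comap.2 ⟨{w | w.1 g ≠ 0}, (isOpen_ne_fun ((continuous_apply g).comp
      continuous_subtype_val) continuous_const).mem_nhds ?_, fun v hv => h ?_⟩
    · change 1 - f u ≠ 0
      rw [b u rfl, sub_zero]
      exact one_ne_zero
    · by_contra k
      exact hv (show 1 - f v = 0 by rw [c v fun l => k l.1, sub_self])
  · rintro ⟨_, z, rfl⟩ hz
    refine Subtype.ext (funext fun f => ?_)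
    exact (f.2.2 z fun k => hz ⟨⟨z, k⟩, rfl⟩).trans (f.2.2 p hp).symm

end Pool.Agent.Lib.MP_23bd8d_gt
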