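import Pool.Agent.Lib.MP_23bd8d_gt.Kit

/-! The real line of the generic extension. -/

namespace Pool.Agent.Lib.MP_23bd8d_gt

open Pool.Agent.Shared.Forcing Cardinal Set

universe u v

set_option synthInstance.maxSize 4000

section abstract

variable {M : Type u} {E : M → M → Prop}

def IsCut (E : M → M → Prop) (w K r : M) : Prop :=
  Sub E r w ∧ (∃ x, E x r) ∧ (∃ x, E x w ∧ ¬ E x r) ∧
    (∀ x y, E x w → E y r → Maps E K x y → E x r) ∧ ∀ x, E x r → ∃ y, E y r ∧ Maps E K x y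

theorem isReal_of_cuts (hext : ∀ a b, (∀ z, E z a ↔ E z b) → a = b)
    (hun : ∀ a, ∃ s, ∀ z, E z s ↔ ∃ y, E y a ∧ E z y) {w K R L Q g : M}
    (k1 : ∀ x, E x w → ¬ Maps E K x x)
    (k2 : ∀ x y z, E x w → E y w → E z w → Maps E K x y → Maps E K y z → Maps E K x z)
    (k3 : ∀ x y, E x w → E y w → Maps E K x y ∨ x = y ∨ Maps E K y x)
    (k4 : ∃ x, E x w)
    (k5 : ∀ x, E x w → (∃ y, E y w ∧ Maps E K y x) ∧ ∃ y, E y w ∧ Maps E K x y)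
    (k6 : ∀ x y, E x w → E y w → Maps E K x y → ∃ z, E z w ∧ Maps E K x z ∧ Maps E K z y)
    (hR : ∀ r, E r R ↔ IsCut E w K r)
    (hL : ∀ r s, Maps E L r s ↔ E r R ∧ E s R ∧ Sub E r s ∧ r ≠ s)
    (hseg : ∀ q, ∃ r, ∀ z, E z r ↔ E z w ∧ Maps E K z q)
    (hQ : ∀ r, E r Q ↔ E r R ∧ ∃ q, E q w ∧ ∀ z, E z r ↔ E z w ∧ Maps E K z q)
    (hg : ∀ r q, Maps E g r q ↔ E r R ∧ E q w ∧ ∀ z, E z r ↔ E z w ∧ Maps E K z q) :
    IsReal E w R L := by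
  have anti : ∀ r s, Sub E r s → Sub E s r → r = s := fun r s h h' =>
    hext _ _ fun z => ⟨h z, h' z⟩
  have tot : ∀ r s, E r R → E s R → Sub E r s ∨ Sub E s r := by
    intro r s hr hs
    rw [hR] at hr hs
    by_cases h : Sub E r s
    · exact Or.inl h
    · right
      simp only [Shared.Forcing.Sub, not_forall] at h
      obtain ⟨x, hx, hx'⟩ := h
      intro y hy
      rcases k3 x y (hr.1 x hx) (hs.1 y hy) with h | h | h
      · exact absurd (hs.2.2.2.1 x y (hr.1 x hx) hy h) hx'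
      · exact absurd (h ▸ hy) hx'
      · exact hr.2.2.2.1 y x (hs.1 y hy) hx h
  have segR : ∀ q r, E q w → (∀ z, E z r ↔ E z w ∧ Maps E K z q) → E r R := by
    intro q r hq hr
    refine (hR r).2 ⟨fun z hz => ((hr z).1 hz).1, ?_, ⟨q, hq, fun h => k1 q hq ((hr q).1 h).2⟩,
      fun x y hx hy h => (hr x).2 ⟨hx, k2 _ _ _ hx ((hr y).1 hy).1 hq h ((hr y).1 hy).2⟩,
      fun x hx => ?_⟩
    · obtain ⟨y, hy⟩ := (k5 q hq).1
      exact ⟨y, (hr y).2 hy⟩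
    · obtain ⟨z, h1, h2, h3⟩ := k6 x q ((hr x).1 hx).1 hq ((hr x).1 hx).2
      exact ⟨z, (hr z).2 ⟨h1, h3⟩, h2⟩
  have below : ∀ q r s, E s R → E q s → (∀ z, E z r ↔ E z w ∧ Maps E K z q) → Maps E L r s := by
    intro q r s hs hq hr
    have hs' := (hR s).1 hs
    refine (hL _ _).2 ⟨segR q r (hs'.1 q hq) hr, hs,
      fun z hz => hs'.2.2.2.1 z q ((hr z).1 hz).1 hq ((hr z).1 hz).2, fun e => ?_⟩
    exact k1 q (hs'.1 q hq) ((hr q).1 (e ▸ hq)).2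
  have above : ∀ x q r s, E s R → E x w → ¬ E x s → E q w → Maps E K x q →
      (∀ z, E z r ↔ E z w ∧ Maps E K z q) → Maps E L s r := by
    intro x q r s hs hx hxs hq hxq hr
    have hs' := (hR s).1 hs
    refine (hL _ _).2 ⟨hs, segR q r hq hr, fun z hz => (hr z).2 ⟨hs'.1 z hz, ?_⟩,
      fun e => hxs (e ▸ (hr x).2 ⟨hx, hxq⟩)⟩
    rcases k3 z x (hs'.1 z hz) hx with h | h | h
    · exact k2 _ _ _ (hs'.1 z hz) hx hq h hxq
    · exact absurd (h ▸ hz) hxs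
    · exact absurd (hs'.2.2.2.1 x z hx hz h) hxs
  have nlt : ∀ r s, E r R → E s R → (¬ Maps E L r s ↔ Sub E s r) := by
    intro r s hr hs
    rw [hL]
    refine ⟨fun h => (tot r s hr hs).elim (fun h' => ?_) id,
      fun h h' => h'.2.2.2 (anti _ _ h'.2.2.1 h)⟩
    by_cases e : r = s
    · exact e ▸ fun _ h => h
    · exact absurd ⟨hr, hs, h', e⟩ h
  refine ⟨fun x _ h => ((hL _ _).1 h).2.2.2 rfl, fun x y z hx _ hz h h' => ?_,
    fun x y hx hy => ?_, ?_, fun x hx => ⟨?_, ?_⟩, ⟨Q, fun r hr => ((hQ r).1 hr).1,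
      ⟨g, fun r hr => ?_, fun r q q' h h' => ?_, fun r r' q h h' => ?_⟩, fun x y hx hy h => ?_⟩,
    fun A hA hne hb => ?_⟩
  · rw [hL] at h h' ⊢
    refine ⟨hx, hz, fun t ht => h'.2.2.1 t (h.2.2.1 t ht), fun e => ?_⟩
    exact h.2.2.2 (anti _ _ h.2.2.1 (e ▸ h'.2.2.1))
  · by_cases e : x = y
    · exact Or.inr (Or.inl e)
    · rcases tot x y hx hy with h | h
      · exact Or.inl ((hL _ _).2 ⟨hx, hy, h, e⟩)
      · exact Or.inr (Or.inr ((hL _ _).2 ⟨hy, hx, h, Ne.symm e⟩))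
  · obtain ⟨q, hq⟩ := k4
    obtain ⟨r, hr⟩ := hseg q
    exact ⟨r, segR q r hq hr⟩
  · obtain ⟨q, hq⟩ := ((hR x).1 hx).2.1
    obtain ⟨r, hr⟩ := hseg q
    exact ⟨r, segR q r (((hR x).1 hx).1 q hq) hr, below q r x hx hq hr⟩
  · obtain ⟨a, ha, ha'⟩ := ((hR x).1 hx).2.2.1
    obtain ⟨q, hq, hq'⟩ := (k5 a ha).2
    obtain ⟨r, hr⟩ := hseg q
    exact ⟨r, segR q r hq hr, above a q r x hx ha ha' hq hq' hr⟩
  · obtain ⟨h1, q, h2, h3⟩ := (hQ r).1 hr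
    exact ⟨q, h2, (hg _ _).2 ⟨h1, h2, h3⟩⟩
  · obtain ⟨-, a1, a2⟩ := (hg _ _).1 h
    obtain ⟨-, b1, b2⟩ := (hg _ _).1 h'
    rcases k3 q q' a1 b1 with e | e | e
    · exact absurd ((a2 q).1 ((b2 q).2 ⟨a1, e⟩)).2 (k1 q a1)
    · exact e
    · exact absurd ((b2 q').1 ((a2 q').2 ⟨b1, e⟩)).2 (k1 q' b1)
  · exact hext _ _ fun z => (((hg _ _).1 h).2.2 z).trans (((hg _ _).1 h').2.2 z).symm
  · obtain ⟨-, -, h1, h2⟩ := (hL _ _).1 h
    obtain ⟨a, ha, ha'⟩ : ∃ a, E a y ∧ ¬ E a x := by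
      by_contra hn
      push Not at hn
      exact h2 (anti _ _ h1 hn)
    have hy' := (hR y).1 hy
    obtain ⟨q, hq, hq'⟩ := hy'.2.2.2.2 a ha
    obtain ⟨r, hr⟩ := hseg q
    exact ⟨r, (hQ r).2 ⟨segR q r (hy'.1 q hq) hr, q, hy'.1 q hq, hr⟩,
      above a q r x hx (hy'.1 a ha) ha' (hy'.1 q hq) hq' hr, below q r y hy hq hr⟩
  · obtain ⟨s, hs⟩ := hun A
    have hsub : ∀ b, E b R → (∀ x, E x A → ¬ Maps E L b x) → Sub E s b := by
      intro b hb h z hz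
      obtain ⟨y, hy, hz⟩ := (hs z).1 hz
      exact (nlt b y hb (hA y hy)).1 (h y hy) z hz
    have hsR : E s R := by
      obtain ⟨x, hx⟩ := hne
      obtain ⟨b, hb, hb'⟩ := hb
      refine (hR s).2 ⟨fun z hz => ((hR b).1 hb).1 z (hsub b hb hb' z hz), ?_, ?_,
        fun a c ha hc h => ?_, fun a ha => ?_⟩
      · obtain ⟨z, hz⟩ := ((hR x).1 (hA x hx)).2.1
        exact ⟨z, (hs z).2 ⟨x, hx, hz⟩⟩
      · obtain ⟨z, hz, hz'⟩ := ((hR b).1 hb).2.2.1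
        exact ⟨z, hz, fun h => hz' (hsub b hb hb' z h)⟩
      · obtain ⟨y, hy, hc⟩ := (hs c).1 hc
        exact (hs a).2 ⟨y, hy, ((hR y).1 (hA y hy)).2.2.2.1 a c ha hc h⟩
      · obtain ⟨y, hy, ha⟩ := (hs a).1 ha
        obtain ⟨c, hc, h⟩ := ((hR y).1 (hA y hy)).2.2.2.2 a ha
        exact ⟨c, (hs c).2 ⟨y, hy, hc⟩, h⟩
    exact ⟨s, hsR, fun x hx => (nlt s x hsR (hA x hx)).2 fun z hz => (hs z).2 ⟨x, hx, hz⟩,
      fun b hb h => (nlt b s hb hsR).2 (hsub b hb h)⟩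

end abstract

variable {B : Type u} [CompleteBooleanAlgebra B] {l : Cardinal.{u}} [hl : Fact l.IsInaccessible]

instance Dec.isCut (X Y Z : HName B l) :
    Dec (fun U => IsCut (El l U) (cls U X) (cls U Y) (cls U Z)) := by
  unfold IsCut; infer_instance

/-- the natural numbers as ordinals below `l` -/
abbrev NN (l : Cardinal.{u}) [Fact l.IsInaccessible] : Type u := Iio (oc l ℵ₀)

theorem mk_NN : #(NN l) = ℵ₀ := mk_Iio_oc aleph0_lt_l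

instance : Countable (NN l) := mk_le_aleph0_iff.mp mk_NN.le

instance : Infinite (NN l) := aleph0_le_mk_iff.mp mk_NN.ge

theorem exists_order : ∃ K : SName B l, ∀ U : Ultra B,
    (∀ x, El l U x (ck U (oc l ℵ₀)) → ¬ Maps (El l U) (sm U K) x x) ∧
    (∀ x y z, El l U x (ck U (oc l ℵ₀)) → El l U y (ck U (oc l ℵ₀)) → El l U z (ck U (oc l ℵ₀)) →
      Maps (El l U) (sm U K) x y → Maps (El l U) (sm U K) y z → Maps (El l U) (sm U K) x z) ∧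
    (∀ x y, El l U x (ck U (oc l ℵ₀)) → El l U y (ck U (oc l ℵ₀)) →
      Maps (El l U) (sm U K) x y ∨ x = y ∨ Maps (El l U) (sm U K) y x) ∧
    (∃ x, El l U x (ck U (oc l ℵ₀))) ∧
    (∀ x, El l U x (ck U (oc l ℵ₀)) → (∃ y, El l U y (ck U (oc l ℵ₀)) ∧
      Maps (El l U) (sm U K) y x) ∧ ∃ y, El l U y (ck U (oc l ℵ₀)) ∧ Maps (El l U) (sm U K) x y) ∧
    ∀ x y, El l U x (ck U (oc l ℵ₀)) → El l U y (ck U (oc l ℵ₀)) → Maps (El l U) (sm U K) x y →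
      ∃ z, El l U z (ck U (oc l ℵ₀)) ∧ Maps (El l U) (sm U K) x z ∧ Maps (El l U) (sm U K) z y := by
  classical
  obtain ⟨e⟩ : Nonempty (NN l ≃ ℚ) := nonempty_equiv_of_countable
  have hJ : #{z : NN l × NN l // e z.1 < e z.2} < l :=
    (mk_le_aleph0).trans_lt aleph0_lt_l
  let K : SName B l := relName hJ (fun z => chk B z.1.1.1) (fun z => chk B z.1.2.1) fun _ => ⊤
  have hK : ∀ (U : Ultra B) (a b : NN l),
      Maps (El l U) (sm U K) (ck U a.1) (ck U b.1) ↔ e a < e b := by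
    intro U a b
    refine ⟨fun h => ?_, fun h => maps_relName hJ (fun z => chk B z.1.1.1)
      (fun z => chk B z.1.2.1) (fun _ => ⊤) ⟨(a, b), h⟩ U.top_mem⟩
    refine wlog_rel _ _ hJ _ _ _ U h ?_
    rintro U ⟨⟨a', b'⟩, h⟩ - e1 e2
    rwa [Subtype.ext (ck_inj e1 : a.1 = a'.1), Subtype.ext (ck_inj e2 : b.1 = b'.1)]
  refine ⟨K, fun U => ⟨fun x hx => ?_, fun x y z hx hy hz => ?_, fun x y hx hy => ?_, ?_,
    fun x hx => ?_, fun x y hx hy => ?_⟩⟩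
  · obtain ⟨X, rfl⟩ := cls_surj x
    refine wlog_ck X _ U hx ?_
    intro U a ha e1
    rw [e1, hK U ⟨a, ha⟩ ⟨a, ha⟩]
    exact lt_irrefl _
  · obtain ⟨X, rfl⟩ := cls_surj x
    obtain ⟨Y, rfl⟩ := cls_surj y
    obtain ⟨Z, rfl⟩ := cls_surj z
    revert hy hz
    refine wlog_ck X _ U hx ?_
    intro U a ha e1 hy hz
    rw [e1]
    clear e1
    revert hz
    refine wlog_ck Y _ U hy ?_
    intro U b hb e1 hz
    rw [e1]
    clear e1
    refine wlog_ck Z _ U hz ?_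
    intro U c hc e1
    rw [e1, hK U ⟨a, ha⟩ ⟨b, hb⟩, hK U ⟨b, hb⟩ ⟨c, hc⟩, hK U ⟨a, ha⟩ ⟨c, hc⟩]
    exact lt_trans
  · obtain ⟨X, rfl⟩ := cls_surj x
    obtain ⟨Y, rfl⟩ := cls_surj y
    revert hy
    refine wlog_ck X _ U hx ?_
    intro U a ha e1 hy
    rw [e1]
    clear e1
    refine wlog_ck Y _ U hy ?_
    intro U b hb e1
    rw [e1, hK U ⟨a, ha⟩ ⟨b, hb⟩, hK U ⟨b, hb⟩ ⟨a, ha⟩]
    refine (lt_trichotomy _ _).imp id (Or.imp (fun h => ?_) id)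
    rw [show a = b from congrArg Subtype.val (e.injective h)]
  · exact ⟨_, el_ck_of_lt (e.symm 0).2⟩
  · obtain ⟨X, rfl⟩ := cls_surj x
    refine wlog_ck X _ U hx ?_
    intro U a ha e1
    rw [e1]
    refine ⟨⟨_, el_ck_of_lt (e.symm (e ⟨a, ha⟩ - 1)).2, (hK U _ ⟨a, ha⟩).2 (by simp)⟩,
      _, el_ck_of_lt (e.symm (e ⟨a, ha⟩ + 1)).2, (hK U ⟨a, ha⟩ _).2 (by simp)⟩
  · obtain ⟨X, rfl⟩ := cls_surj x
    obtain ⟨Y, rfl⟩ := cls_surj y
    revert hy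
    refine wlog_ck X _ U hx ?_
    intro U a ha e1 hy
    rw [e1]
    clear e1
    refine wlog_ck Y _ U hy ?_
    intro U b hb e1
    rw [e1, hK U ⟨a, ha⟩ ⟨b, hb⟩]
    intro h
    obtain ⟨c, h1, h2⟩ := exists_between h
    exact ⟨_, el_ck_of_lt (e.symm c).2, (hK U ⟨a, ha⟩ _).2 (by simpa),
      (hK U _ ⟨b, hb⟩).2 (by simpa)⟩

theorem exists_real (hT : Tame B l) (U : Ultra B) :
    ∃ R L, IsReal (El l U) (ck U (oc l ℵ₀)) R L := by
  obtain ⟨K, hK⟩ := exists_order (B := B) (l := l)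
  obtain ⟨k1, k2, k3, k4, k5, k6⟩ := hK U
  obtain ⟨P, hP⟩ := md_power hT U (ck U (oc l ℵ₀))
  obtain ⟨R, hR⟩ := md_sep (fun U r => IsCut (El l U) (ck U (oc l ℵ₀)) (sm U K) r) U P
  obtain ⟨L, -, hL⟩ := md_rel hT (fun U r s => Sub (El l U) r s ∧ r ≠ s) U R R
  obtain ⟨Q, hQ⟩ := md_sep (fun U r => ∃ q, El l U q (ck U (oc l ℵ₀)) ∧
    ∀ z, El l U z r ↔ El l U z (ck U (oc l ℵ₀)) ∧ Maps (El l U) (sm U K) z q) U R
  obtain ⟨g, -, hg⟩ := md_rel hT (fun U r q =>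
    ∀ z, El l U z r ↔ El l U z (ck U (oc l ℵ₀)) ∧ Maps (El l U) (sm U K) z q) U R (ck U (oc l ℵ₀))
  refine ⟨R, L, isReal_of_cuts (md_ext U) (md_union U) k1 k2 k3 k4 k5 k6
    (fun r => (hR r).trans ⟨fun h => h.2, fun h => ⟨(hP r).2 h.1, h⟩⟩) hL (fun q => ?_) hQ hg⟩
  obtain ⟨q, rfl⟩ := cls_surj q
  exact md_sep (fun U z => Maps (El l U) (sm U K) z (cls U q)) U _

/-- names for the real line and for a countable dense set -/
structure RealData (B : Type u) [CompleteBooleanAlgebra B] (l : Cardinal.{u})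
    [Fact l.IsInaccessible] where
  R : SName B l
  L : SName B l
  q : NN l → SName B l
  real : ∀ U : Ultra B, IsReal (El l U) (ck U (oc l ℵ₀)) (sm U R) (sm U L)
  q_mem : ∀ (U : Ultra B) n, El l U (sm U (q n)) (sm U R)
  dense : ∀ (X Y : HName B l) (U : Ultra B), El l U (cls U X) (sm U R) →
    El l U (cls U Y) (sm U R) → Maps (El l U) (sm U L) (cls U X) (cls U Y) →
    ⨆ n, bv (fun U => Maps (El l U) (sm U L) (cls U X) (sm U (q n)) ∧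
      Maps (El l U) (sm U L) (sm U (q n)) (cls U Y)) ∈ U

theorem exists_realData (hB : #B < l) : Nonempty (RealData B l) := by
  have hT := tame_of_small hB
  obtain ⟨R, hR⟩ := exists_switness hB (fun U R => ∃ L, IsReal (El l U) (ck U (oc l ℵ₀)) R L)
  obtain ⟨L, hL⟩ := exists_switness hB (fun U L => IsReal (El l U) (ck U (oc l ℵ₀)) (sm U R) L)
  have hr := fun U => hL U (hR U (exists_real hT U))
  obtain ⟨Q, hQ⟩ := exists_witness (fun U Q => Sub (El l U) Q (sm U R) ∧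
    Inj (El l U) Q (ck U (oc l ℵ₀)) ∧ ∀ x y, El l U x (sm U R) → El l U y (sm U R) →
      Maps (El l U) (sm U L) x y → ∃ q, El l U q Q ∧ Maps (El l U) (sm U L) x q ∧
        Maps (El l U) (sm U L) q y)
  replace hQ := fun U => hQ U (hr U).2.2.2.2.2.1
  obtain ⟨g, hg⟩ := exists_witness (fun U f =>
    (∀ x, El l U x (cls U Q) → ∃ y, El l U y (ck U (oc l ℵ₀)) ∧ Maps (El l U) f x y) ∧
    (∀ x y y', Maps (El l U) f x y → Maps (El l U) f x y' → y = y') ∧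
    (∀ x x' y, Maps (El l U) f x y → Maps (El l U) f x' y → x = x'))
  replace hg := fun U => hg U (hQ U).2.1
  have hq := fun n : NN l => exists_switness hB (fun U z => El l U z (sm U R) ∧
    ∀ z', El l U z' (sm U R) → Maps (El l U) (cls U g) z' (ck U n.1) → z' = z)
  choose q hq using hq
  replace hq := fun n U => hq n U (by
    by_cases h : ∃ z, El l U z (sm U R) ∧ Maps (El l U) (cls U g) z (ck U n.1)
    · obtain ⟨z, h1, h2⟩ := h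
      exact ⟨z, h1, fun z' _ h => (hg U).2.2 _ _ _ h h2⟩
    · obtain ⟨z, hz⟩ := (hr U).2.2.2.1
      exact ⟨z, hz, fun z' h1 h2 => absurd ⟨z', h1, h2⟩ h⟩)
  refine ⟨⟨R, L, q, hr, fun U n => (hq n U).1, fun X Y U hX hY h => ?_⟩⟩
  obtain ⟨z, h1, h2, h3⟩ := (hQ U).2.2 _ _ hX hY h
  obtain ⟨n, h4, h5⟩ := (hg U).1 z h1
  obtain ⟨Z, rfl⟩ := cls_surj z
  obtain ⟨N, rfl⟩ := cls_surj n
  clear hX hY h
  revert h1 h2 h3 h5
  refine wlog_ck N _ U h4 ?_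
  intro U n hn e h1 h2 h3 h5
  rw [e] at h5
  rw [(hq ⟨n, hn⟩ U).2 _ ((hQ U).1 _ h1) h5] at h2 h3
  exact iSup_mem_of_mem ⟨n, hn⟩ (bv_mem.mpr ⟨h2, h3⟩)

@[elab_as_elim]
theorem RealData.wlog_q (ρ : RealData B l) {Φ : Ultra B → Prop} (X Y : HName B l) (U : Ultra B)
    (hX : El l U (cls U X) (sm U ρ.R)) (hY : El l U (cls U Y) (sm U ρ.R))
    (h : Maps (El l U) (sm U ρ.L) (cls U X) (cls U Y)) [Dec Φ]
    (H : ∀ U n, Maps (El l U) (sm U ρ.L) (cls U X) (sm U (ρ.q n)) →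
      Maps (El l U) (sm U ρ.L) (sm U (ρ.q n)) (cls U Y) → Φ U) : Φ U :=
  wlog_sup _ U (ρ.dense X Y U hX hY h) fun U n hn => H U n (bv_mem.mp hn).1 (bv_mem.mp hn).2

end Pool.Agent.Lib.MP_23bd8d_gt
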