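import Mathlib

/-! Closures of countable unions of discrete subsets of `C_p(X)`. -/

open Set Filter Topology

namespace Pool.Agent.Lib.MP_23bd8d_gt

theorem fu_iff {Y : Type} [TopologicalSpace Y] (S : Set Y) :
    FrechetUrysohnSpace S ↔ ∀ Z ⊆ S, ∀ g ∈ S, g ∈ closure Z → g ∈ seqClosure Z := by
  constructor
  · intro h Z hZ g hg hgZ
    have h1 : (⟨g, hg⟩ : S) ∈ closure ((↑) ⁻¹' Z : Set S) := by
      rw [IsInducing.subtypeVal.closure_eq_preimage_closure_image, Subtype.image_preimage_coe,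
        inter_eq_right.2 hZ]
      exact hgZ
    obtain ⟨u, hu, hu'⟩ := h.closure_subset_seqClosure _ h1
    exact ⟨fun n => u n, hu, (continuous_subtype_val.tendsto _).comp hu'⟩
  · intro h
    refine ⟨fun Z g hg => ?_⟩
    rw [IsInducing.subtypeVal.closure_eq_preimage_closure_image] at hg
    obtain ⟨u, hu, hu'⟩ := h _ (Subtype.coe_image_subset S Z) g g.2 hg
    choose v hv hv' using hu
    refine ⟨v, hv, ?_⟩
    rw [tendsto_subtype_rng]
    simpa only [hv'] using hu'

theorem discrete_iff {Y : Type} [TopologicalSpace Y] (D : Set Y) :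
    DiscreteTopology D ↔ ∀ a ∈ D, ∃ U ∈ 𝓝 a, ∀ b ∈ D, b ∈ U → b = a := by
  rw [discreteTopology_subtype_iff']
  refine forall₂_congr fun a ha => ⟨?_, ?_⟩
  · rintro ⟨U, hU, e⟩
    have haU : a ∈ U ∩ D := e ▸ mem_singleton a
    exact ⟨U, hU.mem_nhds haU.1, fun b hb hbU => by
      have : b ∈ U ∩ D := ⟨hbU, hb⟩
      rwa [e] at this⟩
  · rintro ⟨U, hU, h⟩
    obtain ⟨V, hVU, hV, haV⟩ := mem_nhds_iff.1 hU
    exact ⟨V, hV, Subset.antisymm (fun b hb => h b hb.2 (hVU hb.1))
      (by rintro b rfl; exact ⟨haV, ha⟩)⟩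

variable {X : Type} [TopologicalSpace X]

/-- Sum of two continuous functions with a scalar. -/
def addSmul (f : {f : X → ℝ | Continuous f}) (c : ℝ) (v : {f : X → ℝ | Continuous f}) :
    {f : X → ℝ | Continuous f} :=
  ⟨fun x => f.1 x + c * v.1 x, f.2.add (continuous_const.mul v.2)⟩

/-- The constant function one. -/
def one' : {f : X → ℝ | Continuous f} := ⟨fun _ => 1, continuous_const⟩

theorem continuous_ev (x : X) : Continuous fun f : {f : X → ℝ | Continuous f} => f.1 x :=
  (continuous_apply x).comp continuous_subtype_val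

theorem continuous_addSmul {T : Type} [TopologicalSpace T] {f : T → {f : X → ℝ | Continuous f}}
    {c : T → ℝ} (hf : Continuous f) (hc : Continuous c) (v : {f : X → ℝ | Continuous f}) :
    Continuous fun t => addSmul (f t) (c t) v := by
  refine Continuous.subtype_mk (continuous_pi fun x => ?_) _
  exact ((continuous_ev x).comp hf).add (hc.mul continuous_const)

theorem tendsto_iff {ι : Type} {l : Filter ι} {u : ι → {f : X → ℝ | Continuous f}}
    {g : {f : X → ℝ | Continuous f}} :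
    Tendsto u l (𝓝 g) ↔ ∀ x, Tendsto (fun n => (u n).1 x) l (𝓝 (g.1 x)) := by
  rw [tendsto_subtype_rng, tendsto_pi_nhds]

/-- A countable family of discrete sets of functions vanishing at `x₀`. -/
theorem fu_of_vanishing
    (H : ∀ D : Set {f : X → ℝ | Continuous f}, DiscreteTopology D → FrechetUrysohnSpace (closure D))
    (x₀ : X) {ι : Type} [Countable ι] (B : ι → Set {f : X → ℝ | Continuous f})
    (hB : ∀ i, DiscreteTopology (B i)) (h0 : ∀ i, ∀ f ∈ B i, f.1 x₀ = 0) :
    FrechetUrysohnSpace (closure (⋃ i, B i)) := by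
  obtain ⟨e, he⟩ := exists_injective_nat (ι × ℕ)
  let D : Set {f : X → ℝ | Continuous f} :=
    {g | ∃ p : ι × ℕ, ∃ f ∈ B p.1, g = addSmul f (1 / ((e p : ℝ) + 1)) one'}
  have hD : DiscreteTopology D := by
    rw [discrete_iff]
    rintro _ ⟨p, f, hf, rfl⟩
    obtain ⟨U, hU, hU'⟩ := (discrete_iff _).1 (hB p.1) f hf
    have hc : Continuous fun g : {f : X → ℝ | Continuous f} =>
        addSmul g (-(1 / ((e p : ℝ) + 1))) one' := continuous_addSmul continuous_id continuous_const _
    have hback : ∀ f : {f : X → ℝ | Continuous f}, ∀ c : ℝ,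
        addSmul (addSmul f c one') (-c) one' = f := fun f c =>
      Subtype.ext (funext fun x => by simp [addSmul])
    have h1 : (fun g => addSmul g (-(1 / ((e p : ℝ) + 1))) one') ⁻¹' U ∈
        𝓝 (addSmul f (1 / ((e p : ℝ) + 1)) one') := hc.continuousAt.preimage_mem_nhds (by
      rw [hback]; exact hU)
    have h2 : {g : {f : X → ℝ | Continuous f} |
        1 / ((e p : ℝ) + 2) < g.1 x₀ ∧ (e p : ℝ) * g.1 x₀ < 1} ∈
        𝓝 (addSmul f (1 / ((e p : ℝ) + 1)) one') := by
      refine IsOpen.mem_nhds ((isOpen_lt continuous_const (continuous_ev x₀)).inter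
        (isOpen_lt (continuous_const.mul (continuous_ev x₀)) continuous_const)) ?_
      have hp : (0 : ℝ) < (e p : ℝ) + 1 := by positivity
      simp only [mem_ofPred_eq, addSmul, one', h0 _ f hf, zero_add, mul_one]
      exact ⟨one_div_lt_one_div_of_lt hp (by linarith), by rw [mul_one_div, div_lt_one hp]; linarith⟩
    refine ⟨_, inter_mem h1 h2, ?_⟩
    rintro _ ⟨q, f', hf', rfl⟩ ⟨h3, h4, h5⟩
    simp only [addSmul, one', h0 _ f' hf', zero_add, mul_one] at h4 h5
    have hq : (0 : ℝ) < (e q : ℝ) + 1 := by positivity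
    have h6 : (e q : ℝ) + 1 < (e p : ℝ) + 2 := lt_of_one_div_lt_one_div (by positivity) h4
    rw [mul_one_div, div_lt_one hq] at h5
    have h7 : e q = e p := by
      have a : e q + 1 < e p + 2 := by exact_mod_cast h6
      have b : e p < e q + 1 := by exact_mod_cast h5
      omega
    obtain rfl := he h7
    rw [mem_preimage, hback] at h3
    rw [hU' f' hf' h3]
  have hsub : closure (⋃ i, B i) ⊆ closure D := by
    refine closure_minimal (iUnion_subset fun i f hf => ?_) isClosed_closure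
    have ht : Tendsto (fun n : ℕ => e (i, n)) atTop atTop := by
      rw [← Nat.cofinite_eq_atTop]
      exact (he.comp (Prod.mk_right_injective i)).tendsto_cofinite
    refine mem_closure_of_tendsto (f := fun n : ℕ => addSmul f (1 / ((e (i, n) : ℝ) + 1)) one')
      (b := atTop) (tendsto_iff.2 fun x => ?_) (Eventually.of_forall fun n => ⟨(i, n), f, hf, rfl⟩)
    have := (tendsto_one_div_add_atTop_nhds_zero_nat (𝕜 := ℝ)).comp ht
    simpa [addSmul, one'] using this.const_add (f.1 x)
  have := H D hD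
  exact (IsEmbedding.inclusion hsub).isInducing.frechetUrysohnSpace

theorem fu_sigma
    (H : ∀ D : Set {f : X → ℝ | Continuous f}, DiscreteTopology D → FrechetUrysohnSpace (closure D))
    (A : ℕ → Set {f : X → ℝ | Continuous f}) (hA : ∀ n, DiscreteTopology (A n)) :
    FrechetUrysohnSpace (closure (⋃ n, A n)) := by
  by_cases hv : ∃ (v : {f : X → ℝ | Continuous f}) (x₀ x₁ : X), v.1 x₀ = 0 ∧ v.1 x₁ = 1
  swap
  · rcases isEmpty_or_nonempty X with hX | ⟨⟨x₀⟩⟩
    · infer_instance
    have hconst : ∀ (f : {f : X → ℝ | Continuous f}) x, f.1 x = f.1 x₀ := by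
      intro f x
      by_contra hne
      refine hv ⟨⟨fun y => (f.1 y - f.1 x₀) / (f.1 x - f.1 x₀),
        (f.2.sub continuous_const).div_const _⟩, x₀, x, by simp, div_self (sub_ne_zero.2 hne)⟩
    have : IsInducing fun f : {f : X → ℝ | Continuous f} => f.1 x₀ := by
      refine isInducing_iff_nhds.2 fun g => le_antisymm
        ((continuous_ev x₀).tendsto g).le_comap ?_
      refine tendsto_id'.1 (tendsto_iff.2 fun x => ?_)
      simp only [id, hconst _ x]
      exact tendsto_comap
    have := this.frechetUrysohnSpace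
    infer_instance
  obtain ⟨v, x₀, x₁, hv0, hv1⟩ := hv
  let π : {f : X → ℝ | Continuous f} → {f : X → ℝ | Continuous f} :=
    fun f => addSmul f (-(f.1 x₀)) one'
  have hπ : Continuous π := continuous_addSmul continuous_id (continuous_ev x₀).neg _
  have hrec : ∀ f, addSmul (π f) (f.1 x₀) one' = f := fun f =>
    Subtype.ext (funext fun x => by simp [π, addSmul, one'])
  -- pieces
  let P : ℕ × ℚ × ℚ → Set {f : X → ℝ | Continuous f} := fun p =>
    {f | f ∈ A p.1 ∧ f.1 x₀ ∈ Ioo (p.2.1 : ℝ) p.2.2 ∧ ∃ U ∈ 𝓝 (π f), ∀ g ∈ A p.1,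
      g.1 x₀ ∈ Ioo (p.2.1 : ℝ) p.2.2 → π g ∈ U → g = f}
  have hP : ∀ n, ∀ f ∈ A n, ∃ q r, f ∈ P (n, q, r) := by
    intro n f hf
    obtain ⟨U, hU, hU'⟩ := (discrete_iff _).1 (hA n) f hf
    have hc : Continuous fun p : {f : X → ℝ | Continuous f} × ℝ => addSmul p.1 p.2 one' :=
      continuous_addSmul continuous_fst continuous_snd _
    have h1 := (hc.continuousAt (x := (π f, f.1 x₀))).preimage_mem_nhds (t := U) (by
      simpa only [hrec] using hU)
    obtain ⟨V, hV, I, hI, hVI⟩ := mem_nhds_prod_iff.1 h1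
    obtain ⟨a, b, hab, hI'⟩ := mem_nhds_iff_exists_Ioo_subset.1 hI
    obtain ⟨q, hq1, hq2⟩ := exists_rat_btwn hab.1
    obtain ⟨r, hr1, hr2⟩ := exists_rat_btwn hab.2
    refine ⟨q, r, hf, ⟨hq2, hr1⟩, V, hV, fun g hg hg1 hg2 => hU' g hg ?_⟩
    have := hVI (mk_mem_prod hg2 (hI' ⟨hq1.trans hg1.1, hg1.2.trans hr2⟩))
    simpa only [mem_preimage, hrec] using this
  let c : ℕ → ℝ := fun k => 1 / ((k : ℝ) + 1)
  have hc0 : Tendsto c atTop (𝓝 0) := tendsto_one_div_add_atTop_nhds_zero_nat
  have hcpos : ∀ k, 0 < c k := fun k => by positivity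
  let B : (ℕ × ℚ × ℚ) × ℕ → Set {f : X → ℝ | Continuous f} := fun p =>
    (fun f => addSmul (π f) (c p.2) v) '' P p.1
  have hback : ∀ f : {f : X → ℝ | Continuous f}, ∀ t : ℝ,
      addSmul (addSmul f t v) (-t) v = f := fun f c =>
    Subtype.ext (funext fun x => by simp [addSmul])
  have hB : ∀ p, DiscreteTopology (B p) := by
    intro p
    rw [discrete_iff]
    rintro _ ⟨f, ⟨hf1, hf2, U, hU, hU'⟩, rfl⟩
    have hc : Continuous fun g : {f : X → ℝ | Continuous f} => addSmul g (-(c p.2)) v :=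
      continuous_addSmul continuous_id continuous_const _
    refine ⟨_, hc.continuousAt.preimage_mem_nhds (t := U) (by rw [hback]; exact hU), ?_⟩
    rintro _ ⟨g, ⟨hg1, hg2, -⟩, rfl⟩ hg
    rw [mem_preimage, hback] at hg
    rw [hU' g hg1 hg2 hg]
  have hY := (fu_iff _).1 (fu_of_vanishing H x₀ B hB (by
    rintro p _ ⟨f, -, rfl⟩
    simp [π, addSmul, one', hv0]))
  have hmem : ∀ k, ∀ f ∈ closure (⋃ n, A n), addSmul (π f) (c k) v ∈ closure (⋃ p, B p) := by
    intro k f hf
    refine map_mem_closure (f := fun f => addSmul (π f) (c k) v)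
      (continuous_addSmul hπ continuous_const v) hf fun g hg => ?_
    obtain ⟨n, hn⟩ := mem_iUnion.1 hg
    obtain ⟨q, r, h⟩ := hP n g hn
    exact mem_iUnion.2 ⟨((n, q, r), k), g, h, rfl⟩
  have hlim : ∀ f, Tendsto (fun k => addSmul f (c k) v) atTop (𝓝 f) := fun f =>
    tendsto_iff.2 fun x => by simpa [addSmul] using (hc0.mul_const (v.1 x)).const_add (f.1 x)
  rw [fu_iff]
  intro Z hZ g hg hgZ
  let W : Set {f : X → ℝ | Continuous f} := {h | ∃ k, ∃ f ∈ Z, |f.1 x₀ - g.1 x₀| < c k ∧
    |(π f).1 x₁ - (π g).1 x₁| < c k / 2 ∧ h = addSmul (π f) (c k) v}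
  have hW : π g ∈ closure W := by
    refine isClosed_closure.mem_of_tendsto (hlim (π g)) (Eventually.of_forall fun k => ?_)
    have ho : IsOpen {f : {f : X → ℝ | Continuous f} | |f.1 x₀ - g.1 x₀| < c k ∧
        |(π f).1 x₁ - (π g).1 x₁| < c k / 2} :=
      (isOpen_lt ((continuous_ev x₀).sub continuous_const).abs continuous_const).inter
        (isOpen_lt (((continuous_ev x₁).comp hπ).sub continuous_const).abs continuous_const)
    have h1 := ho.inter_closure ⟨show g ∈ _ from ⟨by simpa using hcpos k,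
      by simpa using hcpos k⟩, hgZ⟩
    refine map_mem_closure (f := fun f => addSmul (π f) (c k) v)
      (continuous_addSmul hπ continuous_const v) h1 fun f hf => ⟨k, f, hf.2, hf.1.1, hf.1.2, rfl⟩
  obtain ⟨u, hu, hu'⟩ := hY W (by rintro _ ⟨k, f, hf, -, -, rfl⟩; exact hmem k f (hZ hf)) (π g)
    (isClosed_closure.mem_of_tendsto (hlim (π g)) (Eventually.of_forall fun k => hmem k g hg)) hW
  choose k f hf h1 h2 h3 using hu
  have hck : Tendsto (fun j => c (k j)) atTop (𝓝 0) := by
    have h4 := ((tendsto_iff.1 hu' x₁).sub_const ((π g).1 x₁)).const_mul 2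
    rw [sub_self, mul_zero] at h4
    refine squeeze_zero (fun j => (hcpos _).le) (fun j => ?_) h4
    have h5 := (abs_lt.1 (h2 j)).1
    have h6 : (u j).1 x₁ = (π (f j)).1 x₁ + c (k j) := by rw [h3 j]; simp [addSmul, hv1]
    linarith
  have h7 : Tendsto (fun j => (f j).1 x₀) atTop (𝓝 (g.1 x₀)) := by
    rw [tendsto_iff_norm_sub_tendsto_zero]
    exact squeeze_zero (fun j => norm_nonneg _) (fun j => (h1 j).le) hck
  refine ⟨f, hf, tendsto_iff.2 fun x => ?_⟩
  have h8 := ((tendsto_iff.1 hu' x).sub (hck.mul_const (v.1 x))).add h7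
  have e1 : (π g).1 x - 0 * v.1 x + g.1 x₀ = g.1 x := by simp [π, addSmul, one']
  rw [e1] at h8
  refine h8.congr fun j => ?_
  rw [h3 j]
  simp [π, addSmul, one']

end Pool.Agent.Lib.MP_23bd8d_gt
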