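import Pool.Agent.Lib.MP_23bd8d_gt.Sigma

/-! Subsets of `C_p(X)` that are not larger than a discrete subset. -/

set_option autoImplicit false

open Set Filter Topology Cardinal

namespace Pool.Agent.Lib.MP_23bd8d_gt

variable {X : Type} [TopologicalSpace X]

variable (X) in
/-- Continuous functions with the topology of pointwise convergence. -/
abbrev CX : Type := {f : X → ℝ | Continuous f}

variable (X) in
/-- Closures of discrete sets are Frechet-Urysohn. -/
def HX : Prop := ∀ D : Set (CX X), DiscreteTopology D → FrechetUrysohnSpace (closure D)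

/-- The range of a continuous function contains no interval. -/
theorem exists_gap (H : HX X) (f : CX X) {a b : ℝ} (hab : a < b) :
    ∃ c ∈ Icc a b, ∀ x, f.1 x ≠ c := by
  by_contra hc
  push Not at hc
  have hf : Continuous f.1 := f.2
  have hba : 0 < b - a := sub_pos.2 hab
  let s : ℝ := 4 / (b - a)
  have hs : 0 < s := by positivity
  let u : ℕ → CX X := fun n => ⟨fun x => Real.sin (((n + 1 : ℕ) : ℝ) * s * f.1 x), by
    change Continuous _
    fun_prop⟩
  have hF := (fu_iff _).1 (fu_sigma H (fun n => {u n}) fun n => inferInstance)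
  rw [iUnion_singleton_eq_range] at hF
  have h0 : (⟨fun _ => 0, continuous_const⟩ : CX X) ∈ closure (range u) := by
    rw [IsInducing.subtypeVal.closure_eq_preimage_closure_image]
    let z : X → Circle := fun x => Circle.exp (s * f.1 x)
    have h1 := (mapClusterPt_one_atTop_pow z).continuousAt_comp
      (f := fun (w : X → Circle) x => (w x : ℂ).im) (continuous_pi fun x =>
        Complex.continuous_im.comp (continuous_subtype_val.comp (continuous_apply x))).continuousAt
    refine mem_closure_iff_clusterPt.2 (ClusterPt.mono (by simpa using h1.clusterPt) ?_)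
    rw [le_principal_iff, mem_map]
    filter_upwards [eventually_gt_atTop 0] with n hn
    obtain ⟨n, rfl⟩ := Nat.exists_eq_add_one.2 hn
    refine ⟨u n, mem_range_self n, funext fun x => ?_⟩
    change Real.sin _ = ((z x ^ (n + 1) : Circle) : ℂ).im
    rw [← Circle.exp_natCast_mul, Circle.coe_exp, Complex.exp_ofReal_mul_I_im, mul_assoc]
  obtain ⟨v, hv, hv'⟩ := hF _ subset_closure _ h0 h0
  choose n hn using hv
  have h2 := intervalIntegral.tendsto_integral_filter_of_dominated_convergence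
    (μ := MeasureTheory.volume) (l := atTop) (a := a) (b := b) (f := fun _ => (0 : ℝ))
    (F := fun j t => Real.sin (((n j + 1 : ℕ) : ℝ) * s * t) ^ 2) (fun _ => 1)
    (.of_forall fun j => Continuous.aestronglyMeasurable (by fun_prop))
    (.of_forall fun j => .of_forall fun t _ => by
      rw [Real.norm_eq_abs, abs_of_nonneg (sq_nonneg _)]
      exact Real.sin_sq_le_one _) (by simp)
    (.of_forall fun t ht => by
      rw [uIoc_of_le hab.le] at ht
      obtain ⟨x, rfl⟩ := hc t (Ioc_subset_Icc_self ht)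
      have := (tendsto_iff.1 hv' x).pow 2
      simp only [← hn] at this
      simpa [u] using this)
  rw [intervalIntegral.integral_zero] at h2
  obtain ⟨j, hj⟩ := (h2.eventually (gt_mem_nhds (show (0 : ℝ) < (b - a) / 4 by positivity))).exists
  have h3 : s ≤ ((n j + 1 : ℕ) : ℝ) * s := le_mul_of_one_le_left hs.le (by simp)
  generalize ((n j + 1 : ℕ) : ℝ) * s = c at hj h3
  have h4 : 0 < c := hs.trans_le h3
  rw [intervalIntegral.integral_comp_mul_left (fun t => Real.sin t ^ 2) h4.ne', integral_sin_sq,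
    smul_eq_mul, inv_mul_lt_iff₀ h4] at hj
  have h5 : 4 ≤ c * (b - a) := (div_le_iff₀ hba).1 h3
  nlinarith [Real.sin_sq_add_cos_sq (c * a), Real.sin_sq_add_cos_sq (c * b),
    sq_nonneg (Real.sin (c * a) + Real.cos (c * a)), sq_nonneg (Real.sin (c * b) - Real.cos (c * b))]

/-- Approximation by integer valued functions. -/
theorem exists_step (H : HX X) (f : CX X) (r : ℝ) :
    ∃ k : X → ℤ, Continuous k ∧ ∀ x, |(k x : ℝ) - r * f.1 x| < 1 := by
  have hf : Continuous fun x => r * f.1 x := continuous_const.mul f.2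
  choose c hc hc' using fun k : ℤ =>
    exists_gap H ⟨_, hf⟩ (a := k + 1 / 3) (b := k + 2 / 3) (by linarith)
  have h1 : ∀ x, ∃ k : ℤ, c (k - 1) < r * f.1 x ∧ r * f.1 x < c k := fun x => by
    have a1 := Int.floor_le (r * f.1 x)
    have a2 := Int.lt_floor_add_one (r * f.1 x)
    rcases lt_or_gt_of_ne (hc' ⌊r * f.1 x⌋ x) with h | h
    · refine ⟨_, ?_, h⟩
      have := (hc (⌊r * f.1 x⌋ - 1)).2
      push_cast at this
      linarith
    · refine ⟨⌊r * f.1 x⌋ + 1, by simpa using h, ?_⟩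
      have := (hc (⌊r * f.1 x⌋ + 1)).1
      push_cast at this
      linarith
  have h2 : ∀ (t : ℝ) (k l : ℤ), c (k - 1) < t → t < c l → k ≤ l := fun t k l a b => by
    by_contra h
    rcases (show l ≤ k - 1 by omega).eq_or_lt with e | e
    · rw [e] at b
      linarith
    · have : (l : ℝ) + 1 ≤ (k - 1 : ℤ) := by exact_mod_cast e
      linarith [(hc l).2, (hc (k - 1)).1]
  choose k h3 h4 using h1
  refine ⟨k, ((IsLocallyConstant.iff_eventually_eq k).2 fun x => ?_).continuous, fun x => ?_⟩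
  · filter_upwards [hf.continuousAt.eventually (Ioo_mem_nhds (h3 x) (h4 x))] with y hy
    exact le_antisymm (h2 _ _ _ (h3 y) hy.2) (h2 _ _ _ hy.1 (h4 y))
  · have a := (hc (k x - 1)).1
    push_cast at a
    rw [abs_lt]
    constructor <;> linarith [h3 x, h4 x, (hc (k x)).2]

theorem nhds_fin {g : CX X} {U : Set (CX X)} (hU : U ∈ 𝓝 g) : ∃ (F : Set X) (N : ℕ), F.Finite ∧
    ∀ f : CX X, (∀ x ∈ F, |f.1 x - g.1 x| < 3 / ((N : ℝ) + 1)) → f ∈ U := by
  obtain ⟨V, hV, h⟩ := (mem_nhds_induced _ _ _).1 hU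
  rw [nhds_pi] at hV
  obtain ⟨F, hF, t, ht, h'⟩ := mem_pi.1 hV
  choose ε h0 hε using fun x => Metric.mem_nhds_iff.1 (ht x)
  have h1 : Tendsto (fun N : ℕ => 3 / ((N : ℝ) + 1)) atTop (𝓝 0) := by
    simpa [div_eq_mul_inv] using (tendsto_one_div_add_atTop_nhds_zero_nat (𝕜 := ℝ)).const_mul 3
  obtain ⟨N, hN⟩ := ((eventually_all_finite hF).2 fun x _ => h1.eventually (gt_mem_nhds (h0 x))).exists
  exact ⟨F, N, hF, fun f hf => h (h' fun x hx => hε x ((hf x hx).trans (hN x hx)))⟩

/-- An integer valued function with a tag in the fractional part. -/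
noncomputable def tag (r : ℝ) (k : X → ℤ) (hk : Continuous k) (d : CX X) : CX X :=
  ⟨fun x => ((k x : ℝ) + Real.sigmoid (d.1 x)) / r,
    (((continuous_of_discreteTopology (f := ((↑) : ℤ → ℝ))).comp hk).add (continuous_sigmoid.comp d.2)).div_const r⟩

theorem tendsto_tag {ι : Type} {l : Filter ι} {r : ℝ} (hr : r ≠ 0) {k : ι → X → ℤ}
    {hk : ∀ i, Continuous (k i)} {d : ι → CX X} {i : ι}
    (h : Tendsto (fun j => tag r (k j) (hk j) (d j)) l (𝓝 (tag r (k i) (hk i) (d i)))) :
    Tendsto d l (𝓝 (d i)) ∧ ∀ x, Tendsto (fun j => (k j x : ℝ)) l (𝓝 (k i x)) := by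
  have h1 : ∀ x, Tendsto (fun j => (k j x : ℝ) + Real.sigmoid ((d j).1 x)) l
      (𝓝 ((k i x : ℝ) + Real.sigmoid ((d i).1 x))) := fun x => by
    simpa only [tag, div_mul_cancel₀ _ hr] using (tendsto_iff.1 h x).mul_const r
  have h2 : ∀ (m : ℤ) (t : ℝ), Int.fract ((m : ℝ) + Real.sigmoid t) = Real.sigmoid t := fun m t => by
    rw [Int.fract_intCast_add, Int.fract_eq_self.2 ⟨Real.sigmoid_nonneg t, Real.sigmoid_lt_one t⟩]
  have h3 : ∀ x, Tendsto (fun j => Real.sigmoid ((d j).1 x)) l (𝓝 (Real.sigmoid ((d i).1 x))) :=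
    fun x => by
      have := (continuousAt_fract (fun e => (Real.sigmoid_pos ((d i).1 x)).ne' (by
        rw [← h2 (k i x), Int.fract, sub_eq_zero, ← e]))).tendsto.comp (h1 x)
      simpa only [Function.comp_def, h2] using this
  refine ⟨tendsto_iff.2 fun x => ?_, fun x => by simpa using (h1 x).sub (h3 x)⟩
  exact (Real.sigmoid_strictMono.isEmbedding_of_ordConnected
    (Real.range_sigmoid ▸ ordConnected_Ioo)).tendsto_nhds_iff.2 (h3 x)

variable (X) in
/-- There is a countable union of discrete subsets of `C_p(X)` that is indexed by `ι`. -/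
def SD (ι : Type) : Prop := ∃ (c : ι → ℕ) (d : ι → CX X),
  ∀ i, ∀ᶠ j in comap d (𝓝 (d i)), c j = c i → j = i

theorem SD.of_inj {ι κ : Type} (h : SD X ι) {e : κ → ι} (he : e.Injective) : SD X κ := by
  obtain ⟨c, d, h⟩ := h
  refine ⟨c ∘ e, d ∘ e, fun i => ?_⟩
  rw [← comap_comap]
  exact (tendsto_comap.eventually (h (e i))).mono fun j a b => he (a b)

theorem SD.of_le {ι κ : Type} (h : SD X ι) (e : #κ ≤ #ι) : SD X κ :=
  ((Cardinal.le_def _ _).1 e).elim fun e => h.of_inj e.injective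

theorem sd_of_countable {ι : Type} [Countable ι] : SD X ι := by
  obtain ⟨c, hc⟩ := exists_injective_nat ι
  exact ⟨c, fun _ => one', fun i => .of_forall fun j e => hc e⟩

/-- Small subsets have Frechet-Urysohn closures. -/
theorem SD.fu (H : HX X) {ι : Type} (h : SD X ι) (e : ι → CX X) :
    FrechetUrysohnSpace (closure (range e)) := by
  obtain ⟨c, d, h⟩ := h
  choose k hk hk' using fun (N : ℕ) i => exists_step H (e i) ((N : ℝ) + 1)
  let p : ℕ → ι → CX X := fun N i => tag ((N : ℝ) + 1) (k N i) (hk N i) (d i)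
  have h1 := fu_sigma H (fun m => p m.unpair.1 '' {i | c i = m.unpair.2}) fun m => by
    rw [discrete_iff]
    rintro _ ⟨i, hi, rfl⟩
    obtain ⟨U, hU, hU'⟩ := mem_comap.1 (((tendsto_tag (l := comap (p m.unpair.1) _) (by positivity)
      tendsto_comap).1.le_comap) (h i))
    refine ⟨U, hU, ?_⟩
    rintro _ ⟨j, hj, rfl⟩ a
    rw [hU' a (hj.trans hi.symm)]
  refine (IsEmbedding.inclusion (closure_minimal ?_ isClosed_closure)).isInducing.frechetUrysohnSpace
    (Y := closure (⋃ m : ℕ, p m.unpair.1 '' {i | c i = m.unpair.2}))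
  rintro _ ⟨i, rfl⟩
  refine mem_closure_of_tendsto (f := fun N => p N i) (b := atTop) (tendsto_iff.2 fun x => ?_)
    (.of_forall fun N => mem_iUnion.2 ⟨N.pair (c i), i, by simp, by simp⟩)
  rw [tendsto_iff_norm_sub_tendsto_zero]
  refine squeeze_zero (fun _ => norm_nonneg _) (fun N => ?_)
    (by simpa using (tendsto_one_div_add_atTop_nhds_zero_nat (𝕜 := ℝ)).const_mul 2 :
      Tendsto (fun N : ℕ => 2 * ((N : ℝ) + 1)⁻¹) atTop (𝓝 0))
  have h2 : (0 : ℝ) < N + 1 := by positivity
  have h3 := abs_lt.1 (hk' N i x)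
  change |(_ + _) / _ - _| ≤ _
  rw [div_sub' h2.ne', abs_div, abs_of_pos h2, ← div_eq_mul_inv, div_le_div_iff_of_pos_right h2,
    abs_le]
  constructor <;> linarith [Real.sigmoid_pos ((d i).1 x), Real.sigmoid_lt_one ((d i).1 x)]

/-- Layers. -/
theorem SD.sigma (H : HX X) {ι : Type} {τ : ι → Type} (h : SD X ι) (h' : ∀ i, SD X (τ i)) :
    SD X (Σ i, τ i) := by
  obtain ⟨c, d, h⟩ := h
  choose c' d' h' using h'
  choose U hU hU' using fun i t => mem_comap.1 (h' i t)
  choose F N hF hN using fun i t => nhds_fin (hU i t)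
  choose k hk hk' using fun p : Σ i, τ i => exists_step H (d' p.1 p.2) ((N p.1 p.2 : ℝ) + 1)
  refine ⟨fun p => (c p.1).pair ((c' p.1 p.2).pair (N p.1 p.2)),
    fun p => tag 1 (k p) (hk p) (d p.1), fun ⟨i, t⟩ => ?_⟩
  obtain ⟨h1, h2⟩ := tendsto_tag (l := comap (fun p => tag 1 (k p) (hk p) (d p.1)) _)
    (d := fun p => d p.1) (i := ⟨i, t⟩) one_ne_zero tendsto_comap
  have h3 : Tendsto (fun p : Σ i, τ i => p.1) _ (comap d (𝓝 (d i))) := tendsto_comap_iff.2 h1
  filter_upwards [h3.eventually (h i), (eventually_all_finite (hF i t)).2 fun x _ =>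
    (h2 x).eventually (Metric.ball_mem_nhds _ one_pos)] with ⟨j, s⟩ a b e
  simp only [Nat.pair_eq_pair] at e
  obtain rfl : j = i := a e.1
  rw [hU' j t (hN j t _ fun x hx => ?_) e.2.1]
  have h4 : (0 : ℝ) < N j t + 1 := by positivity
  have h5 := abs_lt.1 (hk' ⟨j, s⟩ x)
  have h6 := abs_lt.1 (hk' ⟨j, t⟩ x)
  have h7 := abs_lt.1 (show |(k ⟨j, s⟩ x : ℝ) - k ⟨j, t⟩ x| < 1 from b x hx)
  simp only [e.2.2] at h5 h6
  rw [lt_div_iff₀ h4, ← abs_of_pos h4, ← abs_mul, abs_lt]
  constructor <;> linarith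

/-- Discrete subspaces of finite powers. -/
theorem sd_of_pow [T35Space X] (H : HX X) {m : ℕ} (D : Set (Fin m → X)) (hD : DiscreteTopology D) :
    SD X D := by
  choose U hU hU' using (discrete_iff _).1 hD
  have h1 : ∀ a : D, ∃ k : Fin m → X → ℤ, (∀ j, Continuous (k j) ∧ k j (a.1 j) = 0) ∧
      ∀ b : D, (∀ j, k j (b.1 j) = 0) → b = a := fun a => by
    obtain ⟨I, t, ht, h⟩ := mem_pi'.1 (nhds_pi (a := a.1) ▸ hU a a.2)
    choose f hf h0 h1 using fun j => CompletelyRegularSpace.completely_regular (a.1 j)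
      (interior (t j))ᶜ isOpen_interior.isClosed_compl
      fun e => e (mem_interior_iff_mem_nhds.2 (ht j))
    choose k hk hk' using fun j => exists_step H
      ⟨fun x => (f j x : ℝ), continuous_subtype_val.comp (hf j)⟩ 2
    refine ⟨k, fun j => ⟨hk j, ?_⟩, fun b hb => Subtype.ext (hU' a a.2 b b.2 (h fun j _ => ?_))⟩
    · have := hk' j (a.1 j)
      simp only [h0, Icc.coe_zero, mul_zero, sub_zero] at this
      exact Int.abs_lt_one_iff.1 (by exact_mod_cast this)
    · by_contra e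
      have := hk' j (b.1 j)
      simp only [hb j, h1 j fun k => e (interior_subset k), Pi.one_apply, Icc.coe_one] at this
      norm_num at this
  choose k hk hk' using h1
  let d : D → CX X := fun a => ⟨fun x => (Encodable.encode fun j => k a j x : ℕ),
    (continuous_of_discreteTopology (f := fun z : Fin m → ℤ => ((Encodable.encode z : ℕ) : ℝ))).comp
      (continuous_pi fun j => (hk a j).1)⟩
  refine ⟨fun _ => 0, d, fun a => ?_⟩
  filter_upwards [eventually_all.2 fun j => (tendsto_iff.1 (tendsto_comap (f := d)) (a.1 j)).eventually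
    (Metric.ball_mem_nhds ((d a).1 (a.1 j)) one_pos)] with b hb _
  refine (hk' b a fun j => ?_).symm
  have h2 : Encodable.encode (fun i => k b i (a.1 j)) = Encodable.encode fun i => k a i (a.1 j) := by
    by_contra e
    exact (hb j).not_ge (Nat.pairwise_one_le_dist e)
  exact (congrFun (Encodable.encode_injective h2) j).trans (hk a j).2

/-- A cover without small subcovers gives a right separated family. -/
theorem exists_right_sep {Y ι : Type} [TopologicalSpace Y] {U : ι → Set Y} (ho : ∀ i, IsOpen (U i))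
    (hc : ∀ y, ∃ i, y ∈ U i) (α : Type) [LinearOrder α] [WellFoundedLT α]
    (h : ∀ s : Set ι, #s < #α → ∃ y, ∀ i ∈ s, y ∉ U i) (hα : ∀ a : α, #(Iio a) < #α) :
    ∃ x : α → Y, ∀ a, x a ∉ closure (x '' Ioi a) := by
  choose r hr using hc
  choose g hg using h
  let x : α → Y := WellFoundedLT.fix fun a w =>
    g (range fun b : Iio a => r (w b b.2)) (mk_range_le.trans_lt (hα a))
  have hx : ∀ a, x a = g (range fun b : Iio a => r (x b)) (mk_range_le.trans_lt (hα a)) :=
    fun a => WellFoundedLT.fix_eq _ a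
  refine ⟨x, fun a k => ?_⟩
  obtain ⟨_, h1, b, hb, rfl⟩ := mem_closure_iff.1 k _ (ho _) (hr (x a))
  rw [hx b] at h1
  exact hg _ _ _ (mem_range_self (f := fun c : Iio b => r (x c)) ⟨a, hb⟩) h1

theorem mk_Iio_ord_lt {μ : Cardinal} (a : μ.ord.ToType) : #(Iio a) < μ :=
  (mk_Iio_lt a (by simp)).trans_eq (mk_ord_toType μ)

/-- The induction on cardinals. -/
theorem sd_of_regular (H : HX X) {κ : Cardinal} (h : ∀ μ ≤ κ, μ.IsRegular → ℵ₀ < μ → SD X μ.out) :
    ∀ ι : Type, #ι ≤ κ → SD X ι := by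
  suffices ∀ μ : Cardinal, ∀ ι : Type, #ι = μ → μ ≤ κ → SD X ι from fun ι => this _ ι rfl
  intro μ
  induction μ using WellFoundedLT.induction with | ind μ ih =>
  intro ι e hμ
  by_cases h0 : μ ≤ ℵ₀
  · have := mk_le_aleph0_iff.1 (e ▸ h0)
    exact sd_of_countable
  rw [not_le] at h0
  by_cases hr : μ.IsRegular
  · exact (h μ hμ hr h0).of_le (by rw [mk_out, e])
  obtain ⟨s, hs, hs'⟩ := Order.exists_cof_eq (α := μ.ord.ToType)
  have h1 : #s < μ := by
    rw [hs', Ordinal.cof_toType]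
    exact not_le.1 fun k => hr ⟨h0.le, k⟩
  have h2 : ∀ a : μ.ord.ToType, #(Iic a) < μ := fun a => by
    rw [← Iio_insert]
    exact mk_insert_le.trans_lt (add_lt_of_lt h0.le (mk_Iio_ord_lt a)
      (one_lt_aleph0.trans h0))
  have h3 := (ih _ h1 s rfl (h1.le.trans hμ)).sigma H (τ := fun a => Iic a.1)
    fun a => ih _ (h2 a) _ rfl ((h2 a).le.trans hμ)
  refine h3.of_le ?_
  refine (e.trans (mk_ord_toType μ).symm).trans_le <| mk_le_of_surjective
    (f := fun p : Σ a : s, Iic a.1 => p.2.1) fun a => ?_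
  obtain ⟨b, hb, hab⟩ := hs a
  exact ⟨⟨⟨b, hb⟩, a, hab⟩, rfl⟩

/-- A counterexample contains a strong S-space of some regular uncountable size. -/
theorem fu_of_no_S [T35Space X] (H : HX X)
    (hS : ∀ κ : Cardinal, κ.IsRegular → ℵ₀ < κ → ∀ (n : ℕ) (x : κ.ord.ToType → Fin n → X),
      (∀ a, x a ∉ closure (x '' Ioi a)) →
      ∃ (m : ℕ) (D : Set (Fin m → X)), DiscreteTopology D ∧ κ ≤ #D) :
    FrechetUrysohnSpace (CX X) := by
  refine ⟨fun Z g hg => ?_⟩
  have h1 : ∀ n N : ℕ, ∃ s : Set Z, SD X s ∧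
      ∀ y : Fin n → X, ∃ f ∈ s, ∀ j, |f.1.1 (y j) - g.1 (y j)| < 3 / ((N : ℝ) + 1) := fun n N => by
    let U : Z → Set (Fin n → X) := fun f => {y | ∀ j, |f.1.1 (y j) - g.1 (y j)| < 3 / ((N : ℝ) + 1)}
    have ho : ∀ f, IsOpen (U f) := fun f => by
      simp only [U, ofPred_forall]
      exact isOpen_iInter_of_finite fun j => isOpen_lt
        (((f.1.2.sub g.2).comp (continuous_apply j)).abs) continuous_const
    have hc : ∀ y, ∃ f, y ∈ U f := fun y => by
      obtain ⟨f, h1, h2⟩ := mem_closure_iff_nhds.1 hg _ (eventually_all.2 fun j =>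
        ((continuous_ev (y j)).tendsto g).eventually
          (Metric.ball_mem_nhds _ (show (0 : ℝ) < 3 / ((N : ℝ) + 1) by positivity)))
      exact ⟨⟨f, h2⟩, h1⟩
    obtain ⟨s, hs, hs'⟩ := (wellFounded_lt (α := Cardinal)).onFun (f := fun s : Set Z => #s)
      |>.has_min {s | ∀ y, ∃ f ∈ s, y ∈ U f} ⟨univ, fun y => (hc y).imp fun _ h => ⟨trivial, h⟩⟩
    refine ⟨s, sd_of_regular H (fun μ h1 h2 h3 => ?_) s le_rfl, hs⟩
    have e := mk_ord_toType μ
    have h4 : ∀ a : μ.ord.ToType, #(Iio a) < #μ.ord.ToType := fun a =>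
      (mk_Iio_ord_lt a).trans_eq e.symm
    obtain ⟨x, hx⟩ := exists_right_sep ho hc μ.ord.ToType (fun t ht => by
      by_contra k
      push Not at k
      exact hs' t k (ht.trans_le (e.trans_le h1))) h4
    obtain ⟨m, D, hD, hD'⟩ := hS μ h2 h3 n x hx
    exact (sd_of_pow H D hD).of_le (by rwa [mk_out])
  choose s hs hs' using h1
  have h2 := (fu_iff _).1 (((sd_of_countable (ι := ℕ × ℕ)).sigma H (τ := fun p => s p.1 p.2)
    fun p => hs p.1 p.2).fu H fun p => p.2.1.1)
  have h3 : g ∈ closure (range fun p : Σ p : ℕ × ℕ, s p.1 p.2 => p.2.1.1) := by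
    refine mem_closure_iff_nhds.2 fun V hV => ?_
    obtain ⟨F, N, hF, h⟩ := nhds_fin hV
    obtain ⟨n, y, -, rfl⟩ := hF.fin_param
    obtain ⟨f, h4, h5⟩ := hs' n N y
    exact ⟨f, h f (forall_mem_range.2 h5), ⟨(n, N), f, h4⟩, rfl⟩
  obtain ⟨u, hu, hu'⟩ := h2 _ subset_closure g h3 h3
  exact ⟨u, fun n => by
    obtain ⟨p, hp⟩ := hu n
    exact hp ▸ p.2.1.2, hu'⟩

end Pool.Agent.Lib.MP_23bd8d_gt
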