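import Pool.Agent.Lib.MP_23bd8d_gt.Real
import Pool.Agent.Lib.MP_23bd8d_gt.Delta

/-! The generic space on the first uncountable ordinal. -/

namespace Pool.Agent.Lib.MP_23bd8d_gt

open Pool.Agent.Shared.Forcing Cardinal Set

universe u v

set_option synthInstance.maxSize 4000

section abstract

variable {M : Type u} {E : M → M → Prop}

def Gen (E : M → M → Prop) (X Bs T : M) : Prop :=
  ∀ V, E V T ↔ Sub E V X ∧ ∀ x, E x V → ∃ N, E N Bs ∧ E x N ∧ Sub E N V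

theorem Gen.isTop {X Bs T : M} (hT : Gen E X Bs T)
    (hX : ∀ x, E x X → ∃ N, E N Bs ∧ E x N ∧ Sub E N X)
    (hI : ∀ N N' x, E N Bs → E N' Bs → E x N → E x N' →
      ∃ N'', E N'' Bs ∧ E x N'' ∧ Sub E N'' N ∧ Sub E N'' N') : IsTop E X T := by
  refine ⟨fun V hV => ((hT V).1 hV).1, (hT X).2 ⟨fun _ h => h, hX⟩,
    fun V V' Z hV hV' hZ => (hT Z).2 ⟨fun z hz => ((hT V).1 hV).1 z ((hZ z).1 hz).1,
      fun x hx => ?_⟩, fun S Z hS hZ => (hT Z).2 ⟨fun z hz => ?_, fun x hx => ?_⟩⟩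
  · obtain ⟨N, a1, a2, a3⟩ := ((hT V).1 hV).2 x ((hZ x).1 hx).1
    obtain ⟨N', b1, b2, b3⟩ := ((hT V').1 hV').2 x ((hZ x).1 hx).2
    obtain ⟨N'', c1, c2, c3, c4⟩ := hI N N' x a1 b1 a2 b2
    exact ⟨N'', c1, c2, fun z hz => (hZ z).2 ⟨a3 z (c3 z hz), b3 z (c4 z hz)⟩⟩
  · obtain ⟨V, h1, h2⟩ := (hZ z).1 hz
    exact ((hT V).1 (hS V h1)).1 z h2
  · obtain ⟨V, h1, h2⟩ := (hZ x).1 hx
    obtain ⟨N, a1, a2, a3⟩ := ((hT V).1 (hS V h1)).2 x h2
    exact ⟨N, a1, a2, fun z hz => (hZ z).2 ⟨V, h1, a3 z hz⟩⟩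

theorem Gen.of_local {X Bs T V : M} (hT : Gen E X Bs T) (h1 : Sub E V X)
    (h2 : ∀ x, E x V → ∃ V', E V' T ∧ E x V' ∧ Sub E V' V) : E V T := by
  refine (hT V).2 ⟨h1, fun x hx => ?_⟩
  obtain ⟨V', a1, a2, a3⟩ := h2 x hx
  obtain ⟨N, b1, b2, b3⟩ := ((hT V').1 a1).2 x a2
  exact ⟨N, b1, b2, fun z hz => a3 z (b3 z hz)⟩

theorem Gen.base {X Bs T N : M} (hT : Gen E X Bs T) (h1 : Sub E N X) (h2 : E N Bs) : E N T :=
  (hT N).2 ⟨h1, fun _ hx => ⟨N, h2, hx, fun _ h => h⟩⟩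

end abstract

section gen

variable {B : Type u} [CompleteBooleanAlgebra B] {l : Cardinal.{u}} [hl : Fact l.IsInaccessible]

instance Dec.gen (X Y Z : HName B l) :
    Dec (fun U => Gen (El l U) (cls U X) (cls U Y) (cls U Z)) := by
  unfold Gen; infer_instance

theorem exists_gen (hB : #B < l) (X Bs : SName B l) :
    ∃ T : SName B l, ∀ U, Gen (El l U) (sm U X) (sm U Bs) (sm U T) := by
  obtain ⟨T, hT⟩ := exists_switness hB (fun U T => Gen (El l U) (sm U X) (sm U Bs) T)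
  refine ⟨T, fun U => hT U ?_⟩
  obtain ⟨P, hP⟩ := md_power (tame_of_small hB) U (sm U X)
  obtain ⟨T, hT⟩ := md_sep (fun U V => Sub (El l U) V (sm U X) ∧ ∀ x, El l U x V →
    ∃ N, El l U N (sm U Bs) ∧ El l U x N ∧ Sub (El l U) N V) U P
  exact ⟨T, fun V => (hT V).trans ⟨fun h => h.2, fun h => ⟨(hP V).2 h.1, h⟩⟩⟩

end gen

variable {l : Cardinal.{u}} [hl : Fact l.IsInaccessible]

theorem aleph1_lt_l : ℵ₁ < l := by
  rw [← succ_aleph0]
  exact hl.out.isStrongLimit.isSuccLimit.succ_lt aleph0_lt_l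

/-- the countable ordinals -/
abbrev WW (l : Cardinal.{u}) [Fact l.IsInaccessible] : Type u := Iio (oc l ℵ₁)

theorem mk_WW : #(WW l) = ℵ₁ := mk_Iio_oc aleph1_lt_l

theorem WW_lt : #(WW l) < l := mk_WW.trans_lt aleph1_lt_l

theorem WW_unc : ¬ (Set.univ : Set (WW l)).Countable := by
  rw [← le_aleph0_iff_set_countable, mk_univ, mk_WW, not_le]
  exact aleph0_lt_aleph_one

theorem WW_Iic (a : WW l) : (Iic a).Countable := by
  have h1 : (Iic a.1).Countable := by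
    rw [← le_aleph0_iff_set_countable, mk_Iic]
    have := ((lt_oc aleph1_lt_l).mp a.2).trans_eq succ_aleph0.symm
    exact add_le_aleph0.mpr ⟨Order.lt_succ_iff.mp this, one_le_aleph0⟩
  exact h1.preimage Subtype.val_injective

instance : Nonempty (WW l) := by
  by_contra hn
  rw [not_nonempty_iff] at hn
  exact WW_unc (l := l) (to_countable _)

/-- the Cohen algebra -/
abbrev BB (l : Cardinal.{u}) [Fact l.IsInaccessible] : Type u := RO (Cond (WW l))

theorem fun_lt_l {ι κ : Type u} (h1 : #ι < l) (h2 : #κ < l) : #(ι → κ) < l := by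
  refine lt_of_le_of_lt (mk_le_of_injective (f := fun g : ι → κ => {z : ι × κ | g z.1 = z.2}) ?_)
    (set_lt_l (prod_lt_l h1 h2))
  intro g g' e
  funext i
  exact ((Set.ext_iff.mp e (i, g i)).1 rfl).symm

theorem BB_lt : #(BB l) < l := by
  have h1 : #(Cond (WW l)) < l := by
    refine lt_of_le_of_lt (mk_le_of_injective
      (f := fun p : Cond (WW l) => fun z => ULift.up.{u} (p.f z)) ?_)
      (fun_lt_l (prod_lt_l WW_lt WW_lt) (fin_lt_l _))
    rintro ⟨f, hf⟩ ⟨g, hg⟩ e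
    congr
    funext z
    exact congrArg ULift.down (congrFun e z)
  refine lt_of_le_of_lt (mk_le_of_injective (f := fun a : BB l => a.s) ?_) (set_lt_l h1)
  intro a b e
  exact RO.ext' fun p => by rw [RO.mem_def, RO.mem_def, show a.s = b.s from e]

theorem finset_lt_l {ι : Type u} (h : #ι < l) : #(Finset ι) < l :=
  lt_of_le_of_lt (mk_le_of_injective Finset.coe_injective) (set_lt_l h)

theorem list_lt_l {ι : Type u} (h : #ι < l) : #(List ι) < l :=
  (mk_list_le_max ι).trans_lt (max_lt aleph0_lt_l h)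

open Classical in
/-- the value of `a ∈ U_b` -/
noncomputable def ub (a b : WW l) : BB l :=
  if a = b then ⊤ else if a < b then RO.hull {p | p.f (a, b) = some true} else ⊥

theorem mem_hull_true {p : Cond (WW l)} {z : WW l × WW l} :
    p ∈ RO.hull {p : Cond (WW l) | p.f z = some true} ↔ p.f z = some true := by
  refine ⟨fun h => ?_, fun h => RO.mem_hull_of_mem h⟩
  by_contra hn
  obtain ⟨q, hq, hq'⟩ := p.exists_set z false hn
  obtain ⟨r, hr, t, ht, hrt⟩ := h q hq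
  have := (hr _ _ hq').symm.trans (hrt _ _ ht)
  simp at this

theorem mem_ub {p : Cond (WW l)} {a b : WW l} : p ∈ ub a b ↔ p.In a b := by
  unfold ub Cond.In
  split_ifs with h1 h2
  · simp [h1, RO.mem_top]
  · simp [h1, h2, mem_hull_true]
  · simp [h1, h2, RO.not_mem_bot]

theorem mem_ub_compl {p : Cond (WW l)} {a b : WW l} : p ∈ (ub a b)ᶜ ↔ p.Out a b := by
  rw [RO.mem_compl]
  constructor
  · intro h
    rcases lt_trichotomy a b with h1 | h1 | h1
    · refine Or.inr ⟨h1, ?_⟩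
      by_contra hn
      obtain ⟨q, hq, hq'⟩ := p.exists_set (a, b) true hn
      exact h q hq (mem_ub.mpr (Or.inr ⟨h1, hq'⟩))
    · exact absurd (mem_ub.mpr (Or.inl h1)) (h p le_rfl)
    · exact Or.inl h1
  · intro h q hq hq'
    exact (mem_ub.mp hq').not_out (h.imp id fun h => ⟨h.1, hq _ _ h.2⟩)

theorem ub_self (U : Ultra (BB l)) (a : WW l) : ub a a ∈ U := by
  rw [ub, if_pos rfl]; exact U.top_mem

theorem le_of_ub {U : Ultra (BB l)} {a b : WW l} (h : ub a b ∈ U) : a ≤ b := by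
  obtain ⟨p, hp⟩ := RO.ne_bot_iff.mp (Ultra.ne_bot h)
  exact (mem_ub.mp hp).le

/-- the value of `a ∈ N(s, t)` -/
noncomputable def nb (s t : Finset (WW l)) (a : WW l) : BB l :=
  s.inf (ub a) ⊓ t.inf fun b => (ub a b)ᶜ

theorem nb_mem {U : Ultra (BB l)} {s t : Finset (WW l)} {a : WW l} :
    nb s t a ∈ U ↔ (∀ b ∈ s, ub a b ∈ U) ∧ ∀ b ∈ t, ub a b ∉ U := by
  simp only [nb, Ultra.inf_mem, finset_inf_mem, Ultra.compl_mem]

theorem inN_iff {p : Cond (WW l)} {s t : Finset (WW l)} {a : WW l} :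
    p.InN a s t ↔ ∀ U : Ultra (BB l), RO.io p ∈ U → nb s t a ∈ U := by
  constructor
  · intro h U hU
    exact nb_mem.mpr ⟨fun b hb => Ultra.mono hU (RO.io_le.mpr (mem_ub.mpr (h.1 b hb))),
      fun b hb => Ultra.compl_mem.mp (Ultra.mono hU (RO.io_le.mpr (mem_ub_compl.mpr (h.2 b hb))))⟩
  · intro h
    exact ⟨fun b hb => mem_ub.mp (mem_of_forces fun U hU => (nb_mem.mp (h U hU)).1 b hb),
      fun b hb => mem_ub_compl.mp (mem_of_forces fun U hU =>
        Ultra.compl_mem.mpr ((nb_mem.mp (h U hU)).2 b hb))⟩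

/-- the underlying set -/
noncomputable abbrev XX (U : Ultra (BB l)) : Md l U := ck U (oc l ℵ₁)

/-- a point -/
noncomputable abbrev pt (U : Ultra (BB l)) (a : WW l) : Md l U := ck U a.1

@[elab_as_elim]
theorem wlog_X {Φ : Ultra (BB l) → Prop} (Z : HName (BB l) l) (U : Ultra (BB l))
    (h : El l U (cls U Z) (XX U)) [Dec Φ] (H : ∀ U a, cls U Z = pt U a → Φ U) : Φ U :=
  wlog_ck Z _ U h fun U b hb e => H U ⟨b, hb⟩ e

theorem pt_mem (U : Ultra (BB l)) (a : WW l) : El l U (pt U a) (XX U) := el_ck_of_lt a.2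

theorem el_pt {U : Ultra (BB l)} {a b : WW l} : El l U (pt U a) (pt U b) ↔ a < b := el_ck

/-- the basic open set `N(s, t)` -/
noncomputable def nN (s t : Finset (WW l)) : SName (BB l) l :=
  SName.mk (WW l) WW_lt (fun a => chk (BB l) a.1) (nb s t)

theorem el_nN {U : Ultra (BB l)} {s t : Finset (WW l)} {a : WW l} :
    El l U (pt U a) (sm U (nN s t)) ↔ nb s t a ∈ U := by
  refine ⟨fun h => ?_, fun h => mem_mk WW_lt (fun a : WW l => chk (BB l) a.1) _ a h⟩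
  refine wlog_mk _ WW_lt _ _ U h ?_
  intro U b hb e
  rwa [Subtype.ext (ck_inj e : a.1 = b.1)]

theorem nN_sub (U : Ultra (BB l)) (s t : Finset (WW l)) :
    Sub (El l U) (sm U (nN s t)) (XX U) := by
  intro z hz
  obtain ⟨Z, rfl⟩ := cls_surj z
  refine wlog_mk Z WW_lt _ _ U hz ?_
  intro U a _ e
  rw [e]; exact pt_mem U a

theorem nN_mono (U : Ultra (BB l)) {s t s' t' : Finset (WW l)} (hs : s ⊆ s') (ht : t ⊆ t') :
    Sub (El l U) (sm U (nN s' t')) (sm U (nN s t)) := by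
  intro z hz
  obtain ⟨Z, rfl⟩ := cls_surj z
  refine wlog_mk Z WW_lt _ _ U hz ?_
  intro U a ha e
  rw [e]
  rw [nb_mem] at ha
  exact el_nN.mpr (nb_mem.mpr ⟨fun b hb => ha.1 b (hs hb), fun b hb => ha.2 b (ht hb)⟩)

theorem baseJ_lt : #(Finset (WW l) × Finset (WW l)) < l :=
  prod_lt_l (finset_lt_l WW_lt) (finset_lt_l WW_lt)

/-- the base -/
noncomputable def baseN : SName (BB l) l :=
  SName.mk _ baseJ_lt (fun z => nN z.1 z.2) fun _ => ⊤

theorem nN_base (U : Ultra (BB l)) (s t : Finset (WW l)) :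
    El l U (sm U (nN s t)) (sm U baseN) :=
  mem_mk baseJ_lt (fun z => nN z.1 z.2) _ (s, t) U.top_mem

@[elab_as_elim]
theorem wlog_base {Φ : Ultra (BB l) → Prop} (Z : HName (BB l) l) (U : Ultra (BB l))
    (h : El l U (cls U Z) (sm U baseN)) [Dec Φ]
    (H : ∀ U s t, cls U Z = sm U (nN s t) → Φ U) : Φ U :=
  wlog_mk Z baseJ_lt _ _ U h fun U z _ e => H U z.1 z.2 e

variable {T : SName (BB l) l}

theorem isTop_T (hT : ∀ U, Gen (El l U) (XX U) (sm U baseN) (sm U T)) (U : Ultra (BB l)) :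
    IsTop (El l U) (XX U) (sm U T) := by
  classical
  refine (hT U).isTop (fun x hx => ⟨_, nN_base U ∅ ∅, ?_, nN_sub U _ _⟩)
    fun N N' x hN hN' hx hx' => ?_
  · obtain ⟨X, rfl⟩ := cls_surj x
    refine wlog_X X U hx ?_
    intro U a e
    rw [e, el_nN, nb_mem]
    simp
  · obtain ⟨X, rfl⟩ := cls_surj x
    obtain ⟨N, rfl⟩ := cls_surj N
    obtain ⟨N', rfl⟩ := cls_surj N'
    revert hx hx'
    revert hN'
    refine wlog_base N U hN ?_
    intro U s t e hN'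
    rw [e]
    clear e
    refine wlog_base N' U hN' ?_
    intro U s' t' e
    rw [e]
    clear e
    intro hx hx'
    refine ⟨_, nN_base U (s ∪ s') (t ∪ t'), ?_,
      nN_mono U Finset.subset_union_left Finset.subset_union_left,
      nN_mono U Finset.subset_union_right Finset.subset_union_right⟩
    have := nN_sub U _ _ _ hx
    revert hx hx'
    refine wlog_X X U this ?_
    intro U a e
    simp only [e, el_nN, nb_mem, Finset.forall_mem_union]
    tauto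

theorem nN_open (hT : ∀ U, Gen (El l U) (XX U) (sm U baseN) (sm U T)) (U : Ultra (BB l))
    (s t : Finset (WW l)) : El l U (sm U (nN s t)) (sm U T) :=
  (hT U).base (nN_sub U s t) (nN_base U s t)

theorem nN_closed (hT : ∀ U, Gen (El l U) (XX U) (sm U baseN) (sm U T)) (U : Ultra (BB l))
    (s t : Finset (WW l)) : ∃ V, El l U V (sm U T) ∧
      ∀ x, El l U x V ↔ El l U x (XX U) ∧ ¬ El l U x (sm U (nN s t)) := by
  obtain ⟨V, hV⟩ := md_sep (fun U x => ¬ El l U x (sm U (nN s t))) U (XX U)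
  refine ⟨V, (hT U V).2 ⟨fun z hz => ((hV z).1 hz).1, fun x hx => ?_⟩, hV⟩
  obtain ⟨h1, h2⟩ := (hV x).1 hx
  suffices h : ∃ N, El l U N (sm U baseN) ∧ El l U x N ∧
      ∀ z, El l U z N → El l U z (XX U) ∧ ¬ El l U z (sm U (nN s t)) by
    obtain ⟨N, a1, a2, a3⟩ := h
    exact ⟨N, a1, a2, fun z hz => (hV z).2 (a3 z hz)⟩
  clear hV hx
  obtain ⟨X, rfl⟩ := cls_surj x
  revert h2
  refine wlog_X X U h1 ?_
  intro U a e h2
  rw [e] at h2 ⊢
  rw [el_nN, nb_mem, not_and_or] at h2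
  push Not at h2
  rcases h2 with ⟨b, hb, h⟩ | ⟨b, hb, h⟩
  · refine ⟨_, nN_base U ∅ {b}, el_nN.mpr (nb_mem.mpr (by simpa)),
      fun z hz => ⟨nN_sub U _ _ _ hz, ?_⟩⟩
    obtain ⟨Z, rfl⟩ := cls_surj z
    refine wlog_mk Z WW_lt _ _ U hz ?_
    intro U c hc e hz
    rw [e] at hz
    exact (nb_mem.mp hc).2 b (by simp) ((nb_mem.mp (el_nN.mp hz)).1 b hb)
  · refine ⟨_, nN_base U {b} ∅, el_nN.mpr (nb_mem.mpr (by simpa)),
      fun z hz => ⟨nN_sub U _ _ _ hz, ?_⟩⟩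
    obtain ⟨Z, rfl⟩ := cls_surj z
    refine wlog_mk Z WW_lt _ _ U hz ?_
    intro U c hc e hz
    rw [e] at hz
    exact (nb_mem.mp (el_nN.mp hz)).2 b hb ((nb_mem.mp hc).1 b (by simp))

theorem exists_step (hT : ∀ U, Gen (El l U) (XX U) (sm U baseN) (sm U T)) (U : Ultra (BB l))
    (s t : Finset (WW l)) (R L r r' : Md l U) (hr : El l U r R) (hr' : El l U r' R) :
    ∃ f, Cont (El l U) (XX U) (sm U T) R L f ∧
      (∀ x, El l U x (sm U (nN s t)) → Maps (El l U) f x r) ∧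
      ∀ x, El l U x (XX U) → ¬ El l U x (sm U (nN s t)) → Maps (El l U) f x r' := by
  obtain ⟨r, rfl⟩ := cls_surj r
  obtain ⟨r', rfl⟩ := cls_surj r'
  obtain ⟨f, h1, h2⟩ := md_rel (tame_of_small BB_lt) (fun U x y =>
    (El l U x (sm U (nN s t)) ∧ y = cls U r) ∨ (¬ El l U x (sm U (nN s t)) ∧ y = cls U r'))
    U (XX U) R
  have h3 : ∀ x, El l U x (sm U (nN s t)) → Maps (El l U) f x (cls U r) := fun x hx =>
    (h2 _ _).2 ⟨nN_sub U _ _ _ hx, hr, Or.inl ⟨hx, rfl⟩⟩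
  have h4 : ∀ x, El l U x (XX U) → ¬ El l U x (sm U (nN s t)) → Maps (El l U) f x (cls U r') :=
    fun x hx hx' => (h2 _ _).2 ⟨hx, hr', Or.inr ⟨hx', rfl⟩⟩
  refine ⟨f, ⟨⟨h1, fun x hx => ?_⟩, fun a b V _ _ hV => (hT U).of_local (fun x hx => ?_)
    fun x hx => ?_⟩, h3, h4⟩
  · by_cases h : El l U x (sm U (nN s t))
    · exact ⟨_, h3 x h, fun y hy => ((h2 _ _).1 hy).2.2.elim And.right fun h' => absurd h h'.1⟩
    · exact ⟨_, h4 x hx h, fun y hy =>
        ((h2 _ _).1 hy).2.2.elim (fun h' => absurd h'.1 h) And.right⟩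
  · obtain ⟨y, hy, -⟩ := (hV x).1 hx
    exact ((h2 _ _).1 hy).1
  · obtain ⟨y, hy, hy'⟩ := (hV x).1 hx
    obtain ⟨a1, -, ⟨a2, rfl⟩ | ⟨a2, rfl⟩⟩ := (h2 _ _).1 hy
    · exact ⟨_, nN_open hT U s t, a2, fun z hz => (hV z).2 ⟨_, h3 z hz, hy'⟩⟩
    · obtain ⟨V', b1, b2⟩ := nN_closed hT U s t
      exact ⟨V', b1, (b2 x).2 ⟨a1, a2⟩, fun z hz =>
        (hV z).2 ⟨_, h4 z ((b2 z).1 hz).1 ((b2 z).1 hz).2, hy'⟩⟩

theorem tych (hT : ∀ U, Gen (El l U) (XX U) (sm U baseN) (sm U T)) (ρ : RealData (BB l) l)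
    (U : Ultra (BB l)) : Tych (El l U) (XX U) (sm U T) (sm U ρ.R) (sm U ρ.L) := by
  refine ⟨fun x y hx hy => ?_, fun V x hV hx => ?_⟩
  · obtain ⟨X, rfl⟩ := cls_surj x
    obtain ⟨Y, rfl⟩ := cls_surj y
    revert hy
    refine wlog_X X U hx ?_
    intro U a e hy
    rw [e]
    clear e
    refine wlog_X Y U hy ?_
    intro U b e hne
    rw [e] at hne ⊢
    have hab : a ≠ b := fun e => hne (e ▸ rfl)
    by_cases h : ub b a ∈ U
    · refine ⟨_, nN_open hT U ∅ {b}, el_nN.mpr (nb_mem.mpr ?_), fun h' => ?_⟩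
      · simpa using fun h' => hab (le_antisymm (le_of_ub h') (le_of_ub h))
      · exact (nb_mem.mp (el_nN.mp h')).2 b (by simp) (ub_self U b)
    · refine ⟨_, nN_open hT U {a} ∅, el_nN.mpr (nb_mem.mpr ?_), fun h' => ?_⟩
      · simpa using ub_self U a
      · exact h ((nb_mem.mp (el_nN.mp h')).1 a (by simp))
  · obtain ⟨N, h1, h2, h3⟩ := ((hT U V).1 hV).2 x hx
    obtain ⟨X, rfl⟩ := cls_surj x
    obtain ⟨V, rfl⟩ := cls_surj V
    obtain ⟨N, rfl⟩ := cls_surj N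
    clear hV hx
    revert h2 h3
    refine wlog_base N U h1 ?_
    intro U s t e h2 h3
    rw [e] at h2 h3
    obtain ⟨a, ha⟩ := (ρ.real U).2.2.2.1
    obtain ⟨b, hb, hab⟩ := ((ρ.real U).2.2.2.2.1 a ha).2
    obtain ⟨f, f1, f2, f3⟩ := exists_step hT U s t _ (sm U ρ.L) a b ha hb
    exact ⟨f, a, b, f1, fun e => (ρ.real U).1 a ha (e ▸ hab), f2 _ h2,
      fun y hy hy' => f3 y hy fun h => hy' (h3 y h)⟩

end Pool.Agent.Lib.MP_23bd8d_gt
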