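import Pool.Agent.Lib.MP_23bd8d_gt.Small

/-! Counterexamples of the first uncountable size and strong S-spaces. -/

set_option autoImplicit false

open Set Filter Topology Cardinal TopologicalSpace

namespace Pool.Agent.Lib.MP_23bd8d_gt

/-- Hereditarily separable spaces. -/
def HS (Y : Type) [TopologicalSpace Y] : Prop :=
  ∀ s : Set Y, ∃ c ⊆ s, c.Countable ∧ s ⊆ closure c

theorem hs_iff {Y : Type} [TopologicalSpace Y] : HS Y ↔ ∀ s : Set Y, SeparableSpace s := by
  refine forall_congr' fun s => ⟨fun ⟨c, h1, h2, h3⟩ => ⟨(↑) ⁻¹' c,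
    h2.preimage Subtype.val_injective, fun a => ?_⟩, fun ⟨c, h1, h2⟩ =>
    ⟨(↑) '' c, Subtype.coe_image_subset s c, h1.image _, fun a ha => ?_⟩⟩
  · rw [IsInducing.subtypeVal.closure_eq_preimage_closure_image, Subtype.image_preimage_coe,
      inter_eq_right.2 h1]
    exact h3 a.2
  · exact image_closure_subset_closure_image continuous_subtype_val ⟨⟨a, ha⟩, h2 _, rfl⟩

theorem HS.of_cover {Y ι : Type} [TopologicalSpace Y] [Countable ι] {Z : ι → Type}
    [∀ i, TopologicalSpace (Z i)] (h : ∀ i, HS (Z i)) (φ : ∀ i, Z i → Y)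
    (hφ : ∀ i, Continuous (φ i)) (hc : ∀ y, ∃ i z, φ i z = y) : HS Y := fun s => by
  choose c h1 h2 h3 using fun i => h i (φ i ⁻¹' s)
  refine ⟨⋃ i, φ i '' c i, iUnion_subset fun i => image_subset_iff.2 (h1 i),
    countable_iUnion fun i => (h2 i).image _, fun y hy => ?_⟩
  obtain ⟨i, z, rfl⟩ := hc y
  exact closure_mono (subset_iUnion _ i)
    (image_closure_subset_closure_image (hφ i) ⟨z, h3 i hy, rfl⟩)

theorem exists_pre {A B : Type} {φ : A → B} {s : Set A} {c : Set B} (h : c ⊆ φ '' s)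
    (hc : c.Countable) : ∃ t ⊆ s, t.Countable ∧ φ '' t = c := by
  obtain ⟨t, h1, h2⟩ := SurjOn.exists_bijOn_subset h
  exact ⟨t, h1, countable_of_injective_of_countable_image h2.injOn (h2.image_eq.symm ▸ hc),
    h2.image_eq⟩

theorem HS.of_inducing {Y Z : Type} [TopologicalSpace Y] [TopologicalSpace Z] (h : HS Y)
    {φ : Z → Y} (hφ : IsInducing φ) : HS Z := fun s => by
  obtain ⟨c, h1, h2, h3⟩ := h (φ '' s)
  obtain ⟨t, h5, h4, rfl⟩ := exists_pre h1 h2
  exact ⟨t, h5, h4, fun a ha => hφ.closure_eq_preimage_closure_image t ▸ h3 ⟨a, ha, rfl⟩⟩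

theorem HS.pi {Y : Type} [TopologicalSpace Y] (h : ∀ n, HS (Fin n → Y)) (ι : Type) [Finite ι] :
    HS (ι → Y) := by
  obtain ⟨n, ⟨e⟩⟩ := Finite.exists_equiv_fin ι
  exact (h n).of_inducing (Homeomorph.piCongrLeft (Y := fun _ => Y) e).isInducing

variable {X : Type} [TopologicalSpace X]

/-- Discrete sets of functions are countable. -/
theorem countable_of_hs (h : ∀ n, HS (Fin n → X)) {D : Set (CX X)} (hD : DiscreteTopology D) :
    D.Countable := by
  let P : ∀ p : Σ m, ℕ × (Fin m → ℚ), CX X → (Fin p.1 → X) → Prop := fun p d y =>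
    (∀ f ∈ D, (∀ j, |f.1 (y j) - d.1 (y j)| < 3 / ((p.2.1 : ℝ) + 1)) → f = d) ∧
      ∀ j, |d.1 (y j) - p.2.2 j| < 1 / ((p.2.1 : ℝ) + 1)
  refine (countable_iUnion fun p => (?_ : {d ∈ D | ∃ y, P p d y}.Countable)).mono fun d hd => ?_
  · choose y hy using fun d : {d ∈ D | ∃ y, P p d y} => d.2.2
    obtain ⟨c, h1, h2, h3⟩ := h p.1 (range y)
    obtain ⟨t, -, h4, rfl⟩ := exists_pre (h1.trans_eq image_univ.symm) h2
    refine (h4.image (↑)).mono fun d hd => ?_
    obtain ⟨_, h5, e, he, rfl⟩ := mem_closure_iff_nhds.1 (h3 (mem_range_self ⟨d, hd⟩)) _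
      (eventually_all.2 fun j => (isOpen_lt (f := fun z : Fin p.1 → X => |d.1 (z j) - p.2.2 j|)
        (((d.2.comp (continuous_apply j)).sub continuous_const).abs)
        continuous_const).eventually_mem ((hy ⟨d, hd⟩).2 j))
    refine ⟨e, he, ((hy e).1 d hd.1 fun j => ?_).symm⟩
    have a := abs_lt.1 (show |d.1 (y e j) - p.2.2 j| < 1 / ((p.2.1 : ℝ) + 1) from h5 j)
    have b := abs_lt.1 ((hy e).2 j)
    have c : (0 : ℝ) < 1 / ((p.2.1 : ℝ) + 1) := by positivity
    rw [abs_lt, show 3 / ((p.2.1 : ℝ) + 1) = 3 * (1 / ((p.2.1 : ℝ) + 1)) by ring]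
    constructor <;> linarith
  · obtain ⟨U, hU, hU'⟩ := (discrete_iff _).1 hD d hd
    obtain ⟨F, N, hF, h1⟩ := nhds_fin hU
    obtain ⟨m, y, -, rfl⟩ := hF.fin_param
    choose q hq using fun j => exists_rat_near (d.1 (y j))
      (show (0 : ℝ) < 1 / ((N : ℝ) + 1) by positivity)
    exact mem_iUnion.2 ⟨⟨m, N, q⟩, hd, y, fun f hf k => hU' f hf (h1 f (forall_mem_range.2 k)), hq⟩

section Group
variable {α : Type} [LinearOrder α] (x : α → α → ZMod 2)

/-- The nonzero finite sums of the rows. -/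
def Gr : Set (α → ZMod 2) := {g | g ≠ 0 ∧ ∃ (k : ℕ) (v : Fin k → α), ∑ i, x (v i) = g}

variable {x}

omit [LinearOrder α] in
theorem Gr.add {g h : α → ZMod 2} (a : g ∈ Gr x) (b : h ∈ Gr x) :
    ∃ (k : ℕ) (v : Fin k → α), ∑ i, x (v i) = g + h := by
  obtain ⟨-, k, v, rfl⟩ := a
  obtain ⟨-, l, w, rfl⟩ := b
  exact ⟨k + l, Fin.append v w, by simp [Fin.sum_univ_add]⟩

theorem exists_bound (hα : ℵ₀ < #α) (h : ∀ a : α, (Iio a).Countable) {s : Set α} (hs : s.Countable) :
    ∃ b, ∀ a ∈ s, a < b := by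
  by_contra k
  push Not at k
  refine hα.not_ge (mk_le_aleph0_iff.2 (countable_univ_iff.1 ((hs.biUnion fun a _ =>
    ((h a).insert a)).mono fun b _ => ?_)))
  obtain ⟨a, h1, h2⟩ := k b
  exact mem_biUnion h1 h2.eq_or_lt

omit [LinearOrder α] in
theorem nhds_Gr {g : Gr x} {V : Set (Gr x)} (hV : V ∈ 𝓝 g) :
    ∃ F : Finset α, ∀ h : Gr x, (∀ a ∈ F, h.1 a = g.1 a) → h ∈ V := by
  obtain ⟨W, hW, h⟩ := (mem_nhds_induced _ _ _).1 hV
  rw [nhds_pi] at hW
  obtain ⟨F, t, ht, h'⟩ := mem_pi'.1 hW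
  exact ⟨F, fun f hf => h (h' fun a ha => hf a ha ▸ mem_of_mem_nhds (ht a))⟩

omit [LinearOrder α] in
theorem box_nhds (g : Gr x) (F : Finset α) : ∀ᶠ h : Gr x in 𝓝 g, ∀ a ∈ F, h.1 a = g.1 a :=
  (eventually_all_finset F).2 fun a _ =>
    (((continuous_apply a).comp continuous_subtype_val).tendsto g).eventually
      ((isOpen_discrete {g.1 a}).eventually_mem rfl)

/-- Continuous functions depend on countably many coordinates. -/
theorem exists_factor (hα : ℵ₀ < #α) (h : ∀ a : α, (Iio a).Countable) (hs : HS (Gr x))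
    (f : CX (Gr x)) : ∃ b, ∀ g g' : Gr x, (∀ a < b, g.1 a = g'.1 a) → f.1 g = f.1 g' := by
  have hf : Continuous f.1 := f.2
  choose c h1 h2 h3 using fun q : ℚ => hs {g | f.1 g < q}
  choose! F hF using fun (q : ℚ) (g : Gr x) (hg : f.1 g < q) =>
    nhds_Gr (hf.continuousAt.eventually (gt_mem_nhds hg))
  obtain ⟨b, hb⟩ := exists_bound hα h (countable_iUnion fun q => (h2 q).biUnion fun g _ =>
    (F q g).countable_toSet)
  suffices ∀ g g' : Gr x, (∀ a < b, g.1 a = g'.1 a) → f.1 g' ≤ f.1 g from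
    ⟨b, fun g g' e => le_antisymm (this _ _ fun a ha => (e a ha).symm) (this _ _ e)⟩
  intro g g' e
  by_contra k
  obtain ⟨q, q1, q2⟩ := exists_rat_btwn (not_le.1 k)
  obtain ⟨S, hS⟩ := nhds_Gr (hf.continuousAt.eventually (lt_mem_nhds q2))
  obtain ⟨a₀, ha₀⟩ := Function.ne_iff.1 g'.2.1
  obtain ⟨w, w1, w2⟩ := mem_closure_iff_nhds.1 (h3 q q1) _ (box_nhds g (insert a₀ S))
  have z : ∀ u v : ZMod 2, u + (u + v) = v := by decide
  have h4 : ∀ a ∈ insert a₀ S, (w.1 + (g.1 + g'.1)) a = g'.1 a := fun a ha => by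
    rw [Pi.add_apply, Pi.add_apply, w1 a ha, z]
  have h5 : g.1 + g'.1 ≠ 0 := fun e => k (le_of_eq (congrArg f.1 (Subtype.ext (funext fun a => by
    rw [← z (g.1 a) (g'.1 a), show g.1 a + g'.1 a = 0 from congrFun e a, add_zero]))))
  let w' : Gr x := ⟨w.1 + (g.1 + g'.1), fun e => ha₀ ((h4 a₀ (by simp)).symm.trans (congrFun e a₀)),
    Gr.add w.2 ⟨h5, Gr.add g.2 g'.2⟩⟩
  refine lt_asymm (show (q : ℝ) < f.1 w' from hS w' fun a ha => h4 a (by simp [ha]))
    (hF q w (h1 q w2) w' fun a ha => ?_)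
  change w.1 a + (g.1 a + g'.1 a) = _
  rw [e a (hb a (mem_iUnion.2 ⟨q, mem_biUnion w2 ha⟩)), CharTwo.add_self_eq_zero, add_zero]

theorem hx_Gr (hα : ℵ₀ < #α) (h : ∀ a : α, (Iio a).Countable) (hs : ∀ n, HS (Fin n → Gr x))
    (h0 : ∀ a b, b < a → x a b = 0) : HX (Gr x) := fun D hD => by
  choose β hβ using exists_factor hα h
    ((hs 1).of_inducing (Homeomorph.funUnique (Fin 1) (Gr x)).symm.isInducing)
  obtain ⟨b, hb⟩ := exists_bound hα h ((countable_of_hs hs hD).image β)
  let π : Gr x → Iio b → ZMod 2 := fun g a => g.1 a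
  have h1 : (range π).Countable := by
    have := (h b).to_subtype
    refine (countable_range fun (l : List (Iio b)) (a : Iio b) =>
      (l.map fun c => x c.1 a).sum).mono ?_
    rintro _ ⟨⟨_, h2, k, v, rfl⟩, rfl⟩
    change (fun a : Iio b => (∑ i, x (v i)) a) ∈ _
    clear h2
    induction k with
    | zero => exact ⟨[], funext fun a => by simp⟩
    | succ k ih =>
      obtain ⟨l, hl⟩ := ih fun i => v i.succ
      by_cases e : v 0 < b
      · exact ⟨⟨_, e⟩ :: l, funext fun a => by simpa [Fin.sum_univ_succ] using congrFun hl a⟩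
      · exact ⟨l, funext fun a => by
          simpa [Fin.sum_univ_succ, h0 _ _ (a.2.trans_le (not_lt.1 e))] using congrFun hl a⟩
  have := h1.to_subtype
  choose t ht using fun p : range π => p.2
  have h2 : ∀ f ∈ closure D, ∀ g, f.1 g = f.1 (t ⟨π g, g, rfl⟩) := fun f hf g =>
    closure_minimal (t := {f : CX (Gr x) | f.1 g = f.1 (t ⟨π g, g, rfl⟩)})
      (fun d hd => hβ d _ _ fun a ha =>
        (congrFun (ht ⟨π g, g, rfl⟩) ⟨a, ha.trans (hb _ ⟨d, hd, rfl⟩)⟩).symm)
      (isClosed_eq (continuous_ev _) (continuous_ev _)) hf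
  have h3 : IsInducing fun (f : closure D) p => f.1.1 (t p) := by
    refine isInducing_iff_nhds.2 fun f => le_antisymm (continuous_pi fun p =>
      (continuous_ev (t p)).comp continuous_subtype_val).continuousAt.le_comap ?_
    refine tendsto_id'.1 (tendsto_subtype_rng.2 (tendsto_iff.2 fun g => ?_))
    simp only [id, fun f : closure D => h2 f f.2 g]
    exact tendsto_pi_nhds.1 (tendsto_comap (f := fun (f : closure D) p => f.1.1 (t p))) _
  exact h3.frechetUrysohnSpace

theorem not_fu_Gr (hα : ℵ₀ < #α) (h : ∀ a : α, (Iio a).Countable)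
    (h0 : ∀ a b, b < a → x a b = 0) (h1 : ∀ a, x a a = 1) : ¬ FrechetUrysohnSpace (CX (Gr x)) := by
  classical
  intro k
  let u : Finset α → CX (Gr x) := fun F => ⟨fun g => if ∀ a : F, g.1 a = 0 then 1 else 0,
    (continuous_of_discreteTopology (f := fun z : F → ZMod 2 =>
      if ∀ a, z a = 0 then (1 : ℝ) else 0)).comp
      (continuous_pi fun a => (continuous_apply a.1).comp continuous_subtype_val)⟩
  have h2 : (⟨fun _ => 0, continuous_const⟩ : CX (Gr x)) ∈ closure (range u) := by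
    refine mem_closure_iff_nhds.2 fun V hV => ?_
    obtain ⟨S, N, hS, hN⟩ := nhds_fin hV
    choose r hr using fun g : Gr x => Function.ne_iff.1 g.2.1
    refine ⟨u (hS.toFinset.image r), hN _ fun g hg => ?_, _, rfl⟩
    simp only [u]
    rw [if_neg fun e => hr g (e ⟨r g, Finset.mem_image_of_mem r (hS.mem_toFinset.2 hg)⟩), sub_zero,
      abs_zero]
    positivity
  obtain ⟨v, hv, hv'⟩ := k.closure_subset_seqClosure _ h2
  choose F hF using hv
  obtain ⟨b, hb⟩ := exists_bound hα h (countable_iUnion fun n => (F n).countable_toSet)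
  have h3 := tendsto_iff.1 hv' ⟨x b, fun e => one_ne_zero ((h1 b).symm.trans (congrFun e b)),
    1, fun _ => b, by simp⟩
  simp only [← hF, u] at h3
  rw [tendsto_congr fun n => if_pos fun a : F n => h0 b a (hb a (mem_iUnion.2 ⟨n, a.2⟩))] at h3
  exact one_ne_zero (tendsto_const_nhds_iff.1 h3)

omit [LinearOrder α] in
theorem hs_Gr [TopologicalSpace α] (hs : ∀ n, HS (Fin n → α)) (hx : Continuous x) (n : ℕ) :
    HS (Fin n → Gr x) := by
  refine HS.of_cover (ι := Fin n → ℕ)
    (Z := fun k => {w : (Σ j, Fin (k j)) → α | ∀ j, ∑ i, x (w ⟨j, i⟩) ≠ 0})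
    (fun k => (HS.pi hs _).of_inducing IsInducing.subtypeVal)
    (fun k w j => ⟨∑ i, x (w.1 ⟨j, i⟩), w.2 j, _, _, rfl⟩)
    (fun k => continuous_pi fun j => Continuous.subtype_mk (continuous_finsetSum _ fun i _ =>
      hx.comp ((continuous_apply _).comp continuous_subtype_val)) _) fun g => ?_
  choose k v hv using fun j => (g j).2.2
  exact ⟨k, ⟨fun p => v p.1 p.2, fun j => (hv j).symm ▸ (g j).2.1⟩,
    funext fun j => Subtype.ext (hv j)⟩

omit [LinearOrder α] in
theorem mk_Gr [Infinite α] : #(Gr x) ≤ #α :=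
  (mk_le_mk_of_subset (t := range fun p : Σ k, Fin k → α => ∑ i, x (p.2 i))
    fun _ h => h.2.elim fun k h => h.elim fun v e => ⟨⟨k, v⟩, e⟩).trans (mk_range_le.trans_eq
      ((mk_congr List.equivSigmaTuple).symm.trans (mk_list_eq_mk α)))

end Group

theorem countable_of_lt {A : Type} {s : Set A} (h : #s < ℵ₁) : s.Countable :=
  le_aleph0_iff_set_countable.1 (lt_aleph_one_iff.1 h)

theorem countable_Iio (a : (ℵ₁ : Cardinal.{0}).ord.ToType) : (Iio a).Countable :=
  countable_of_lt (mk_Iio_ord_lt a)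

/-- A strong S-space gives a counterexample. -/
theorem of_strongS {Y : Type} [TopologicalSpace Y] [T35Space Y] (hs : ∀ n, HS (Fin n → Y))
    (hL : ¬ HereditarilyLindelofSpace Y) : ∃ (X : Type) (_ : TopologicalSpace X), T35Space X ∧
      #X ≤ ℵ₁ ∧ HX X ∧ ¬ FrechetUrysohnSpace (CX X) := by
  classical
  obtain ⟨t, ι, U, hU, ht, ht'⟩ : ∃ (t : Set Y) (ι : Type) (U : ι → Set Y), (∀ i, IsOpen (U i)) ∧
      t ⊆ ⋃ i, U i ∧ ∀ s : Set ι, s.Countable → ¬ t ⊆ ⋃ i ∈ s, U i := by
    by_contra k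
    push Not at k
    exact hL ⟨fun t _ => isLindelof_of_countable_subcover fun U a b => k t _ U a b⟩
  let α := (ℵ₁ : Cardinal.{0}).ord.ToType
  have e : #α = ℵ₁ := mk_ord_toType _
  have hα : ℵ₀ < #α := aleph0_lt_aleph_one.trans_eq e.symm
  obtain ⟨y, hy⟩ := exists_right_sep (U := fun i => ((↑) : t → Y) ⁻¹' U i)
    (fun i => (hU i).preimage continuous_subtype_val) (fun z => (mem_iUnion (s := U)).1 (ht z.2)) α
    (fun s h => by
      obtain ⟨z, a, b⟩ := not_subset.1 (ht' s (countable_of_lt (h.trans_eq e)))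
      exact ⟨⟨z, a⟩, fun i hi c => b (mem_biUnion hi c)⟩)
    fun a => (mk_Iio_ord_lt a).trans_eq e.symm
  choose f hf h0 h1 using fun a => CompletelyRegularSpace.completely_regular (y a) _
    isClosed_closure (hy a)
  have h2 : ∀ b : α, ∃ c ∈ Ioo (0 : ℝ) 1, ∀ a, (f b (y a) : ℝ) ≠ c := fun b => by
    by_contra k
    push Not at k
    have := ((((countable_Iio b).insert b).image fun a => (f b (y a) : ℝ)).mono
      (s₁ := Ioo (0 : ℝ) 1) fun c hc => ?_).le_aleph0
    · rw [mk_Ioo_real zero_lt_one] at this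
      exact aleph0_lt_continuum.not_ge this
    obtain ⟨a, rfl⟩ := k c hc
    refine ⟨a, (not_lt.1 fun h => hc.2.ne ?_).eq_or_lt, rfl⟩
    rw [h1 b (subset_closure ⟨a, h, rfl⟩)]
    rfl
  choose c hc hc' using h2
  let x : α → α → ZMod 2 := fun a b => if (f b (y a) : ℝ) < c b then 1 else 0
  let : TopologicalSpace α := induced y inferInstance
  have h3 : IsInducing y := ⟨rfl⟩
  have h4 : Continuous x := continuous_pi fun b => by
    have : Continuous fun a => (f b (y a) : ℝ) :=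
      continuous_subtype_val.comp ((hf b).comp h3.continuous)
    refine ((IsLocallyConstant.iff_eventually_eq _).2 fun a => ?_).continuous
    rcases (hc' b a).lt_or_gt with h | h
    · filter_upwards [this.continuousAt.eventually (gt_mem_nhds h)] with z hz
      simp only [x, if_pos h, if_pos hz]
    · filter_upwards [this.continuousAt.eventually (lt_mem_nhds h)] with z hz
      simp only [x, if_neg h.not_gt, if_neg hz.not_gt]
  have h5 : ∀ a b, b < a → x a b = 0 := fun a b h => if_neg <| by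
    rw [h1 b (subset_closure ⟨a, h, rfl⟩)]
    exact (hc b).2.not_gt
  have := infinite_iff.2 hα.le
  exact ⟨Gr x, inferInstance, inferInstance, mk_Gr.trans_eq e,
    hx_Gr hα countable_Iio (hs_Gr (fun n => (hs n).of_inducing (IsInducing.piMap fun _ =>
      IsInducing.subtypeVal.comp h3)) h4) h5,
    not_fu_Gr hα countable_Iio h5 fun a => if_pos (by rw [h0 a]; exact (hc a).1)⟩

/-- Locally countable spaces of countable spread are hereditarily separable. -/
theorem hs_of_spread {W : Type} [TopologicalSpace W] (V : W → Set W) (hV : ∀ w, V w ∈ 𝓝 w)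
    (hc : ∀ w, (V w).Countable) (h : ∀ D : Set W, DiscreteTopology D → D.Countable) : HS W := by
  intro s
  by_contra k
  push Not at k
  have h1 : ∀ c : Set W, c.Countable → ∃ w ∈ s, w ∉ closure (s ∩ c) ∧ ∀ z ∈ c, w ∉ V z := by
    intro c a
    obtain ⟨w, b, d⟩ := not_subset.1 (k (s ∩ (c ∪ ⋃ z ∈ c, V z)) inter_subset_left
      ((a.union (a.biUnion fun z _ => hc z)).mono inter_subset_right))
    exact ⟨w, b, fun e => d (closure_mono (inter_subset_inter_right _ subset_union_left) e),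
      fun z hz e => d (subset_closure ⟨b, .inr (mem_biUnion hz e)⟩)⟩
  have : Nonempty W := ⟨(h1 ∅ countable_empty).choose⟩
  choose! g h2 h3 h4 using h1
  let α := (ℵ₁ : Cardinal.{0}).ord.ToType
  let x : α → W := WellFoundedLT.fix fun a w => g (range fun b : Iio a => w b b.2)
  have hx : ∀ a, x a = g (x '' Iio a) := fun a =>
    (WellFoundedLT.fix_eq _ a).trans (congrArg g (image_eq_range x _).symm)
  have h5 := fun a : α => (countable_Iio a).image x
  have h6 : ∀ a, ∀ᶠ w in 𝓝 (x a), ∀ b, x b = w → b = a := fun a => by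
    filter_upwards [hV (x a), isClosed_closure.isOpen_compl.mem_nhds
      ((hx a).symm ▸ h3 _ (h5 a) : x a ∉ closure (s ∩ x '' Iio a))] with w p q b e
    subst e
    rcases lt_trichotomy b a with r | r | r
    · exact (q (subset_closure ⟨(hx b).symm ▸ h2 _ (h5 b), b, r, rfl⟩)).elim
    · exact r
    · exact (h4 _ (h5 b) _ ⟨a, r, rfl⟩ (hx b ▸ p)).elim
  have h7 := (h (range x) ((discrete_iff _).2 <| forall_mem_range.2 fun a =>
    ⟨_, h6 a, forall_mem_range.2 fun b e => congrArg x (e b rfl)⟩)).le_aleph0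
  rw [mk_range_eq x fun a b e => (h6 b).self_of_nhds a e, mk_ord_toType] at h7
  exact aleph0_lt_aleph_one.not_ge h7

/-- A small counterexample gives a strong S-space. -/
theorem strongS_of [T35Space X] (hX : #X ≤ ℵ₁) (H : HX X) (hF : ¬ FrechetUrysohnSpace (CX X)) :
    ∃ (Y : Type) (_ : TopologicalSpace Y), T35Space Y ∧ (∀ n, HS (Fin n → Y)) ∧
      ¬ HereditarilyLindelofSpace Y := by
  by_contra k
  refine hF (fu_of_no_S H fun κ _ hκ n x hx => ?_)
  by_contra k'
  push Not at k'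
  let α := κ.ord.ToType
  have hα : ℵ₀ < #α := hκ.trans_eq (mk_ord_toType κ).symm
  have h1 : x.Injective := fun a b e => by
    rcases lt_trichotomy a b with r | r | r
    · exact (hx a (subset_closure ⟨b, r, e.symm⟩)).elim
    · exact r
    · exact (hx b (subset_closure ⟨a, r, e⟩)).elim
  have h2 : κ ≤ ℵ₁ := ((mk_ord_toType κ).ge.trans (mk_le_of_injective h1)).trans <| by
    rw [← power_def, mk_fin]
    exact (power_le_power_right hX).trans (power_nat_le aleph0_lt_aleph_one.le)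
  have h3 : ∀ a : α, (Iio a).Countable := fun a =>
    countable_of_lt ((mk_Iio_ord_lt a).trans_le h2)
  let U : α → Set (range x) := fun a => (↑) ⁻¹' (closure (x '' Ioi a))ᶜ
  have h4 : ∀ a, IsOpen (U a) := fun a =>
    isClosed_closure.isOpen_compl.preimage continuous_subtype_val
  have h5 : ∀ a b, (⟨x b, b, rfl⟩ : range x) ∈ U a → b ≤ a := fun a b e =>
    not_lt.1 fun r => e (subset_closure ⟨b, r, rfl⟩)
  have h6 : ∀ y : range x, ∃ a, y ∈ U a := fun ⟨_, a, rfl⟩ => ⟨a, hx a⟩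
  refine k ⟨range x, inferInstance, inferInstance, fun m => ?_, fun hL => ?_⟩
  · choose r hr using h6
    refine hs_of_spread (fun w => univ.pi fun j => U (r (w j)))
      (fun w => set_pi_mem_nhds finite_univ fun j _ => (h4 _).mem_nhds (hr _))
      (fun w => countable_univ_pi fun j => (((h3 (r (w j))).insert (r (w j))).image
        (rangeFactorization x)).mono ?_) fun D hD => ?_
    · rintro ⟨_, b, rfl⟩ e
      exact ⟨b, (h5 _ b e).eq_or_lt, rfl⟩
    · have e := ((Homeomorph.piCongrLeft (Y := fun _ => X) finProdFinEquiv).isEmbedding.comp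
        (Homeomorph.piCurry (X := Fin m) (Y := Fin n) (Z := X)).symm.isEmbedding).comp
        (IsEmbedding.piMap fun _ : Fin m => IsEmbedding.subtypeVal (p := (· ∈ range x)))
      refine countable_of_injective_of_countable_image e.injective.injOn
        (countable_of_lt ((k' _ _ ?_).trans_le h2))
      exact (e.homeomorphImage D).discreteTopology
  · obtain ⟨s, h7, h8⟩ := (isLindelof_univ (X := range x)).elim_countable_subcover U h4
      fun y _ => mem_iUnion.2 (h6 y)
    obtain ⟨b, hb⟩ := exists_bound hα h3 h7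
    obtain ⟨a, p, q⟩ := mem_iUnion₂.1 (h8 (mem_univ ⟨x b, b, rfl⟩))
    exact (hb a p).not_ge (h5 a b q)

end Pool.Agent.Lib.MP_23bd8d_gt
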