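import Pool.Agent.Lib.MP_23bd8d_gt.Strong

/-! Subsets of `C_p(X)` of the first uncountable size and strong S-spaces. -/

set_option autoImplicit false

open Set Filter Topology Cardinal TopologicalSpace

namespace Pool.Agent.Lib.MP_23bd8d_gt

variable {X : Type} [TopologicalSpace X]

/-- A right separated family of the first uncountable type in a finite power of a space whose
finite powers have only countable discrete subsets is a strong S-space. -/
theorem strongS_of_sep [T35Space X] {n : ℕ} (x : (ℵ₁ : Cardinal.{0}).ord.ToType → Fin n → X)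
    (hx : ∀ a, x a ∉ closure (x '' Ioi a))
    (k' : ∀ (m : ℕ) (D : Set (Fin m → X)), DiscreteTopology D → D.Countable) :
    ∃ (Y : Type) (_ : TopologicalSpace Y), T35Space Y ∧ (∀ n, HS (Fin n → Y)) ∧
      ¬ HereditarilyLindelofSpace Y := by
  let α := (ℵ₁ : Cardinal.{0}).ord.ToType
  have hα : ℵ₀ < #α := aleph0_lt_aleph_one.trans_eq (mk_ord_toType _).symm
  have h3 : ∀ a : α, (Iio a).Countable := countable_Iio
  let U : α → Set (range x) := fun a => (↑) ⁻¹' (closure (x '' Ioi a))ᶜ
  have h4 : ∀ a, IsOpen (U a) := fun a =>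
    isClosed_closure.isOpen_compl.preimage continuous_subtype_val
  have h5 : ∀ a b, (⟨x b, b, rfl⟩ : range x) ∈ U a → b ≤ a := fun a b e =>
    not_lt.1 fun r => e (subset_closure ⟨b, r, rfl⟩)
  have h6 : ∀ y : range x, ∃ a, y ∈ U a := fun ⟨_, a, rfl⟩ => ⟨a, hx a⟩
  refine ⟨range x, inferInstance, inferInstance, fun m => ?_, fun hL => ?_⟩
  · choose r hr using h6
    refine hs_of_spread (fun w => univ.pi fun j => U (r (w j)))
      (fun w => set_pi_mem_nhds finite_univ fun j _ => (h4 _).mem_nhds (hr _))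
      (fun w => countable_univ_pi fun j => (((h3 (r (w j))).insert (r (w j))).image
        (rangeFactorization x)).mono ?_) fun D hD => ?_
    · rintro ⟨_, b, rfl⟩ e
      exact ⟨b, (h5 _ b e).eq_or_lt, rfl⟩
    · have e := ((Homeomorph.piCongrLeft (Y := fun _ => X) finProdFinEquiv).isEmbedding.comp
        (Homeomorph.piCurry (X := Fin m) (Y := Fin n) (Z := X)).symm.isEmbedding).comp
        (IsEmbedding.piMap fun _ : Fin m => IsEmbedding.subtypeVal (p := (· ∈ range x)))
      exact countable_of_injective_of_countable_image e.injective.injOn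
        (k' _ _ (e.homeomorphImage D).discreteTopology)
  · obtain ⟨s, h7, h8⟩ := (isLindelof_univ (X := range x)).elim_countable_subcover U h4
      fun y _ => mem_iUnion.2 (h6 y)
    obtain ⟨b, hb⟩ := exists_bound hα h3 h7
    obtain ⟨a, p, q⟩ := mem_iUnion₂.1 (h8 (mem_univ ⟨x b, b, rfl⟩))
    exact (hb a p).not_ge (h5 a b q)

/-- A set of at most `ℵ₁` functions whose closure is not Frechet-Urysohn gives a strong S-space,
whatever the size of `X`. -/
theorem strongS_of_small [T35Space X] (H : HX X) {A : Set (CX X)} (hA : #A ≤ ℵ₁)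
    (hF : ¬ FrechetUrysohnSpace (closure A)) :
    ∃ (Y : Type) (_ : TopologicalSpace Y), T35Space Y ∧ (∀ n, HS (Fin n → Y)) ∧
      ¬ HereditarilyLindelofSpace Y := by
  have k' : ∀ (m : ℕ) (D : Set (Fin m → X)), DiscreteTopology D → D.Countable := fun m D hD => by
    by_contra e
    have h2 := ((sd_of_pow H D hD).of_le
      (hA.trans (not_lt.1 fun r => e (countable_of_lt r)))).fu H ((↑) : A → CX X)
    rw [Subtype.range_coe] at h2
    exact hF h2
  by_contra k
  have h1 : FrechetUrysohnSpace (CX X) := fu_of_no_S H fun κ _ hκ n x hx => by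
    obtain ⟨e⟩ : Nonempty ((ℵ₁ : Cardinal.{0}).ord.ToType ≤i κ.ord.ToType) := by
      apply Ordinal.type_le_iff.1
      rw [Ordinal.type_toType, Ordinal.type_toType]
      exact ord_le_ord.2 (aleph_one_le_iff.2 hκ)
    refine (k (strongS_of_sep (x ∘ e) (fun a h => hx (e a) (closure_mono ?_ h)) k')).elim
    rintro _ ⟨b, hb, rfl⟩
    exact ⟨e b, e.strictMono hb, rfl⟩
  exact hF inferInstance

/-- If `X` has at most `ℵ₁` points, the failure of the Frechet-Urysohn property is seen in the
closure of a set of at most `ℵ₁` functions. -/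
theorem exists_small (hX : #X ≤ ℵ₁) (hF : ¬ FrechetUrysohnSpace (CX X)) :
    ∃ A : Set (CX X), #A ≤ ℵ₁ ∧ ¬ FrechetUrysohnSpace (closure A) := by
  by_contra k
  push Not at k
  refine hF ⟨fun Z g hg => ?_⟩
  have h1 : ∀ p : List X × ℕ, ∃ f ∈ Z, ∀ x ∈ p.1, |f.1 x - g.1 x| < 3 / ((p.2 : ℝ) + 1) :=
    fun p => by
    obtain ⟨f, h1, h2⟩ := mem_closure_iff_nhds.1 hg _
      ((eventually_all_finite p.1.finite_toSet).2 fun x _ =>
        ((continuous_ev x).tendsto g).eventually
          (Metric.ball_mem_nhds _ (show (0 : ℝ) < 3 / ((p.2 : ℝ) + 1) by positivity)))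
    exact ⟨f, h2, h1⟩
  choose f hf hf' using h1
  have h2 : #(range f) ≤ ℵ₁ := mk_range_le.trans <| by
    rw [mk_prod, lift_id, lift_id, mk_nat]
    exact (mul_le_max _ _).trans (max_le (max_le ((mk_list_le_max X).trans
      (max_le aleph0_lt_aleph_one.le hX)) aleph0_lt_aleph_one.le) aleph0_lt_aleph_one.le)
  have h3 : g ∈ closure (range f) := by
    refine mem_closure_iff_nhds.2 fun V hV => ?_
    obtain ⟨F, N, hF, h⟩ := nhds_fin hV
    exact ⟨f (hF.toFinset.toList, N), h _ fun x hx => hf' _ x (by simpa using hx), _, rfl⟩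
  obtain ⟨u, hu, hu'⟩ := (fu_iff _).1 (k _ h2) _ subset_closure g h3 h3
  exact ⟨u, fun n => by
    obtain ⟨p, hp⟩ := hu n
    exact hp ▸ hf p, hu'⟩

end Pool.Agent.Lib.MP_23bd8d_gt
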